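import Pool.Agent.ETCLH.Defs

/-!
THEOREM LH (note 2403), basic facts.
-/

set_option autoImplicit false
set_option linter.unusedSectionVars false

namespace Pool.Agent.ETCLH

open Module
open Pool.Agent.Helper58.PLine (QData)
open Pool.Agent.ETCP Pool.Agent.LSS

variable {V Q : Type} [AddCommGroup V] [Module (ZMod 2) V]
variable {D : QData V Q} {φ : V →ₗ[ZMod 2] ZMod 2}

theorem zz (a : ZMod 2) : a = 0 ∨ a = 1 := by revert a; decide

theorem n01 : (0 : ZMod 2) ≠ 1 := by decide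

theorem phadd {a b : V} : φ (a + b) = φ a + φ b := map_add φ a b

theorem ph00 {a b : V} (ha : φ a = 0) (hb : φ b = 0) : φ (a + b) = 0 := by
  rw [map_add, ha, hb, add_zero]

theorem ph01 {a b : V} (ha : φ a = 0) (hb : φ b = 1) : φ (a + b) = 1 := by
  rw [map_add, ha, hb, zero_add]

theorem ph10 {a b : V} (ha : φ a = 1) (hb : φ b = 0) : φ (a + b) = 1 := by
  rw [map_add, ha, hb, add_zero]

theorem ph11 {a b : V} (ha : φ a = 1) (hb : φ b = 1) : φ (a + b) = 0 := by
  rw [map_add, ha, hb]; decide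

theorem qadd {x a b : V} (h : C D x b) : D.q x (a + b) = D.q x a :=
  q_eq (h.of_eq rfl (by (first | rfl | exact eo (by abel_nf <;> simp only [ch2, ch3, ch4, ch5, ch6, add_zero, zero_add]))))

theorem qaddl {x a b : V} (h : C D x a) : D.q x (a + b) = D.q x b :=
  q_eq (h.of_eq rfl (by (first | rfl | exact eo (by abel_nf <;> simp only [ch2, ch3, ch4, ch5, ch6, add_zero, zero_add]))))

theorem qadd' {x a b : V} (h : C D b x) : D.q (a + b) x = D.q a x :=
  q_eq' (h.of_eq (by (first | rfl | exact eo (by abel_nf <;> simp only [ch2, ch3, ch4, ch5, ch6, add_zero, zero_add]))) rfl)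

theorem qaddl' {x a b : V} (h : C D a x) : D.q (a + b) x = D.q b x :=
  q_eq' (h.of_eq (by (first | rfl | exact eo (by abel_nf <;> simp only [ch2, ch3, ch4, ch5, ch6, add_zero, zero_add]))) rfl)

/-- sums of values -/
theorem qsum {x v s t s' t' : V} (h : D.q x s = D.q v t) (h' : D.q x s' = D.q v t') :
    D.q x (s + s') = D.q v (t + t') := ETC.add_common h h'

/-! ### Perfect pairs -/

theorem Mn.noPerf [Finite V] (M : Mn D) {y z : V} (hyz : ¬ C D y z)
    (h1 : ∀ x n, SlQ D (D.q y z) x → C D x n → ∃ a b, C D y a ∧ C D z b ∧ n = a + b)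
    (h2 : ∀ v, C D (y + z) v → C D z v ∨ D.q z v = D.q y z) : False := by
  have hc0 : D.q y z ≠ D.z := hyz
  have hc : ∃ x, SlQ D (D.q y z) x := ⟨y, z, rfl⟩
  have hsh := PPD.shift_of_perfect M.he rfl h1 h2
  have hw : SlQ D (D.q y z) (y + z) := ⟨z, qadd' (C.self M.he z)⟩
  have hs := RDC.span_ne_of_stab M.he hc0 hc hw
    (fun m hm hm' y' hy' => PPD.stab_of_shift hw hsh hm hm' hy')
  rcases rank_one_or_primeQ M.he _ hc0 hc hs with ⟨x, hx, hx'⟩ | ⟨ψ, h0, h3⟩
  · exact hx (M.r1 x hx')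
  · exact M.np ψ h0 h3

/-! ### Dimensions -/

theorem inf_span {I : Submodule (ZMod 2) V} {w : V} (hw : w ∉ I) :
    I ⊓ Submodule.span (ZMod 2) {w} = ⊥ := by
  rw [Submodule.eq_bot_iff]
  rintro v ⟨h1, h2⟩
  obtain ⟨a, rfl⟩ := Submodule.mem_span_singleton.1 h2
  rcases zz a with rfl | rfl
  · exact zero_smul _ _
  · exact absurd (by simpa using h1) hw

theorem finrank_add_one [Finite V] {I : Submodule (ZMod 2) V} {w : V} (hw : w ∉ I) :
    finrank (ZMod 2) (I ⊔ Submodule.span (ZMod 2) {w} : Submodule (ZMod 2) V) =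
      finrank (ZMod 2) I + 1 := by
  have h1 := Submodule.finrank_sup_add_finrank_inf_eq I (Submodule.span (ZMod 2) {w})
  have hw0 : w ≠ 0 := fun h => hw (h ▸ I.zero_mem)
  rw [inf_span hw, finrank_bot, finrank_span_singleton hw0] at h1
  omega

theorem mem_sup_span {I : Submodule (ZMod 2) V} {w v : V}
    (hv : v ∈ I ⊔ Submodule.span (ZMod 2) {w}) : v ∈ I ∨ v + w ∈ I := by
  obtain ⟨i, hi, s, hs, rfl⟩ := Submodule.mem_sup.1 hv
  obtain ⟨a, rfl⟩ := Submodule.mem_span_singleton.1 hs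
  rcases zz a with rfl | rfl
  · left; simpa using hi
  · right
    have : i + (1 : ZMod 2) • w + w = i := by rw [one_smul]; (first | rfl | exact eo (by abel_nf <;> simp only [ch2, ch3, ch4, ch5, ch6, add_zero, zero_add]))
    rw [this]; exact hi

theorem split_of_finrank [Finite V] {I J : Submodule (ZMod 2) V} (h : I ≤ J)
    (hf : finrank (ZMod 2) J ≤ finrank (ZMod 2) I + 1) {w : V} (hw : w ∈ J) (hwI : w ∉ I)
    {v : V} (hv : v ∈ J) : v ∈ I ∨ v + w ∈ I := by
  have h1 : I ⊔ Submodule.span (ZMod 2) {w} ≤ J := by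
    rw [sup_le_iff, Submodule.span_singleton_le_iff_mem]
    exact ⟨h, hw⟩
  have h2 := Submodule.eq_of_le_of_finrank_le h1 (by rw [finrank_add_one hwI]; exact hf)
  rw [← h2] at hv
  exact mem_sup_span hv

theorem mem_ann {x v : V} : v ∈ D.ann x ↔ C D x v := Iff.rfl

/-- (K3) -/
theorem Mn.K3 [Finite V] (M : Mn D) {y z : V} (hyz : ¬ C D y z)
    (hc : ∃ x, SlQ D (D.q y z) x) :
    finrank (ZMod 2) (D.ann y) + finrank (ZMod 2) (D.ann z) + 2 ≤
      finrank (ZMod 2) (D.ann (y + z)) + finrank (ZMod 2) (DcQ D (D.q y z) hc) := by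
  have hsy : SlQ D (D.q y z) y := ⟨z, rfl⟩
  have hsz : SlQ D (D.q y z) z := ⟨y, D.symm z y⟩
  have hY : D.ann y ⊔ D.ann z ≤ DcQ D (D.q y z) hc := by
    rw [sup_le_iff]
    exact ⟨fun v hv => DcQ_ann hsy hv, fun v hv => DcQ_ann hsz hv⟩
  have e0 := Submodule.finrank_sup_add_finrank_inf_eq (D.ann y) (D.ann z)
  have hI : D.ann y ⊓ D.ann z ≤ D.ann (y + z) := by
    rintro v ⟨h1, h2⟩
    exact C.add' h1 h2
  have hw : y + z ∈ D.ann (y + z) := C.self M.he (y + z)
  have hwI : y + z ∉ D.ann y ⊓ D.ann z := by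
    rintro ⟨h1, -⟩
    apply hyz
    exact (C.add h1 (C.self M.he y)).of_eq rfl (by (first | rfl | exact eo (by abel_nf <;> simp only [ch2, ch3, ch4, ch5, ch6, add_zero, zero_add])))
  have l1 : finrank (ZMod 2) (D.ann y ⊓ D.ann z : Submodule (ZMod 2) V) + 1 ≤
      finrank (ZMod 2) (D.ann (y + z)) := by
    rw [← finrank_add_one hwI]
    apply Submodule.finrank_mono
    rw [sup_le_iff, Submodule.span_singleton_le_iff_mem]
    exact ⟨hI, hw⟩
  have l2 := Submodule.finrank_mono hY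
  by_contra hlt
  push Not at hlt
  have hG : D.ann y ⊔ D.ann z = DcQ D (D.q y z) hc :=
    Submodule.eq_of_le_of_finrank_le hY (by omega)
  apply M.noPerf hyz
  · intro x n hx hn
    have h3 : n ∈ DcQ D (D.q y z) hc := ⟨x, hx, hn⟩
    rw [← hG] at h3
    obtain ⟨a, ha, b, hb, e⟩ := Submodule.mem_sup.1 h3
    exact ⟨a, b, ha, hb, e.symm⟩
  · intro v hv
    rcases split_of_finrank hI (by omega) hw hwI (v := v) hv with ⟨-, h⟩ | ⟨-, h⟩
    · exact Or.inl h
    · right
      have h4 : C D z (v + y) := (C.add h (C.self M.he z)).of_eq rfl (by (first | rfl | exact eo (by abel_nf <;> simp only [ch2, ch3, ch4, ch5, ch6, add_zero, zero_add])))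
      rw [D.symm y z]
      exact q_eq h4

theorem finrank_ker [Finite V] {U : Submodule (ZMod 2) V} (hU : ∃ v ∈ U, φ v = 1) :
    finrank (ZMod 2) U = finrank (ZMod 2) (U ⊓ LinearMap.ker φ : Submodule (ZMod 2) V) + 1 := by
  obtain ⟨w, hw, hw1⟩ := hU
  have hwI : w ∉ U ⊓ LinearMap.ker φ := by
    rintro ⟨-, h⟩
    rw [SetLike.mem_coe, LinearMap.mem_ker, hw1] at h
    exact n01 h.symm
  rw [← finrank_add_one hwI]
  have e : U = (U ⊓ LinearMap.ker φ) ⊔ Submodule.span (ZMod 2) {w} := by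
    apply le_antisymm
    · intro v hv
      rcases zz (φ v) with h | h
      · exact Submodule.mem_sup_left ⟨hv, h⟩
      · have h1 : v + w ∈ U ⊓ LinearMap.ker φ := ⟨U.add_mem hv hw, ph11 h hw1⟩
        have : v = (v + w) + w := by (first | rfl | exact eo (by abel_nf <;> simp only [ch2, ch3, ch4, ch5, ch6, add_zero, zero_add]))
        rw [this]
        exact Submodule.add_mem_sup h1 (Submodule.mem_span_singleton_self w)
    · rw [sup_le_iff, Submodule.span_singleton_le_iff_mem]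
      exact ⟨inf_le_left, hw⟩
  rw [← e]

theorem finrank_le_ker [Finite V] (φ : V →ₗ[ZMod 2] ZMod 2) (U : Submodule (ZMod 2) V) :
    finrank (ZMod 2) U ≤ finrank (ZMod 2) (U ⊓ LinearMap.ker φ : Submodule (ZMod 2) V) + 1 := by
  by_cases h : ∃ v ∈ U, φ v = 1
  · exact (finrank_ker h).le
  · have : U ⊓ LinearMap.ker φ = U := by
      apply inf_eq_left.2
      intro v hv
      rcases zz (φ v) with h1 | h1
      · exact h1
      · exact absurd ⟨v, hv, h1⟩ h
    rw [this]
    omega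

/-! ### The group `D(c)` -/

theorem slotNb {x a s : V} (hx : C D x x) (hs : SlQ D (D.q x a) s) : Nb D x a s := by
  obtain ⟨y, hy⟩ := hs
  obtain ⟨t, h1, h2⟩ := D.link x a s y hy.symm
  refine ⟨a + t, x, q_eq_iff.1 h1, hx, ?_⟩
  have h3 : C D (x + s) t := q_eq'_iff.1 (by rw [← h1, ← h2, hy])
  exact h3.symm.of_eq (by (first | rfl | exact eo (by abel_nf <;> simp only [ch2, ch3, ch4, ch5, ch6, add_zero, zero_add]))) (by (first | rfl | exact eo (by abel_nf <;> simp only [ch2, ch3, ch4, ch5, ch6, add_zero, zero_add])))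

theorem mem_Dc (he : D.e = 0) {x a v : V} {hc : ∃ s, SlQ D (D.q x a) s} :
    v ∈ DcQ D (D.q x a) hc ↔ Nb D x a v := by
  constructor
  · rintro ⟨s, ⟨y, hy⟩, hv⟩
    have h1 : SlQ D (D.q x a) y := ⟨s, by rw [D.symm, hy]⟩
    have h2 : SlQ D (D.q x a) (y + v) := ⟨s, by rw [D.symm, qadd hv, hy]⟩
    have hx := C.self he x
    exact ((slotNb hx h1).add he (slotNb hx h2)).of_eq rfl (by (first | rfl | exact eo (by abel_nf <;> simp only [ch2, ch3, ch4, ch5, ch6, add_zero, zero_add])))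
  · rintro ⟨w, w', h1, h2, h3⟩
    have e : v = (v + w') + w' := by (first | rfl | exact eo (by abel_nf <;> simp only [ch2, ch3, ch4, ch5, ch6, add_zero, zero_add]))
    rw [e]
    apply add_mem
    · exact DcQ_ann ⟨x, by rw [D.symm, qadd h1]⟩ h3
    · exact DcQ_ann ⟨a, rfl⟩ h2

end Pool.Agent.ETCLH
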