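import Pool.Agent.ETCLH.S4

/-!
THEOREM LH (note 2403), section 6: case (I) is impossible for a factor `E = A[t]` such that no
proper nonzero subgroup of `A` is closed under taking commuting elements.
-/

set_option autoImplicit false
set_option linter.unusedSectionVars false

namespace Pool.Agent.ETCLH

open Module
open Pool.Agent.Helper58.PLine (QData)
open Pool.Agent.ETCP Pool.Agent.LSS Pool.Agent.RDC

variable {V Q : Type} [AddCommGroup V] [Module (ZMod 2) V]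
variable {D : QData V Q} {φ : V →ₗ[ZMod 2] ZMod 2}
variable {E E' : Submodule (ZMod 2) V} {τ : V →ₗ[ZMod 2] ZMod 2} {t : V}

/-- no proper nonzero subgroup of `A` is closed under taking commuting elements -/
def Cl (D : QData V Q) (E : Submodule (ZMod 2) V) (τ : V →ₗ[ZMod 2] ZMod 2) : Prop :=
  ∀ I : Submodule (ZMod 2) V, (∀ a ∈ I, a ∈ E ∧ τ a = 0) → (∃ a ∈ I, a ≠ 0) →
    (∀ a ∈ I, a ≠ 0 → ∀ b ∈ E, τ b = 0 → C D a b → b ∈ I) → ∀ a ∈ E, τ a = 0 → a ∈ I

theorem Ext.nz {x : V} (hx1 : τ x = 1) : x ≠ 0 := by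
  rintro rfl
  rw [map_zero] at hx1
  exact n01 hx1

theorem L6a (S : LHs D φ) (F : Fct D φ E E') (X : Ext D E τ t) (hI : TyI D φ E) {x a u y h' : V}
    (hx : x ∈ E) (hx1 : τ x = 1) (ha : a ∈ E) (hh' : h' ∈ E') (hu : C D u (x + h'))
    (hy : D.q u y = D.q x a) : ∃ h0 ∈ E', D.q u (a + h0) = D.q x a := by
  obtain ⟨k, hk0, hk1, hk2⟩ := slotH (hI x hx (Ext.nz hx1)) (F.le a ha) rfl hy
  obtain ⟨e, hee, g, hg, rfl⟩ := F.sum k hk0
  rw [F.qE hx hg] at hk1
  rcases X.rig x hx hx1 _ (E.add_mem hee ha) (q_eq_iff.1 hk1) with h1 | h1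
  · rw [eo h1] at hk2
    exact ⟨g, hg, hk2⟩
  · refine ⟨g + h', E'.add_mem hg hh', ?_⟩
    rw [← hk2, show a + (g + h') = e + g + (x + h') by rw [← h1]; (first | rfl | exact eo (by abel_nf <;> simp only [ch2, ch3, ch4, ch5, ch6, add_zero, zero_add]))]
    exact qadd hu

theorem L6dis (S : LHs D φ) (F : Fct D φ E E') (X : Ext D E τ t) (hI : TyI D φ E)
    {x a u y h' h : V} (hx : x ∈ E) (hx1 : τ x = 1) (ha : a ∈ E) (hh' : h' ∈ E')
    (hu : C D u (x + h')) (hxa : ¬ C D x a) (hy : D.q u y = D.q x a) (hh : h ∈ E')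
    (hua : C D u (a + h)) : False := by
  obtain ⟨h0, hh0, h1⟩ := L6a S F X hI hx hx1 ha hh' hu hy
  have h2 : D.q u (h0 + h) = D.q x a := by
    rw [← h1, show h0 + h = a + h0 + (a + h) by (first | rfl | exact eo (by abel_nf <;> simp only [ch2, ch3, ch4, ch5, ch6, add_zero, zero_add]))]
    exact qadd hua
  apply F.nslot (hI x hx (Ext.nz hx1)) hx ha hxa (E'.add_mem hh0 hh) u
  rw [D.symm, h2]

/-- (C) -/
theorem L6C (S : LHs D φ) (F : Fct D φ E E') (X : Ext D E τ t) (hI : TyI D φ E)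
    {x a b u y h' : V} (hx : x ∈ E) (hx1 : τ x = 1) (ha : a ∈ E) (ha0 : a ≠ 0) (hta : τ a = 0)
    (hb : b ∈ E) (htb : τ b = 0) (hab : C D a b) (hh' : h' ∈ E') (hu : C D u (x + h'))
    (hy : D.q u y = D.q x a) : ∃ y', D.q u y' = D.q x b := by
  have he := S.he
  have hxa := X.nC hx hx1 ha ha0 hta
  obtain ⟨h0, hh0, h1⟩ := L6a S F X hI hx hx1 ha hh' hu hy
  have hax := E.add_mem ha hx
  have e1 : D.q (u + (a + x)) (x + h') = D.q x a := by
    rw [qaddl' hu, F.qE hax hh', qadd' (C.self he x), D.symm]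
  have hx' := E.add_mem hx hb
  have hx1' : τ (x + b) = 1 := ph10 hx1 htb
  have e2 : D.q (x + b) a = D.q x a := qadd' hab.symm
  obtain ⟨k, hk0, hk1, hk2⟩ := slotH (hI _ hx' (Ext.nz hx1')) (F.le a ha) e2 e1
  obtain ⟨e, hee, g, hg, rfl⟩ := F.sum k hk0
  rw [F.qE hx' hg] at hk1
  rcases X.rig _ hx' hx1' _ (E.add_mem hee ha) (q_eq_iff.1 (hk1.trans e2.symm)) with h2 | h2
  · exfalso
    rw [eo h2] at hk2
    have e3 : D.q (a + x) (a + g) = D.q x a := by
      rw [F.qE hax hg, qaddl' (C.self he a)]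
    have e4 : C D (u + (a + x) + (a + x)) (a + g) := q_eq'_iff.1 (hk2.trans e3.symm)
    have e5 : C D u (a + g) := e4.of_eq (by (first | rfl | exact eo (by abel_nf <;> simp only [ch2, ch3, ch4, ch5, ch6, add_zero, zero_add]))) rfl
    exact L6dis S F X hI hx hx1 ha hh' hu hxa hy hg e5
  · have e3 : e = a + x + b := by
      have : e = (e + a) + a := by (first | rfl | exact eo (by abel_nf <;> simp only [ch2, ch3, ch4, ch5, ch6, add_zero, zero_add]))
      rw [this, h2]; (first | rfl | exact eo (by abel_nf <;> simp only [ch2, ch3, ch4, ch5, ch6, add_zero, zero_add]))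
    have e4 : D.q (e + g) (u + (a + x)) = D.q x a := by rw [D.symm, hk2]
    have e5 : D.q (e + g) (a + x) = D.q x b := by
      rw [D.symm, F.qE hax hg, e3, qaddl (C.self he (a + x)), qaddl' hab]
    have e6 := qsum e4 e5
    rw [show u + (a + x) + (a + x) = u by (first | rfl | exact eo (by abel_nf <;> simp only [ch2, ch3, ch4, ch5, ch6, add_zero, zero_add]))] at e6
    have e7 := qsum (D.symm u (e + g) |>.trans e6) h1
    rw [show a + b + a = b by (first | rfl | exact eo (by abel_nf <;> simp only [ch2, ch3, ch4, ch5, ch6, add_zero, zero_add]))] at e7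
    exact ⟨_, e7⟩

theorem L6D (S : LHs D φ) (F : Fct D φ E E') (X : Ext D E τ t) (hI : TyI D φ E)
    {x a u h' : V} (hx : x ∈ E) (hx1 : τ x = 1) (ha : a ∈ E) (hh' : h' ∈ E')
    (hu : C D u (x + h')) : (∃ h ∈ E', C D u (a + h)) ↔ ∃ y, D.q (u + x) y = D.q x a := by
  have hux : C D (u + x) (x + h') := hu.add' ((C.self S.he x).add (F.orth x hx h' hh'))
  constructor
  · rintro ⟨h, hh, h1⟩
    exact ⟨a + h, by rw [qaddl' h1, F.qE hx hh]⟩
  · rintro ⟨y, hy⟩
    obtain ⟨h0, hh0, h1⟩ := L6a S F X hI hx hx1 ha hh' hux hy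
    refine ⟨h0, hh0, ?_⟩
    rw [← F.qE hx hh0] at h1
    exact (q_eq'_iff.1 h1).of_eq (by (first | rfl | exact eo (by abel_nf <;> simp only [ch2, ch3, ch4, ch5, ch6, add_zero, zero_add]))) rfl

/-- a perfect pair -/
theorem L6PP [Finite V] (S : LHs D φ) (F : Fct D φ E E') (X : Ext D E τ t) (hI : TyI D φ E)
    {x u : V} (hx : x ∈ E) (hx1 : τ x = 1) (hu1 : φ u = 1)
    (h1 : ∀ a ∈ E, τ a = 0 → ∃ h ∈ E', C D u (a + h))
    (h2 : ∀ a ∈ E, τ a = 0 → ∀ y, D.q u y = D.q x a → C D x a) : False := by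
  have he := S.he
  have hxY := hI x hx (Ext.nz hx1)
  have hxu : ¬ C D x u := by
    intro h
    have := hxY _ h
    rw [hu1] at this
    exact n01 this.symm
  have hx0 := F.le x hx
  have split : ∀ e ∈ E, ∃ a ∈ E, τ a = 0 ∧ C D x (e + a) := by
    intro e hee
    rcases zz (τ e) with h3 | h3
    · exact ⟨e, hee, h3, (C.zero x).of_eq rfl (by (first | rfl | exact eo (by abel_nf <;> simp only [ch2, ch3, ch4, ch5, ch6, add_zero, zero_add])))⟩
    · exact ⟨e + x, E.add_mem hee hx, ph11 h3 hx1, (C.self he x).of_eq rfl (by (first | rfl | exact eo (by abel_nf <;> simp only [ch2, ch3, ch4, ch5, ch6, add_zero, zero_add])))⟩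
  have hH : ∀ w, φ w = 0 → ∃ a b, C D x a ∧ C D u b ∧ w = a + b := by
    intro w hw
    obtain ⟨e, hee, g, hg, rfl⟩ := F.sum w hw
    obtain ⟨a, ha, hta, h3⟩ := split e hee
    obtain ⟨h, hh, h4⟩ := h1 a ha hta
    exact ⟨(e + a) + (g + h), a + h, h3.add (F.orth x hx _ (E'.add_mem hg hh)), h4, by (first | rfl | exact eo (by abel_nf <;> simp only [ch2, ch3, ch4, ch5, ch6, add_zero, zero_add]))⟩
  apply S.noPerf hxu
  · intro _ w _ _
    rcases zz (φ w) with h3 | h3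
    · exact hH w h3
    · obtain ⟨a, b, h4, h5, h6⟩ := hH (w + u) (ph11 h3 hu1)
      refine ⟨a, b + u, h4, h5.add (C.self he u), ?_⟩
      have : w = (w + u) + u := by (first | rfl | exact eo (by abel_nf <;> simp only [ch2, ch3, ch4, ch5, ch6, add_zero, zero_add]))
      rw [this, h6]; (first | rfl | exact eo (by abel_nf <;> simp only [ch2, ch3, ch4, ch5, ch6, add_zero, zero_add]))
  · have hH2 : ∀ v, φ v = 0 → C D (x + u) v → C D u v := by
      intro v hv h3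
      have e1 : D.q x v = D.q u v := q_eq'_iff.2 h3
      obtain ⟨e, hee, g, hg, rfl⟩ := F.sum v hv
      obtain ⟨a, ha, hta, h4⟩ := split e hee
      have e2 : D.q x a = D.q x (e + g) := by
        rw [F.qE hx hg]
        exact (q_eq h4).symm
      have h5 := h2 a ha hta (e + g) (by rw [e2, e1])
      exact (e1.symm.trans e2.symm).trans h5
    intro v hv
    rcases zz (φ v) with h3 | h3
    · exact Or.inl (hH2 v h3 hv)
    · right
      have h4 := hH2 (v + (x + u)) (ph11 h3 (ph01 hx0 hu1)) (hv.add (C.self he _))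
      have h5 : C D u (v + x) := (h4.add (C.self he u)).of_eq rfl (by (first | rfl | exact eo (by abel_nf <;> simp only [ch2, ch3, ch4, ch5, ch6, add_zero, zero_add])))
      rw [D.symm x u]
      exact q_eq h5

/-- both groups are zero -/
theorem L6E [Finite V] (S : LHs D φ) (F : Fct D φ E E') (X : Ext D E τ t) (hI : TyI D φ E)
    (hcl : Cl D E τ) {x u h' : V} (hx : x ∈ E) (hx1 : τ x = 1) (hu1 : φ u = 1) (hh' : h' ∈ E')
    (hu : C D u (x + h')) {a : V} (ha : a ∈ E) (ha0 : a ≠ 0) (hta : τ a = 0) :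
    (∀ y, D.q u y ≠ D.q x a) ∧ ∀ h ∈ E', ¬ C D u (a + h) := by
  have hux : C D (u + x) (x + h') := hu.add' ((C.self S.he x).add (F.orth x hx h' hh'))
  have hnC : ∀ a ∈ E, a ≠ 0 → τ a = 0 → ¬ C D x a := fun a ha ha0 hta => X.nC hx hx1 ha ha0 hta
  let I : Submodule (ZMod 2) V :=
    { carrier := {a | a ∈ E ∧ τ a = 0 ∧ ∃ y, D.q u y = D.q x a}
      add_mem' := by
        rintro a b ⟨h1, h2, y, h3⟩ ⟨h1', h2', y', h3'⟩
        exact ⟨E.add_mem h1 h1', ph00 h2 h2', y + y', qsum h3 h3'⟩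
      zero_mem' := ⟨E.zero_mem, map_zero τ, 0, by rw [D.q_zero, D.q_zero]⟩
      smul_mem' := by
        rintro r a ⟨h1, h2, y, h3⟩
        rcases zz r with rfl | rfl
        · rw [zero_smul]
          exact ⟨E.zero_mem, map_zero τ, 0, by rw [D.q_zero, D.q_zero]⟩
        · rw [one_smul]
          exact ⟨h1, h2, y, h3⟩ }
  let J : Submodule (ZMod 2) V :=
    { carrier := {a | a ∈ E ∧ τ a = 0 ∧ ∃ h ∈ E', C D u (a + h)}
      add_mem' := by
        rintro a b ⟨h1, h2, y, h3, h4⟩ ⟨h1', h2', y', h3', h4'⟩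
        exact ⟨E.add_mem h1 h1', ph00 h2 h2', y + y', E'.add_mem h3 h3',
          (h4.add h4').of_eq rfl (by (first | rfl | exact eo (by abel_nf <;> simp only [ch2, ch3, ch4, ch5, ch6, add_zero, zero_add])))⟩
      zero_mem' := ⟨E.zero_mem, map_zero τ, 0, E'.zero_mem, (C.zero u).of_eq rfl (by (first | rfl | exact eo (by abel_nf <;> simp only [ch2, ch3, ch4, ch5, ch6, add_zero, zero_add])))⟩
      smul_mem' := by
        rintro r a ⟨h1, h2, y, h3, h4⟩
        rcases zz r with rfl | rfl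
        · rw [zero_smul]
          exact ⟨E.zero_mem, map_zero τ, 0, E'.zero_mem, (C.zero u).of_eq rfl (by (first | rfl | exact eo (by abel_nf <;> simp only [ch2, ch3, ch4, ch5, ch6, add_zero, zero_add])))⟩
        · rw [one_smul]
          exact ⟨h1, h2, y, h3, h4⟩ }
  have mI : ∀ a, a ∈ I ↔ a ∈ E ∧ τ a = 0 ∧ ∃ y, D.q u y = D.q x a := fun a => Iff.rfl
  have mJ : ∀ a, a ∈ J ↔ a ∈ E ∧ τ a = 0 ∧ ∃ h ∈ E', C D u (a + h) := fun a => Iff.rfl
  have hIJ : ∀ a, a ∈ I → a ∈ J → a = 0 := by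
    intro a h1 h2
    by_contra ha0
    obtain ⟨h3, h4, y, h5⟩ := (mI a).1 h1
    obtain ⟨-, -, h, h6, h7⟩ := (mJ a).1 h2
    exact L6dis S F X hI hx hx1 h3 hh' hu (hnC a h3 ha0 h4) h5 h6 h7
  have clI : (∃ a ∈ I, a ≠ 0) → ∀ a ∈ E, τ a = 0 → a ∈ I := by
    intro h
    apply hcl I (fun a ha => ⟨((mI a).1 ha).1, ((mI a).1 ha).2.1⟩) h
    intro a haI ha0 b hb htb hab
    obtain ⟨h3, h4, y, h5⟩ := (mI a).1 haI
    exact (mI b).2 ⟨hb, htb, L6C S F X hI hx hx1 h3 ha0 h4 hb htb hab hh' hu h5⟩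
  have clJ : (∃ a ∈ J, a ≠ 0) → ∀ a ∈ E, τ a = 0 → a ∈ J := by
    intro h
    apply hcl J (fun a ha => ⟨((mJ a).1 ha).1, ((mJ a).1 ha).2.1⟩) h
    intro a haJ ha0 b hb htb hab
    obtain ⟨h3, h4, h5⟩ := (mJ a).1 haJ
    obtain ⟨y, h6⟩ := (L6D S F X hI hx hx1 h3 hh' hu).1 h5
    have h7 := L6C S F X hI hx hx1 h3 ha0 h4 hb htb hab hh' hux h6
    exact (mJ b).2 ⟨hb, htb, (L6D S F X hI hx hx1 hb hh' hu).2 h7⟩
  have noI : ¬ ∃ a ∈ I, a ≠ 0 := by
    intro h
    have h1 := clI h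
    apply L6PP S F X hI hx hx1 (u := u + x) (ph10 hu1 (F.le x hx))
    · intro a ha hta
      apply (L6D S F X hI hx hx1 ha hh' hux).2
      obtain ⟨-, -, y, hy⟩ := (mI a).1 (h1 a ha hta)
      exact ⟨y, by rw [show u + x + x = u by (first | rfl | exact eo (by abel_nf <;> simp only [ch2, ch3, ch4, ch5, ch6, add_zero, zero_add])), hy]⟩
    · intro a ha hta y hy
      have h2 := (L6D S F X hI hx hx1 ha hh' hu).2 ⟨y, hy⟩
      have h3 := hIJ a (h1 a ha hta) ((mJ a).2 ⟨ha, hta, h2⟩)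
      rw [h3]
      exact C.zero x
  have noJ : ¬ ∃ a ∈ J, a ≠ 0 := by
    intro h
    have h1 := clJ h
    apply L6PP S F X hI hx hx1 (u := u) hu1
    · intro a ha hta
      exact ((mJ a).1 (h1 a ha hta)).2.2
    · intro a ha hta y hy
      have h3 := hIJ a ((mI a).2 ⟨ha, hta, y, hy⟩) (h1 a ha hta)
      rw [h3]
      exact C.zero x
  exact ⟨fun y hy => noI ⟨a, (mI a).2 ⟨ha, hta, y, hy⟩, ha0⟩,
    fun h hh h1 => noJ ⟨a, (mJ a).2 ⟨ha, hta, h, hh, h1⟩, ha0⟩⟩

/-- Section 6 -/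
theorem S6 [Finite V] (S : LHs D φ) (F : Fct D φ E E') (X : Ext D E τ t) (hI : TyI D φ E)
    (hcl : Cl D E τ) (hA : ∃ a ∈ E, a ≠ 0 ∧ τ a = 0) : False := by
  have he := S.he
  obtain ⟨a, ha, ha0, hta⟩ := hA
  obtain ⟨u, y, hu1, hy⟩ := S4out S F X hI X.mem X.one ha ha0 hta
  have hty := hI a ha ha0
  obtain ⟨k, hk0, hk1, hk2⟩ := slotH hty (F.le t X.mem) (D.symm a t) hy
  obtain ⟨e, hee, g0, hg0, rfl⟩ := F.sum k hk0
  rw [F.qE ha hg0] at hk1
  have hab0 : C D a (e + t) := q_eq_iff.1 (hk1.trans (D.symm t a))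
  have htb0 : τ (e + t) = 0 := X.ann ha0 ha hta (E.add_mem hee X.mem) hab0
  have claim : ∀ b ∈ E, τ b = 0 → C D a b → (∃ g ∈ E', D.q u (a + g) = D.q t a) ∨
      ∃ g ∈ E', D.q u (a + (t + b) + g) = D.q t a := by
    intro b hb htb hab
    have hx := E.add_mem X.mem hb
    have hx1 : τ (t + b) = 1 := ph10 X.one htb
    have e2 : D.q (t + b) a = D.q t a := qadd' hab.symm
    obtain ⟨k, h1, h2, h3⟩ := slotH (hI _ hx (Ext.nz hx1)) (F.le a ha) e2 hy
    obtain ⟨e', hee', g, hg, rfl⟩ := F.sum k h1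
    rw [F.qE hx hg] at h2
    rcases X.rig _ hx hx1 _ (E.add_mem hee' ha) (q_eq_iff.1 (h2.trans e2.symm)) with h4 | h4
    · left
      rw [eo h4] at h3
      exact ⟨g, hg, h3⟩
    · right
      refine ⟨g, hg, ?_⟩
      rw [← h3, ← h4]
      congr 1
      (first | rfl | exact eo (by abel_nf <;> simp only [ch2, ch3, ch4, ch5, ch6, add_zero, zero_add]))
  by_cases H : ∃ g ∈ E', D.q u (a + g) = D.q t a
  · obtain ⟨g, hg, h1⟩ := H
    have hxE := E.add_mem hee ha
    have hte : τ e = 1 := by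
      rcases zz (τ e) with h2 | h2
      · rw [map_add, h2, X.one, zero_add] at htb0
        exact absurd htb0.symm n01
      · exact h2
    have hx1 : τ (e + a) = 1 := ph10 hte hta
    have h2 : C D u ((e + a) + (g0 + g)) :=
      (q_eq_iff.1 (hk2.trans h1.symm)).of_eq rfl (by (first | rfl | exact eo (by abel_nf <;> simp only [ch2, ch3, ch4, ch5, ch6, add_zero, zero_add])))
    have h3 := (L6E S F X hI hcl hxE hx1 hu1 (E'.add_mem hg0 hg) h2 ha ha0 hta).1 y
    apply h3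
    rw [hy, qadd' (C.self he a), D.symm e a, hk1]
  · obtain ⟨g1, hg1, h1⟩ := (claim a ha hta (C.self he a)).resolve_left H
    obtain ⟨g2, hg2, h2⟩ := (claim (e + t) (E.add_mem hee X.mem) htb0 hab0).resolve_left H
    rw [show a + (t + a) + g1 = t + g1 by (first | rfl | exact eo (by abel_nf <;> simp only [ch2, ch3, ch4, ch5, ch6, add_zero, zero_add]))] at h1
    rw [show a + (t + (e + t)) + g2 = a + e + g2 by (first | rfl | exact eo (by abel_nf <;> simp only [ch2, ch3, ch4, ch5, ch6, add_zero, zero_add]))] at h2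
    have h3 : C D u (a + (g2 + g0)) := (q_eq_iff.1 (h2.trans hk2.symm)).of_eq rfl (by (first | rfl | exact eo (by abel_nf <;> simp only [ch2, ch3, ch4, ch5, ch6, add_zero, zero_add])))
    have h4 : D.q a (t + g1) = D.q t a := by rw [F.qE ha hg1, D.symm]
    have h5 : C D (u + a) (t + g1) := q_eq'_iff.1 (h1.trans h4.symm)
    have h6 : C D (u + a) (a + (g2 + g0)) :=
      h3.add' ((C.self he a).add (F.orth a ha _ (E'.add_mem hg2 hg0)))
    exact (L6E S F X hI hcl X.mem X.one (ph10 hu1 (F.le a ha)) hg1 h5 ha ha0 hta).2 _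
      (E'.add_mem hg2 hg0) h6

end Pool.Agent.ETCLH
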