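import Pool.Agent.ETCLH.S7
import Pool.Agent.ETCLH.S6
import Pool.Agent.ETCC.Exist

/-!
THEOREM LH (note 2403): closed subgroups (Theorem C).
-/

set_option autoImplicit false
set_option linter.unusedSectionVars false

namespace Pool.Agent.ETCLH

open Pool.Agent.Helper58.PLine (QData)
open Pool.Agent.ETCP Pool.Agent.LSS

variable {V Q : Type} [AddCommGroup V] [Module (ZMod 2) V]
variable {D : QData V Q} {φ : V →ₗ[ZMod 2] ZMod 2}
variable {E E' : Submodule (ZMod 2) V} {τ : V →ₗ[ZMod 2] ZMod 2} {t : V}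

/-- the structure on a linked subspace -/
def str (D : QData V Q) (he : D.e = 0) (A : Submodule (ZMod 2) V)
    (hlk : ∀ a ∈ A, ∀ b ∈ A, ∀ c ∈ A, ∀ d ∈ A, D.q a b = D.q c d →
      ∃ x ∈ A, D.q a b = D.q a x ∧ D.q c d = D.q c x) : QS.QStruct where
  G := Multiplicative A
  Q := {β : Q // ∃ a ∈ A, ∃ b ∈ A, D.q a b = β}
  neg := 1
  zero := ⟨D.z, 0, A.zero_mem, 0, A.zero_mem, D.q_zero 0⟩
  q := fun a b => ⟨D.q (Multiplicative.toAdd a : A) (Multiplicative.toAdd b : A), _,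
    (Multiplicative.toAdd a).2, _, (Multiplicative.toAdd b).2, rfl⟩
  exp_two := fun a => Multiplicative.toAdd.injective (ZModModule.add_self (Multiplicative.toAdd a))
  surj := by
    rintro ⟨β, a, ha, b, hb, h⟩
    exact ⟨Multiplicative.ofAdd ⟨a, ha⟩, Multiplicative.ofAdd ⟨b, hb⟩, Subtype.ext h⟩
  qs1 := by
    intro a
    rw [one_mul]
    exact Subtype.ext (C.self he _)
  qs2 := fun a b => Subtype.ext (D.symm _ _)
  qs3 := by
    intro a b c
    rw [Subtype.mk.injEq, Subtype.mk.injEq]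
    exact D.add _ _ _
  qs4 := by
    intro a b c d h
    obtain ⟨x, hx, h1, h2⟩ := hlk _ (Multiplicative.toAdd a).2 _ (Multiplicative.toAdd b).2 _
      (Multiplicative.toAdd c).2 _ (Multiplicative.toAdd d).2 (congrArg Subtype.val h)
    exact ⟨Multiplicative.ofAdd ⟨x, hx⟩, Subtype.ext h1, Subtype.ext h2⟩

/-- `A` is linked -/
theorem A_lk (S : LHs D φ) (F : Fct D φ E E') (X : Ext D E τ t) :
    ∀ a ∈ E ⊓ LinearMap.ker τ, ∀ b ∈ E ⊓ LinearMap.ker τ, ∀ c ∈ E ⊓ LinearMap.ker τ,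
      ∀ d ∈ E ⊓ LinearMap.ker τ, D.q a b = D.q c d →
      ∃ x ∈ E ⊓ LinearMap.ker τ, D.q a b = D.q a x ∧ D.q c d = D.q c x := by
  rintro a ⟨ha, hta⟩ b ⟨hb, htb⟩ c ⟨hc, htc⟩ d ⟨hd, htd⟩ h
  obtain ⟨y, h0, h1, h2⟩ := S.lk a b c d (F.le a ha) (F.le b hb) (F.le c hc) (F.le d hd) h
  obtain ⟨e, hee, g, hg, rfl⟩ := F.sum y h0
  rw [F.qE ha hg] at h1
  rw [F.qE hc hg] at h2
  have hta' : τ a = 0 := hta
  have htb' : τ b = 0 := htb
  have htc' : τ c = 0 := htc
  have htd' : τ d = 0 := htd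
  by_cases ha0 : a = 0
  · by_cases hc0 : c = 0
    · refine ⟨0, Submodule.zero_mem _, ?_, ?_⟩
      · rw [ha0]
        exact (C.zero' b).trans (Eq.symm (C.zero 0))
      · rw [hc0]
        exact (C.zero' d).trans (Eq.symm (C.zero 0))
    · have h3 : D.q c e = D.q c d := h2.trans h
      have h4 := X.ann hc0 hc htc' (E.add_mem hee hd) (q_eq_iff.1 h3)
      rw [map_add, htd', add_zero] at h4
      exact ⟨e, ⟨hee, h4⟩, h1.symm, h3.symm⟩
  · have h4 := X.ann ha0 ha hta' (E.add_mem hee hb) (q_eq_iff.1 h1)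
    rw [map_add, htb', add_zero] at h4
    exact ⟨e, ⟨hee, h4⟩, h1.symm, (h2.trans h).symm⟩

/-- closed subgroups of `A` -/
theorem Cl_of [Finite V] (S : LHs D φ) (F : Fct D φ E E') (X : Ext D E τ t)
    (hno : ∀ s, Rgd D E s → τ s ≠ 0) : Cl D E τ := by
  intro I hIA hI0 hIcl
  by_contra hcon
  push Not at hcon
  obtain ⟨a0, ha0, hta0, ha0I⟩ := hcon
  let A := E ⊓ LinearMap.ker τ
  have mA : ∀ a, a ∈ A ↔ a ∈ E ∧ τ a = 0 := fun a => Iff.rfl
  let T := str D S.he A (A_lk S F X)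
  have hfin : Finite T.G := (inferInstance : Finite A)
  let H : Subgroup T.G :=
    { carrier := {a | ((Multiplicative.toAdd a : A) : V) ∈ I}
      mul_mem' := by
        intro a b ha hb
        exact I.add_mem ha hb
      one_mem' := I.zero_mem
      inv_mem' := by
        intro a ha
        exact I.neg_mem ha }
  have mH : ∀ a : T.G, a ∈ H ↔ ((Multiplicative.toAdd a : A) : V) ∈ I := fun a => Iff.rfl
  have hz : ∀ a b : T.G, T.q a b = T.zero ↔
      C D ((Multiplicative.toAdd a : A) : V) ((Multiplicative.toAdd b : A) : V) := by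
    intro a b
    exact Subtype.ext_iff
  have h1 : ∀ a : T.G, a = 1 ↔ ((Multiplicative.toAdd a : A) : V) = 0 := by
    intro a
    constructor
    · rintro rfl
      rfl
    · intro h
      exact Multiplicative.toAdd.injective (Subtype.ext h)
  obtain ⟨i0, hi0, hi00⟩ := hI0
  obtain ⟨z, hz1, hz2, hz3, -⟩ := ETCC.exists_bir (S := T) (H := H) (by
      intro h
      apply ha0I
      have : (Multiplicative.ofAdd (⟨a0, ha0, hta0⟩ : A) : T.G) ∈ H := by rw [h]; trivial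
      exact this) (by
      intro x hx hx1 w hw
      rw [hz] at hw
      rw [mH] at hx ⊢
      exact hIcl _ hx (fun h => hx1 ((h1 x).2 h)) _ ((mA _).1 (Multiplicative.toAdd w).2).1
        ((mA _).1 (Multiplicative.toAdd w).2).2 hw) (by
      obtain ⟨h2, h3⟩ := hIA i0 hi0
      let p : T.G := Multiplicative.ofAdd (⟨i0, h2, h3⟩ : A)
      have hp : p ≠ 1 := fun h => hi00 ((h1 p).1 h)
      exact ⟨p, hi0, hp, p, hp, (hz p p).2 (C.self S.he _)⟩)
  obtain ⟨hzE, hzτ⟩ := (mA _).1 (Multiplicative.toAdd z).2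
  have hz0 : ((Multiplicative.toAdd z : A) : V) ≠ 0 := fun h => hz1 ((h1 z).2 h)
  apply hno ((Multiplicative.toAdd z : A) : V) ?_ hzτ
  refine ⟨hzE, hz0, fun v hv hc => ?_⟩
  have hτv := X.ann hz0 hzE hzτ hv hc
  rcases hz3 (Multiplicative.ofAdd (⟨v, hv, hτv⟩ : A)) ((hz _ _).2 hc) with h | h
  · left
    exact (h1 _).1 h
  · right
    rw [show T.neg = 1 from rfl, one_mul] at h
    exact congrArg (fun a : T.G => ((Multiplicative.toAdd a : A) : V)) h

end Pool.Agent.ETCLH
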