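import Pool.Agent.ETCLH.FAC

/-!
THEOREM LH (note 2403), section 2: a factor with a rigid element contains a nonzero element which
commutes only with elements of the hyperplane.
-/

set_option autoImplicit false
set_option linter.unusedSectionVars false

namespace Pool.Agent.ETCLH

open Module
open Pool.Agent.Helper58.PLine (QData)
open Pool.Agent.ETCP Pool.Agent.LSS Pool.Agent.RDC

variable {V Q : Type} [AddCommGroup V] [Module (ZMod 2) V]
variable {D : QData V Q} {φ : V →ₗ[ZMod 2] ZMod 2}

/-- Section 2 -/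
theorem S2 (S : LHs D φ) {E E' : Submodule (ZMod 2) V} (F : Fct D φ E E')
    {τ : V →ₗ[ZMod 2] ZMod 2} {t : V} (X : Ext D E τ t)
    (hU : ∀ e ∈ E, e ≠ 0 → ∃ v, C D e v ∧ φ v = 1) : False := by
  have he := S.he
  have ht0 := X.ne
  obtain ⟨v, hv, hv1⟩ := hU t X.mem ht0
  have key1 : ∀ a ∈ E, τ a = 0 → C D v a ∨ C D (v + t) a := by
    intro a ha hta
    by_cases ha0 : a = 0
    · subst ha0
      exact Or.inl (C.zero v)
    have hxE : a + t ∈ E := E.add_mem ha X.mem
    have hx1 : τ (a + t) = 1 := ph01 hta X.one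
    have hx0 : a + t ≠ 0 := by
      intro h
      rw [h, map_zero] at hx1
      exact n01 hx1
    obtain ⟨u, hu, hu1⟩ := hU _ hxE hx0
    obtain ⟨w, hw, hw1⟩ := hU a ha ha0
    have e1 : D.q a (v + w) = D.q (a + t) (v + u) := by
      rw [qadd hw, qadd hu, qadd' hv]
    rcases X.common S F ha hxE (by
      rw [show a + t + a = t by (first | rfl | exact eo (by abel_nf <;> simp only [ch2, ch3, ch4, ch5, ch6, add_zero, zero_add]))]
      exact X.one) (ph11 hv1 hw1) (ph11 hv1 hu1) e1 with h | h
    · left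
      rw [C, qadd hw] at h
      exact C.symm h
    · right
      rw [qadd hw, D.symm a (a + t), qaddl' (C.self he a), D.symm t a] at h
      exact (q_eq_iff.1 h).symm
  have key2 : (∀ a ∈ E, τ a = 0 → C D v a) ∨ (∀ a ∈ E, τ a = 0 → C D (v + t) a) := by
    by_contra hcon
    push Not at hcon
    obtain ⟨⟨a0, h1, h2, h3⟩, a1, h4, h5, h6⟩ := hcon
    have h7 := (key1 a0 h1 h2).resolve_left h3
    have h8 := (key1 a1 h4 h5).resolve_right h6
    rcases key1 (a0 + a1) (E.add_mem h1 h4) (ph00 h2 h5) with h | h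
    · exact h3 ((h.add h8).of_eq rfl (by (first | rfl | exact eo (by abel_nf <;> simp only [ch2, ch3, ch4, ch5, ch6, add_zero, zero_add]))))
    · exact h6 ((h.add h7).of_eq rfl (by (first | rfl | exact eo (by abel_nf <;> simp only [ch2, ch3, ch4, ch5, ch6, add_zero, zero_add]))))
  obtain ⟨v', hv'1, hv'E⟩ : ∃ v', φ v' = 1 ∧ ∀ e ∈ E, C D v' e := by
    rcases key2 with h | h
    · refine ⟨v, hv1, fun e hee => ?_⟩
      rcases zz (τ e) with h1 | h1
      · exact h e hee h1
      · have := h (e + t) (E.add_mem hee X.mem) (ph11 h1 X.one)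
        exact (this.add hv.symm).of_eq rfl (by (first | rfl | exact eo (by abel_nf <;> simp only [ch2, ch3, ch4, ch5, ch6, add_zero, zero_add])))
    · have hvt : C D (v + t) t := hv.symm.add' (C.self he t)
      refine ⟨v + t, ph10 hv1 (F.le t X.mem), fun e hee => ?_⟩
      rcases zz (τ e) with h1 | h1
      · exact h e hee h1
      · have := h (e + t) (E.add_mem hee X.mem) (ph11 h1 X.one)
        exact (this.add hvt).of_eq rfl (by (first | rfl | exact eo (by abel_nf <;> simp only [ch2, ch3, ch4, ch5, ch6, add_zero, zero_add])))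
  have hv'0 : v' ≠ 0 := by
    rintro rfl
    rw [map_zero] at hv'1
    exact n01 hv'1
  let E2 := E' ⊔ Submodule.span (ZMod 2) {v'}
  have mE : ∀ w ∈ E', w ∈ E2 := fun w hw => Submodule.mem_sup_left hw
  have mv : v' ∈ E2 := Submodule.mem_sup_right (Submodule.mem_span_singleton_self _)
  have m2 : ∀ w ∈ E2, w ∈ E' ∨ w + v' ∈ E' := fun w hw => mem_sup_span hw
  have orth2 : ∀ a ∈ E, ∀ a' ∈ E2, C D a a' := by
    intro a ha a' ha'
    rcases m2 a' ha' with h | h
    · exact F.orth a ha a' h
    · exact ((F.orth a ha _ h).add (hv'E a ha).symm).of_eq rfl (by (first | rfl | exact eo (by abel_nf <;> simp only [ch2, ch3, ch4, ch5, ch6, add_zero, zero_add])))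
  have sum2 : ∀ v, ∃ a ∈ E, ∃ a' ∈ E2, v = a + a' := by
    intro w
    rcases zz (φ w) with h | h
    · obtain ⟨e, hee, h1, hh1, h2⟩ := F.sum w h
      exact ⟨e, hee, h1, mE _ hh1, h2⟩
    · obtain ⟨e, hee, h1, hh1, h2⟩ := F.sum (w + v') (ph11 h hv'1)
      refine ⟨e, hee, h1 + v', E2.add_mem (mE _ hh1) mv, ?_⟩
      rw [← add_assoc, ← h2]; (first | rfl | exact eo (by abel_nf <;> simp only [ch2, ch3, ch4, ch5, ch6, add_zero, zero_add]))
  -- rank
  have rk : ∀ m ∈ E, ∀ c, (∀ x ∈ E, C D m x ∨ D.q m x = c) → m = 0 := by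
    intro m hm c h
    apply S.r1
    have h' : ∀ w, C D m w ∨ D.q m w = c := by
      intro w
      obtain ⟨a, ha, a', ha', rfl⟩ := sum2 w
      have := h a ha
      rw [C, qadd (orth2 m hm a' ha')]
      exact this
    intro w w'
    rcases h' w with h1 | h1
    · exact Or.inl h1
    · rcases h' w' with h2 | h2
      · exact Or.inr (Or.inl h2)
      · exact Or.inr (Or.inr (q_eq_iff.1 (h1.trans h2.symm)))
  have core : ∀ e ∈ E, ∀ e1 ∈ E, ∀ h ∈ E', ∀ w1 ∈ E2, w1 + v' ∈ E' →
      D.q e e1 = D.q h w1 → C D e e1 := by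
    -- the first link
    have kA : ∀ e ∈ E, ∀ e1 ∈ E, ∀ h ∈ E', ∀ w1 ∈ E2, w1 + v' ∈ E' →
        D.q e e1 = D.q h w1 → ∀ x ∈ E, ∃ y ∈ E, D.q e y = D.q e e1 ∧
          (C D x y ∨ D.q x y = D.q e e1) := by
      intro e hee e1 he1 h hh w1 hw1 hw1' hq x hx
      have e2 : D.q e e1 = D.q (x + h) w1 := by rw [hq, qaddl' (orth2 x hx w1 hw1)]
      obtain ⟨y, h1, h2⟩ := D.link _ _ _ _ e2
      obtain ⟨yE, hyE, y2, hy2, rfl⟩ := sum2 y
      have h3 : D.q e yE = D.q e e1 := by rw [h1, qadd (orth2 e hee y2 hy2)]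
      refine ⟨yE, hyE, h3, ?_⟩
      have h4 : C D (e + (x + h)) (yE + y2) := q_eq'_iff.1 (by rw [← h1, ← h2, e2])
      have h5 : C D ((x + e) + h) (yE + y2) := h4.of_eq (by (first | rfl | exact eo (by abel_nf <;> simp only [ch2, ch3, ch4, ch5, ch6, add_zero, zero_add]))) rfl
      have h6 : D.q (x + e) yE = D.q h y2 := by
        have k1 := q_eq h5
        rw [qadd' (F.orth yE hyE h hh).symm,
          qaddl' (orth2 (x + e) (E.add_mem hx hee) y2 hy2)] at k1
        exact k1
      rcases m2 y2 hy2 with h7 | h7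
      · right
        have h8 := F.ind _ (E.add_mem hx hee) yE hyE h hh y2 h7 h6
        rw [← h3]
        exact q_eq'_iff.2 h8
      · left
        have k1 : D.q yE (x + e) = D.q h y2 := by rw [D.symm, h6]
        have k2 : D.q yE e = D.q h w1 := by rw [D.symm, h3, hq]
        have k3 := qsum k1 k2
        rw [show x + e + e = x by (first | rfl | exact eo (by abel_nf <;> simp only [ch2, ch3, ch4, ch5, ch6, add_zero, zero_add]))] at k3
        have k4 : y2 + w1 ∈ E' := by
          have := E'.add_mem h7 hw1'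
          rwa [show y2 + v' + (w1 + v') = y2 + w1 by (first | rfl | exact eo (by abel_nf <;> simp only [ch2, ch3, ch4, ch5, ch6, add_zero, zero_add]))] at this
        exact (F.ind yE hyE x hx h hh _ k4 k3).symm
    -- one of the two slots is rigid
    have kB : ∀ e ∈ E, ∀ e1 ∈ E, ∀ h ∈ E', ∀ w1 ∈ E2, w1 + v' ∈ E' →
        D.q e e1 = D.q h w1 → τ e = 1 → C D e e1 := by
      intro e hee e1 he1 h hh w1 hw1 hw1' hq hte
      by_contra hn
      obtain ⟨a, ha, hta, hqa⟩ : ∃ a ∈ E, τ a = 0 ∧ D.q e a = D.q e e1 := by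
        rcases zz (τ e1) with h1 | h1
        · exact ⟨e1, he1, h1, rfl⟩
        · exact ⟨e1 + e, E.add_mem he1 hee, ph11 h1 hte, qadd (C.self he e)⟩
      have h1 : ∀ x ∈ E, x ∈ Dx D (D.q e e1) a ∨ x ∈ Dx D (D.q e e1) (a + e) := by
        intro x hx
        obtain ⟨y, hy, h2, h3⟩ := kA e hee e1 he1 h hh w1 hw1 hw1' hq x hx
        have h4 : C D e (y + a) := q_eq_iff.1 (h2.trans hqa.symm)
        rcases X.rig e hee hte _ (E.add_mem hy ha) h4 with h5 | h5
        · left
          have : y = a := by
            have : y = (y + a) + a := by (first | rfl | exact eo (by abel_nf <;> simp only [ch2, ch3, ch4, ch5, ch6, add_zero, zero_add]))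
            rw [this, h5, zero_add]
          rw [this] at h3
          exact Dx_symm h3
        · right
          have : y = a + e := by rw [← h5]; (first | rfl | exact eo (by abel_nf <;> simp only [ch2, ch3, ch4, ch5, ch6, add_zero, zero_add]))
          rw [this] at h3
          exact Dx_symm h3
      have h2 : (∀ x ∈ E, x ∈ Dx D (D.q e e1) a) ∨ (∀ x ∈ E, x ∈ Dx D (D.q e e1) (a + e)) := by
        by_contra hcon
        push Not at hcon
        obtain ⟨⟨x1, hx1, h3⟩, x2, hx2, h4⟩ := hcon
        have h5 := (h1 x1 hx1).resolve_left h3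
        have h6 := (h1 x2 hx2).resolve_right h4
        rcases h1 _ (E.add_mem hx1 hx2) with h7 | h7
        · apply h3
          have := add_mem h7 h6
          rwa [show x1 + x2 + x2 = x1 by (first | rfl | exact eo (by abel_nf <;> simp only [ch2, ch3, ch4, ch5, ch6, add_zero, zero_add]))] at this
        · apply h4
          have := add_mem h7 h5
          rwa [show x1 + x2 + x1 = x2 by (first | rfl | exact eo (by abel_nf <;> simp only [ch2, ch3, ch4, ch5, ch6, add_zero, zero_add]))] at this
      rcases h2 with h3 | h3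
      · have h4 := rk a ha _ h3
        subst h4
        exact hn (hqa.symm.trans (C.zero e))
      · have h4 := rk (a + e) (E.add_mem ha hee) _ h3
        have h5 : τ (a + e) = 1 := ph01 hta hte
        rw [h4, map_zero] at h5
        exact n01 h5
    intro e hee e1 he1 h hh w1 hw1 hw1' hq
    rcases zz (τ e) with h1 | h1
    · rcases zz (τ e1) with h2 | h2
      · by_contra hn
        have he0 : e ≠ 0 := by
          rintro rfl
          exact hn (C.zero' _)
        obtain ⟨y, hy, h3, h4⟩ := kA e hee e1 he1 h hh w1 hw1 hw1' hq (e + t)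
          (E.add_mem hee X.mem)
        have hty : τ y = 0 := by
          have := X.ann he0 hee h1 (E.add_mem hy he1) (q_eq_iff.1 h3)
          rwa [map_add, h2, add_zero] at this
        have hy0 : y ≠ 0 := by
          rintro rfl
          exact hn (h3.symm.trans (C.zero e))
        rcases h4 with h4 | h4
        · rcases X.rig (e + t) (E.add_mem hee X.mem) (ph01 h1 X.one) y hy h4 with h5 | h5
          · exact hy0 h5
          · rw [h5, ph01 h1 X.one] at hty
            exact n01 hty.symm
        · have h5 : C D (e + t + e) y := q_eq'_iff.1 (h4.trans h3.symm)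
          have h6 : C D t y := h5.of_eq (by (first | rfl | exact eo (by abel_nf <;> simp only [ch2, ch3, ch4, ch5, ch6, add_zero, zero_add]))) rfl
          rcases X.rig t X.mem X.one y hy h6 with h7 | h7
          · exact hy0 h7
          · rw [h7, X.one] at hty
            exact n01 hty.symm
      · exact (kB e1 he1 e hee h hh w1 hw1 hw1' (by rw [D.symm, hq]) h2).symm
    · exact kB e hee e1 he1 h hh w1 hw1 hw1' hq h1
  apply S.nd E E2
  · intro w hw hw'
    rcases m2 w hw' with h | h
    · exact F.dis w hw h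
    · have h1 := F.le' _ h
      rw [map_add, F.le w hw, hv'1, zero_add] at h1
      exact absurd h1.symm n01
  · exact sum2
  · exact ⟨t, X.mem, ht0⟩
  · exact ⟨v', mv, hv'0⟩
  · exact orth2
  · intro a ha b hb a' ha' b' hb' hq
    rcases m2 a' ha' with h1 | h1
    · rcases m2 b' hb' with h2 | h2
      · exact F.ind a ha b hb a' h1 b' h2 hq
      · exact core a ha b hb a' h1 b' hb' h2 hq
    · rcases m2 b' hb' with h2 | h2
      · exact (core b hb a ha b' h2 a' ha' h1 (by rw [D.symm b a, hq, D.symm])).symm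
      · have h3 : a' + b' ∈ E' := by
          have := E'.add_mem h1 h2
          rwa [show a' + v' + (b' + v') = a' + b' by (first | rfl | exact eo (by abel_nf <;> simp only [ch2, ch3, ch4, ch5, ch6, add_zero, zero_add]))] at this
        exact core a ha b hb _ h3 b' hb' h2 (by rw [hq, qadd' (C.self he b')])

end Pool.Agent.ETCLH
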