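import Pool.Agent.ETCLH.S4

/-!
THEOREM LH (note 2403), section 5: case (II) is impossible.
-/

set_option autoImplicit false
set_option linter.unusedSectionVars false

namespace Pool.Agent.ETCLH

open Module
open Pool.Agent.Helper58.PLine (QData)
open Pool.Agent.ETCP Pool.Agent.LSS Pool.Agent.RDC

variable {V Q : Type} [AddCommGroup V] [Module (ZMod 2) V]
variable {D : QData V Q} {φ : V →ₗ[ZMod 2] ZMod 2}
variable {E E' : Submodule (ZMod 2) V} {τ : V →ₗ[ZMod 2] ZMod 2} {t : V}

/-- (a) -/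
theorem S5a [Finite V] (S : LHs D φ) (F : Fct D φ E E') (X : Ext D E τ t) {x : V}
    (hx : x ∈ E) (hx1 : τ x = 1) {a : V} (ha : a ∈ E) (ha0 : a ≠ 0)
    (hta : τ a = 0) (hY : Yy D φ a) (hc : ∃ s, SlQ D (D.q x a) s) :
    Module.finrank (ZMod 2) (DcQ D (D.q x a) hc) ≤
      Module.finrank (ZMod 2) (D.ann a ⊓ E : Submodule (ZMod 2) V) +
      Module.finrank (ZMod 2) E' + 2 := by
  have he := S.he
  have hc' : ∃ s, SlQ D (D.q a x) s := ⟨a, x, rfl⟩
  rw [Dc_congr (D.symm x a) hc hc']
  have h1 : DcQ D (D.q a x) hc' ⊓ LinearMap.ker φ ≤ D.ann a ⊔ Submodule.span (ZMod 2) {x} := by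
    rintro v ⟨hv, hv0⟩
    obtain ⟨w, w', h1, h2, h3⟩ := (mem_Dc he).1 hv
    obtain ⟨ew, hew, hw, hhw, rfl⟩ := F.sum w (hY w h1)
    obtain ⟨ew', hew', hw', hhw', rfl⟩ := F.sum w' (hY w' h2)
    obtain ⟨ev, hev, hv', hhv, rfl⟩ := F.sum v hv0
    have h1' : C D a ew := by rwa [C, F.qE ha hhw] at h1
    have h2' : C D a ew' := by rwa [C, F.qE ha hhw'] at h2
    have h4 : C D ((x + ew) + hw) ((ev + ew') + (hv' + hw')) := h3.of_eq (by (first | rfl | exact eo (by abel_nf <;> simp only [ch2, ch3, ch4, ch5, ch6, add_zero, zero_add]))) (by (first | rfl | exact eo (by abel_nf <;> simp only [ch2, ch3, ch4, ch5, ch6, add_zero, zero_add])))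
    have h5 := (F.cc (E.add_mem hx hew) (E.add_mem hev hew') hhw (E'.add_mem hhv hhw') h4).1
    have hxs : x ∈ Submodule.span (ZMod 2) {x} := Submodule.mem_span_singleton_self x
    have hahv : C D a hv' := F.orth a ha hv' hhv
    have hxw : τ (x + ew) = 1 := ph10 hx1 (X.ann ha0 ha hta hew h1')
    rcases X.rig _ (E.add_mem hx hew) hxw _ (E.add_mem hev hew') h5 with h6 | h6
    · have h7 : ev = ew' := by
        have : ev = (ev + ew') + ew' := by (first | rfl | exact eo (by abel_nf <;> simp only [ch2, ch3, ch4, ch5, ch6, add_zero, zero_add]))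
        rw [this, h6, zero_add]
      rw [h7]
      exact Submodule.mem_sup_left (h2'.add hahv)
    · have h7 : ev + hv' = (ew + ew' + hv') + x := by
        have : ev = (ev + ew') + ew' := by (first | rfl | exact eo (by abel_nf <;> simp only [ch2, ch3, ch4, ch5, ch6, add_zero, zero_add]))
        rw [this, h6]; (first | rfl | exact eo (by abel_nf <;> simp only [ch2, ch3, ch4, ch5, ch6, add_zero, zero_add]))
      rw [h7]
      exact Submodule.add_mem_sup ((h1'.add h2').add hahv) hxs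
  have h2 := Submodule.finrank_mono h1
  have h3 := finrank_sup_span_le (D.ann a) x
  have h4 := finrank_le_ker φ (DcQ D (D.q a x) hc')
  have h5 := F.finE ha
  rw [ub_pos hY] at h5
  omega

/-- Section 5 -/
theorem S5 [Finite V] (S : LHs D φ) (F : Fct D φ E E') (X : Ext D E τ t)
    (hII : ∀ x ∈ E, τ x = 1 → ¬ Yy D φ x) (hm : ∃ m ∈ E, m ≠ 0 ∧ Yy D φ m)
    (hh : ∃ h ∈ E', Yy D φ h) : False := by
  have he := S.he
  obtain ⟨m, hm, hm0, hmY⟩ := hm
  obtain ⟨h, hh, hhY⟩ := hh
  have hmt : τ m = 0 := by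
    rcases zz (τ m) with h1 | h1
    · exact h1
    · exact absurd hmY (hII m hm h1)
  have hsum0 : ∀ {b : V}, τ (b + b) = 0 := by
    intro b
    rw [ZModModule.add_self, map_zero]
  -- (b)
  have kb : ∀ x ∈ E, τ x = 1 → ∀ g ∈ E', ¬ Yy D φ (x + g) := by
    intro x hx hx1 g hg
    have hx' := E.add_mem hx hm
    have hx1' : τ (x + m) = 1 := ph10 hx1 hmt
    have h1 : D.q (x + m) (m + g) = D.q (x + m) m := F.qE hx' hg
    have h2 : ¬ C D (x + m) (m + g) := by
      intro h3
      exact X.nC hx' hx1' hm hm0 hmt (h1.symm.trans h3)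
    have k1 := S.K3 h2 ⟨x + m, m + g, rfl⟩
    rw [Dc_congr h1 _ ⟨x + m, m, rfl⟩] at k1
    have k2 := S5a S F X hx' hx1' hm hm0 hmt hmY ⟨x + m, m, rfl⟩
    have m1 := F.finE hx'
    rw [X.fin_one he hx' hx1', ub_neg (hII _ hx' hx1')] at m1
    have m2 := F.finrank hm hg
    have m3 := F.finrank hx hg
    rw [X.fin_one he hx hx1] at m3
    rw [show x + m + (m + g) = x + g by (first | rfl | exact eo (by abel_nf <;> simp only [ch2, ch3, ch4, ch5, ch6, add_zero, zero_add]))] at k1
    have b2 := ub_le (D := D) (φ := φ) (x + g)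
    apply ub_one.1
    omega
  -- `u` and `b`
  obtain ⟨u, hu, hu1⟩ := notY (kb t X.mem X.one h hh)
  obtain ⟨v, hv, hv1⟩ := notY (hII t X.mem X.one)
  have hq : D.q t u = D.q h u := q_eq'_iff.2 hu
  have hnh : ¬ C D h u := by
    intro h1
    have := hhY u h1
    rw [hu1] at this
    exact n01 this.symm
  have hnt : ¬ C D t u := fun h1 => hnh (hq.symm.trans h1)
  obtain ⟨b, hb, hbt, hqb⟩ : ∃ b ∈ E, τ b = 0 ∧ D.q t b = D.q t u := by
    obtain ⟨e, hee, g, hg, h1⟩ := F.sum (u + v) (ph11 hu1 hv1)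
    have h2 : D.q t e = D.q t u := by
      rw [← F.qE X.mem hg, ← h1, qadd hv]
    rcases zz (τ e) with h3 | h3
    · exact ⟨e, hee, h3, h2⟩
    · exact ⟨e + t, E.add_mem hee X.mem, ph11 h3 X.one, by rw [qadd (C.self he t), h2]⟩
  have hnb : ¬ C D t b := fun h1 => hnt (hqb.symm.trans h1)
  have hb0 : b ≠ 0 := by
    rintro rfl
    exact hnb (C.zero t)
  -- `D(c) = V`
  have hcb : ∃ s, SlQ D (D.q t b) s := ⟨t, b, rfl⟩
  have hst : SlQ D (D.q t b) t := ⟨b, rfl⟩
  have hsh : SlQ D (D.q t b) h := ⟨u, by rw [hqb, hq]⟩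
  have hall0 : ∀ w, φ w = 0 → w ∈ DcQ D (D.q t b) hcb := by
    intro w hw
    obtain ⟨e, hee, g, hg, rfl⟩ := F.sum w hw
    exact add_mem (DcQ_ann hsh (F.orth e hee h hh).symm) (DcQ_ann hst (F.orth t X.mem g hg))
  have hall : ∀ w, w ∈ DcQ D (D.q t b) hcb := by
    intro w
    rcases zz (φ w) with h1 | h1
    · exact hall0 w h1
    · have h2 := add_mem (hall0 (w + v) (ph11 h1 hv1)) (DcQ_ann (hc := hcb) hst hv)
      rwa [show w + v + v = w by (first | rfl | exact eo (by abel_nf <;> simp only [ch2, ch3, ch4, ch5, ch6, add_zero, zero_add]))] at h2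
  -- `b` commutes with all `a` of type `Y`
  have kc : ∀ a ∈ E, τ a = 0 → Yy D φ a → C D a b := by
    intro a ha hta haY
    by_cases ha0 : a = 0
    · rw [ha0]
      exact C.zero' b
    have h1 : Nb D t b a := (mem_Dc he).1 (hall a)
    have hca : ∃ s, SlQ D (D.q t a) s := ⟨t, a, rfl⟩
    have h2 : b ∈ DcQ D (D.q t a) hca := (mem_Dc he).2 h1.symm
    have h3 : D.ann t ⊔ (D.ann a ⊓ E) ≤ DcQ D (D.q t a) hca := by
      rw [sup_le_iff]
      exact ⟨fun w hw => DcQ_ann ⟨a, rfl⟩ hw, fun w hw => DcQ_ann ⟨t, D.symm a t⟩ hw.1⟩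
    have h4 : D.ann t ⊓ (D.ann a ⊓ E) = ⊥ := by
      rw [Submodule.eq_bot_iff]
      rintro w ⟨h5, h6, h7⟩
      rcases X.rig t X.mem X.one w h7 h5 with h8 | h8
      · exact h8
      · exfalso
        rw [h8] at h6
        exact X.nC X.mem X.one ha ha0 hta (C.symm h6)
    have h5 := Submodule.finrank_sup_add_finrank_inf_eq (D.ann t) (D.ann a ⊓ E)
    rw [h4, finrank_bot] at h5
    have h6 := S5a S F X X.mem X.one ha ha0 hta haY hca
    have m1 := F.finE X.mem
    rw [X.fin_one he X.mem X.one, ub_neg (hII t X.mem X.one)] at m1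
    have h7 := Submodule.eq_of_le_of_finrank_le h3 (by omega)
    rw [← h7] at h2
    obtain ⟨w, hw, α, ⟨hα, hαE⟩, hwα⟩ := Submodule.mem_sup.1 h2
    have hw' : C D t w := hw
    have hα' : C D a α := hα
    have h8 : w = b + α := by rw [← hwα]; (first | rfl | exact eo (by abel_nf <;> simp only [ch2, ch3, ch4, ch5, ch6, add_zero, zero_add]))
    have hwE : w ∈ E := by rw [h8]; exact E.add_mem hb hαE
    have hτα : τ α = 0 := X.ann ha0 ha hta hαE hα'
    have hτw : τ w = 0 := by rw [h8]; exact ph00 hbt hτα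
    rcases X.rig t X.mem X.one w hwE hw' with h9 | h9
    · rw [← hwα, h9, zero_add]
      exact hα'
    · rw [h9, X.one] at hτw
      exact absurd hτw.symm n01
  have hbY : ¬ Yy D φ b := by
    intro h1
    apply F.nslot h1 hb X.mem (fun h2 => hnb h2.symm) hh u
    rw [← hq, ← hqb, D.symm]
  obtain ⟨a', ha', hta', hna'⟩ : ∃ a' ∈ E, τ a' = 0 ∧ ¬ C D b a' := by
    by_contra hcon
    push Not at hcon
    exact hbY (S3 S F X hb hb0 hbt hcon)
  -- the span of the elements of type `Y`
  let M := Submodule.span (ZMod 2) {a | a ∈ E ∧ τ a = 0 ∧ Yy D φ a}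
  have hMb : ∀ a ∈ M, C D b a := by
    intro a ha
    have : M ≤ D.ann b := by
      rw [Submodule.span_le]
      rintro w ⟨h1, h2, h3⟩
      exact (kc w h1 h2 h3).symm
    exact this ha
  have hmM : m ∈ M := Submodule.subset_span ⟨hm, hmt, hmY⟩
  -- (c)
  obtain ⟨θ, hθE, hθt, hθ⟩ : ∃ θ ∈ E, τ θ = 0 ∧ D.q (t + m) θ = D.q (t + m) v := by
    have hx := E.add_mem X.mem hm
    have hx1 : τ (t + m) = 1 := ph10 X.one hmt
    obtain ⟨w, hw, hw1⟩ := notY (hII _ hx hx1)
    obtain ⟨e, hee, g, hg, h1⟩ := F.sum (v + w) (ph11 hv1 hw1)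
    have h2 : D.q (t + m) e = D.q (t + m) v := by
      rw [← F.qE hx hg, ← h1, qadd hw]
    rcases zz (τ e) with h3 | h3
    · exact ⟨e, hee, h3, h2⟩
    · exact ⟨e + (t + m), E.add_mem hee hx, ph11 h3 hx1, by rw [qadd (C.self he _), h2]⟩
  have hmv : D.q (t + m) v = D.q m v := qaddl' hv
  have hnmv : ¬ C D m v := by
    intro h1
    have := hmY v h1
    rw [hv1] at this
    exact n01 this.symm
  have hθ0 : θ ≠ 0 := by
    rintro rfl
    exact hnmv ((hmv.symm.trans hθ.symm).trans (C.zero _))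
  have hθm : θ ≠ m := by
    rintro rfl
    have h1 : D.q θ v = D.q θ t := by
      rw [← hmv, ← hθ, qadd' (C.self he θ), D.symm]
    have h2 := hmY _ (q_eq_iff.1 h1)
    rw [ph10 hv1 (F.le t X.mem)] at h2
    exact n01 h2.symm
  have kd : ∀ a ∈ E, τ a = 0 → ¬ Yy D φ a → D.q v a = D.q t 0 ∨ D.q v a = D.q t a := by
    intro a ha hta hnY
    have hxE : a + t ∈ E := E.add_mem ha X.mem
    have hx1 : τ (a + t) = 1 := ph01 hta X.one
    obtain ⟨w1, hw1, hw11⟩ := notY (hII _ hxE hx1)
    obtain ⟨w, hw, hw1'⟩ := notY hnY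
    have e1 : D.q a (v + w) = D.q (a + t) (v + w1) := by
      rw [qadd hw, qadd hw1, qadd' hv]
    rcases X.common S F ha hxE (by
      rw [show a + t + a = t by (first | rfl | exact eo (by abel_nf <;> simp only [ch2, ch3, ch4, ch5, ch6, add_zero, zero_add]))]
      exact X.one) (ph11 hv1 hw1') (ph11 hv1 hw11) e1 with h1 | h1
    · left
      rw [C, qadd hw] at h1
      rw [D.symm v a, h1]
      exact Eq.symm (C.zero t)
    · right
      rw [qadd hw, D.symm a (a + t), qaddl' (C.self he a)] at h1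
      rw [D.symm v a, h1]
  have ke : ∀ a ∈ E, τ a = 0 → a ∉ M → a = θ ∨ a = θ + m := by
    intro a ha hta haM
    have h1 : ¬ Yy D φ a := fun h1 => haM (Submodule.subset_span ⟨ha, hta, h1⟩)
    have ham := E.add_mem ha hm
    have htam : τ (a + m) = 0 := ph00 hta hmt
    have h2 : ¬ Yy D φ (a + m) := by
      intro h2
      apply haM
      have h3 := M.add_mem (Submodule.subset_span ⟨ham, htam, h2⟩) hmM
      rwa [show a + m + m = a by (first | rfl | exact eo (by abel_nf <;> simp only [ch2, ch3, ch4, ch5, ch6, add_zero, zero_add]))] at h3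
    obtain ⟨α1, hα1, hq1⟩ : ∃ α1, (α1 = 0 ∨ α1 = a) ∧ D.q v a = D.q t α1 := by
      rcases kd a ha hta h1 with h3 | h3
      · exact ⟨0, Or.inl rfl, h3⟩
      · exact ⟨a, Or.inr rfl, h3⟩
    obtain ⟨α2, hα2, hq2⟩ : ∃ α2, (α2 = 0 ∨ α2 = a + m) ∧ D.q v (a + m) = D.q t α2 := by
      rcases kd _ ham htam h2 with h3 | h3
      · exact ⟨0, Or.inl rfl, h3⟩
      · exact ⟨a + m, Or.inr rfl, h3⟩
    have h3 := qsum hq1 hq2
    rw [show a + (a + m) = m by (first | rfl | exact eo (by abel_nf <;> simp only [ch2, ch3, ch4, ch5, ch6, add_zero, zero_add]))] at h3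
    have hαE : α1 + α2 ∈ E := by
      apply E.add_mem
      · rcases hα1 with rfl | rfl
        · exact E.zero_mem
        · exact ha
      · rcases hα2 with rfl | rfl
        · exact E.zero_mem
        · exact ham
    have hατ : τ (α1 + α2) = 0 := by
      apply ph00
      · rcases hα1 with rfl | rfl
        · exact map_zero τ
        · exact hta
      · rcases hα2 with rfl | rfl
        · exact map_zero τ
        · exact htam
    have h4 : D.q (t + m) θ = D.q t (α1 + α2) := by
      rw [hθ, hmv, D.symm m v, h3]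
    have htm := E.add_mem X.mem hm
    have htm1 : τ (t + m) = 1 := ph10 X.one hmt
    obtain ⟨y, hy0, hy1, hy2⟩ := S.lk _ _ _ _ (F.le _ htm) (F.le _ hθE) (F.le _ X.mem)
      (F.le _ hαE) h4
    obtain ⟨e, hee, g, hg, rfl⟩ := F.sum y hy0
    rw [F.qE htm hg] at hy1
    rw [F.qE X.mem hg] at hy2
    have hme : C D m e := by
      have : C D ((t + m) + t) e := q_eq'_iff.1 (hy1.trans hy2.symm)
      exact this.of_eq (by (first | rfl | exact eo (by abel_nf <;> simp only [ch2, ch3, ch4, ch5, ch6, add_zero, zero_add]))) rfl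
    have hte := X.ann hm0 hm hmt hee hme
    have h5 : e = θ := by
      rcases X.rig _ htm htm1 _ (E.add_mem hee hθE) (q_eq_iff.1 hy1) with h6 | h6
      · exact eo h6
      · exfalso
        have h7 : τ (e + θ) = 0 := ph00 hte hθt
        rw [h6, htm1] at h7
        exact n01 h7.symm
    have h6 : e = α1 + α2 := by
      rcases X.rig _ X.mem X.one _ (E.add_mem hee hαE) (q_eq_iff.1 (hy2.trans h4)) with h6 | h6
      · exact eo h6
      · exfalso
        have h7 : τ (e + (α1 + α2)) = 0 := ph00 hte hατ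
        rw [h6, X.one] at h7
        exact n01 h7.symm
    rw [h5] at h6
    rcases hα1 with rfl | rfl
    · rcases hα2 with rfl | rfl
      · exact absurd (h6.trans (add_zero 0)) hθ0
      · right
        rw [h6]; (first | rfl | exact eo (by abel_nf <;> simp only [ch2, ch3, ch4, ch5, ch6, add_zero, zero_add]))
    · rcases hα2 with rfl | rfl
      · left
        rw [h6, add_zero]
      · exfalso
        apply hθm
        rw [h6]; (first | rfl | exact eo (by abel_nf <;> simp only [ch2, ch3, ch4, ch5, ch6, add_zero, zero_add]))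
  have h1 := ke a' ha' hta' (fun h2 => hna' (hMb _ h2))
  have h2 := ke (a' + b) (E.add_mem ha' hb) (ph00 hta' hbt) (fun h2 => hna' (by
    have := (hMb _ h2).add (C.self he b)
    exact this.of_eq rfl (by (first | rfl | exact eo (by abel_nf <;> simp only [ch2, ch3, ch4, ch5, ch6, add_zero, zero_add])))))
  have h3 : b = 0 ∨ b = m := by
    have e1 : b = a' + (a' + b) := by (first | rfl | exact eo (by abel_nf <;> simp only [ch2, ch3, ch4, ch5, ch6, add_zero, zero_add]))
    rcases h1 with h1 | h1 <;> rcases h2 with h2 | h2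
    · left; rw [e1, h2, h1]; (first | rfl | exact eo (by abel_nf <;> simp only [ch2, ch3, ch4, ch5, ch6, add_zero, zero_add]))
    · right; rw [e1, h2, h1]; (first | rfl | exact eo (by abel_nf <;> simp only [ch2, ch3, ch4, ch5, ch6, add_zero, zero_add]))
    · right; rw [e1, h2, h1]; (first | rfl | exact eo (by abel_nf <;> simp only [ch2, ch3, ch4, ch5, ch6, add_zero, zero_add]))
    · left; rw [e1, h2, h1]; (first | rfl | exact eo (by abel_nf <;> simp only [ch2, ch3, ch4, ch5, ch6, add_zero, zero_add]))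
  rcases h3 with h3 | h3
  · exact hb0 h3
  · rw [h3] at hbY
    exact hbY hmY

end Pool.Agent.ETCLH
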