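import Pool.Agent.ETCLH.S1
import Pool.Agent.ETCLH.S2
import Pool.Agent.ETCLH.S5
import Pool.Agent.ETCLH.CLO

/-!
THEOREM LH (note 2403): the core.
-/

set_option autoImplicit false
set_option linter.unusedSectionVars false

namespace Pool.Agent.ETCLH

open Pool.Agent.Helper58.PLine (QData)
open Pool.Agent.ETCP Pool.Agent.LSS

variable {V Q : Type} [AddCommGroup V] [Module (ZMod 2) V]
variable {D : QData V Q} {φ : V →ₗ[ZMod 2] ZMod 2}

/-- a factor with enough rigid elements and at least eight elements -/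
structure BigExt (D : QData V Q) (E : Submodule (ZMod 2) V) : Prop where
  ex : ∃ x, Rgd D E x
  fn : ∀ x, Rgd D E x → ∃ τ, Ext D E τ x
  dim : ∀ x a, ∃ b ∈ E, b ≠ 0 ∧ b ≠ x ∧ b ≠ a ∧ b ≠ x + a

theorem core [Finite V] (S : LHs D φ) {k : ℕ} (M : Cm D φ k)
    (hC : ∀ j, ((∃ c, LocF D (M.E j) c) ∧ ∃ e ∈ M.E j, e ≠ 0) ∨ BigExt D (M.E j)) : False := by
  have he := S.he
  have hB : ∀ j, BigExt D (M.E j) := by
    intro j
    rcases hC j with ⟨⟨c, h1⟩, h2⟩ | h
    · exact absurd (S1 S (M.fct j) h1 h2) id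
    · exact h
  -- there are at least two components
  have h2 : ∀ j : Fin k, ∃ i, i ≠ j := by
    intro j
    by_contra hcon
    push Not at hcon
    obtain ⟨t, ht⟩ := (hB j).ex
    have hE : ∀ v, φ v = 0 → v ∈ M.E j := by
      intro v hv
      have h3 := M.sum v hv
      rw [Finset.sum_eq_single j (fun i _ hi => absurd (hcon i) hi)
        (fun h => absurd (Finset.mem_univ j) h)] at h3
      exact h3
    by_cases hY : Yy D φ t
    · obtain ⟨v, h3, h4, h5, -, -⟩ := S.c5 t ht.2.1 0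
      rcases ht.2.2 v (hE v (hY v h3)) h3 with h6 | h6
      · exact h4 h6
      · exact h5 h6
    · obtain ⟨v0, h3, h4⟩ := notY hY
      obtain ⟨v, h5, h6, h7, h8, h9⟩ := S.c5 t ht.2.1 v0
      rcases zz (φ v) with h | h
      · rcases ht.2.2 v (hE v h) h5 with h10 | h10
        · exact h6 h10
        · exact h7 h10
      · rcases ht.2.2 _ (hE _ (ph11 h h4)) (h5.add h3) with h10 | h10
        · exact h8 (eo h10)
        · apply h9
          rw [← h10]; (first | rfl | exact eo (by abel_nf <;> simp only [ch2, ch3, ch4, ch5, ch6, add_zero, zero_add]))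
  -- elements of type `Y`
  have hY : ∀ j, ∃ e ∈ M.E j, e ≠ 0 ∧ Yy D φ e := by
    intro j
    by_contra hcon
    push Not at hcon
    obtain ⟨t, ht⟩ := (hB j).ex
    obtain ⟨τ, X⟩ := (hB j).fn t ht
    exact S2 S (M.fct j) X fun e hee he0 => notY (hcon e hee he0)
  have hI : ∀ j, TyI D φ (M.E j) := by
    intro j
    obtain ⟨t, ht⟩ := (hB j).ex
    obtain ⟨τ, X⟩ := (hB j).fn t ht
    by_contra hcon
    obtain ⟨i, hij⟩ := h2 j
    obtain ⟨h, hh, hh0, hhY⟩ := hY i
    apply S5 S (M.fct j) X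
    · intro x hx hx1 hxY
      exact hcon (S4I S (M.fct j) X hx hx1 hxY)
    · exact hY j
    · refine ⟨h, ?_, hhY⟩
      rw [Cm.mem_E']
      refine ⟨(M.fct i).le h hh, ?_⟩
      rw [← Cm.mem_E.1 hh, M.orth j i hij.symm]
  by_cases hcl : ∃ j x τ, Ext D (M.E j) τ x ∧ ∀ s, Rgd D (M.E j) s → τ s ≠ 0
  · obtain ⟨j, x, τ, X, hno⟩ := hcl
    apply S6 S (M.fct j) X (hI j) (Cl_of S (M.fct j) X hno)
    obtain ⟨b, hb, hb0, hbx, -, -⟩ := (hB j).dim x 0
    rcases zz (τ b) with h | h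
    · exact ⟨b, hb, hb0, h⟩
    · exact ⟨b + x, (M.E j).add_mem hb X.mem, fun h1 => hbx (eo h1), ph11 h X.one⟩
  · push Not at hcl
    exact S7 S M hI (fun j => (hB j).fn) (fun j => (hB j).ex) hcl (fun j => (hB j).dim)

end Pool.Agent.ETCLH
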