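import Pool.Agent.ETCLH.Main

/-!
The converse of THEOREM LH: nontrivial structures of elementary type with `-1 = 1` have a linked
hyperplane.
-/

set_option autoImplicit false
set_option linter.unusedSectionVars false

namespace Pool.Agent.ETCLH

open QS Pool.Agent.RFT Pool.Agent.ETG Pool.Agent.RFN Pool.Agent.AST
open Pool.Agent.Helper58.PLine (QData exists_functional)

/-- linkage of a subgroup -/
def LkH (S : QStruct) (H : Subgroup S.G) : Prop :=
  ∀ a b c d, a ∈ H → b ∈ H → c ∈ H → d ∈ H → S.q a b = S.q c d →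
    ∃ x ∈ H, S.q a b = S.q a x ∧ S.q c d = S.q c x

theorem hyp_iff {S : QStruct} {H : Subgroup S.G} : LinkedHyp S H ↔ H.index = 2 ∧ LkH S H := Iff.rfl

theorem hyp_iso {S T : QStruct} (h : Iso S T) (hx : ∃ H, LinkedHyp S H) : ∃ H, LinkedHyp T H := by
  obtain ⟨e, -, h1⟩ := h
  obtain ⟨H, h2, h3⟩ := hx
  rw [Subgroup.index_eq_two_iff] at h2
  obtain ⟨a, ha⟩ := h2
  refine ⟨H.comap e.symm.toMonoidHom, ?_, ?_⟩
  · rw [Subgroup.index_eq_two_iff]
    refine ⟨e a, fun b => ?_⟩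
    have := ha (e.symm b)
    rw [Subgroup.mem_comap, Subgroup.mem_comap]
    show Xor (e.symm (b * e a) ∈ H) (e.symm b ∈ H)
    rw [map_mul, e.symm_apply_apply]
    exact this
  · intro a b c d ha hb hc hd h
    obtain ⟨a, rfl⟩ := e.surjective a
    obtain ⟨b, rfl⟩ := e.surjective b
    obtain ⟨c, rfl⟩ := e.surjective c
    obtain ⟨d, rfl⟩ := e.surjective d
    have mem : ∀ a : S.G, e a ∈ H.comap e.symm.toMonoidHom ↔ a ∈ H := by
      intro a
      rw [Subgroup.mem_comap]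
      show e.symm (e a) ∈ H ↔ _
      rw [e.symm_apply_apply]
    rw [mem] at ha hb hc hd
    obtain ⟨x, hx, h4, h5⟩ := h3 a b c d ha hb hc hd ((h1 _ _ _ _).2 h)
    exact ⟨e x, (mem x).2 hx, (h1 _ _ _ _).1 h4, (h1 _ _ _ _).1 h5⟩

theorem hyp_prod_left {S T : QStruct} (hx : ∃ H, LinkedHyp S H) :
    ∃ H, LinkedHyp (QS.prod S T) H := by
  obtain ⟨H, h2, h3⟩ := hx
  rw [Subgroup.index_eq_two_iff] at h2
  obtain ⟨a, ha⟩ := h2
  let K : Subgroup (QS.prod S T).G := H.comap (MonoidHom.fst S.G T.G)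
  have mK : ∀ u : (QS.prod S T).G, u ∈ K ↔ u.1 ∈ H := fun u => Iff.rfl
  refine ⟨K, ?_, ?_⟩
  · rw [Subgroup.index_eq_two_iff]
    exact ⟨((a, 1) : S.G × T.G), fun b => ha b.1⟩
  · intro a b c d ha hb hc hd h
    obtain ⟨x, hx, h4, h5⟩ := h3 a.1 b.1 c.1 d.1 ha hb hc hd (congrArg Prod.fst h)
    obtain ⟨y, h6, h7⟩ := T.qs4 a.2 b.2 c.2 d.2 (congrArg Prod.snd h)
    exact ⟨((x, y) : S.G × T.G), hx, Prod.ext h4 h6, Prod.ext h5 h7⟩

theorem hyp_prod_right {S T : QStruct} (hx : ∃ H, LinkedHyp T H) :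
    ∃ H, LinkedHyp (QS.prod S T) H := by
  obtain ⟨H, h2, h3⟩ := hx
  rw [Subgroup.index_eq_two_iff] at h2
  obtain ⟨a, ha⟩ := h2
  let K : Subgroup (QS.prod S T).G := H.comap (MonoidHom.snd S.G T.G)
  refine ⟨K, ?_, ?_⟩
  · rw [Subgroup.index_eq_two_iff]
    exact ⟨((1, a) : S.G × T.G), fun b => ha b.2⟩
  · intro a b c d ha hb hc hd h
    obtain ⟨x, hx, h4, h5⟩ := h3 a.2 b.2 c.2 d.2 ha hb hc hd (congrArg Prod.snd h)
    obtain ⟨y, h6, h7⟩ := S.qs4 a.1 b.1 c.1 d.1 (congrArg Prod.fst h)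
    exact ⟨((y, x) : S.G × T.G), hx, Prod.ext h6 h4, Prod.ext h7 h5⟩

theorem hyp_ext (S : QStruct) : ∃ H, LinkedHyp (QS.ext S) H := by
  let K : Subgroup (QS.ext S).G := (⊥ : Subgroup (Multiplicative (ZMod 2))).comap
    (MonoidHom.snd S.G (Multiplicative (ZMod 2)))
  have mK : ∀ u : (QS.ext S).G, u ∈ K ↔ u.2 = 1 := fun u => Iff.rfl
  refine ⟨K, ?_, ?_⟩
  · rw [Subgroup.index_eq_two_iff]
    refine ⟨((1, Multiplicative.ofAdd 1) : S.G × Multiplicative (ZMod 2)), fun b => ?_⟩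
    rw [mK, mK]
    show Xor (b.2 * Multiplicative.ofAdd 1 = 1) (b.2 = 1)
    rcases two_cases b.2 with h | h
    · rw [h]
      exact Or.inr ⟨rfl, by decide⟩
    · rw [h]
      exact Or.inl ⟨by decide, by decide⟩
  · rintro ⟨a, α⟩ ⟨b, β⟩ ⟨c, γ⟩ ⟨d, δ⟩ ha hb hc hd h
    rw [mK] at ha hb hc hd
    have ha' : α = 1 := ha
    have hb' : β = 1 := hb
    have hc' : γ = 1 := hc
    have hd' : δ = 1 := hd
    subst ha' hb' hc' hd'
    have h' : extMap S (a, 1) (b, 1) = extMap S (c, 1) (d, 1) := congrArg Subtype.val h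
    rw [extMap_one_one, extMap_one_one] at h'
    obtain ⟨x, h1, h2⟩ := S.qs4 a b c d (congrArg Prod.fst h')
    refine ⟨((x, 1) : S.G × Multiplicative (ZMod 2)), rfl, ?_, ?_⟩
    · apply Subtype.ext
      show extMap S (a, 1) (b, 1) = extMap S (a, 1) (x, 1)
      rw [extMap_one_one, extMap_one_one, h1]
    · apply Subtype.ext
      show extMap S (c, 1) (d, 1) = extMap S (c, 1) (x, 1)
      rw [extMap_one_one, extMap_one_one, h2]

/-- an index two subgroup -/
theorem exists_index_two (S : QStruct) (hg : ∃ g : S.G, g ≠ 1) :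
    ∃ H : Subgroup S.G, H.index = 2 := by
  obtain ⟨g, hg⟩ := hg
  obtain ⟨f, hf, -⟩ := exists_functional (M := Additive S.G) (p := ⊥) (x := Additive.ofMul g)
    (by rw [Submodule.mem_bot]; exact hg)
  let H : Subgroup S.G :=
    { carrier := {a | f (Additive.ofMul a) = 0}
      mul_mem' := by
        intro a b ha hb
        have ha' : f (Additive.ofMul a) = 0 := ha
        have hb' : f (Additive.ofMul b) = 0 := hb
        show f (Additive.ofMul (a * b)) = 0
        rw [ofMul_mul, map_add, ha', hb', add_zero]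
      one_mem' := map_zero f
      inv_mem' := by
        intro a ha
        have ha' : f (Additive.ofMul a) = 0 := ha
        show f (Additive.ofMul a⁻¹) = 0
        rw [ofMul_inv, map_neg, ha', neg_zero] }
  have mH : ∀ a, a ∈ H ↔ f (Additive.ofMul a) = 0 := fun a => Iff.rfl
  refine ⟨H, ?_⟩
  rw [Subgroup.index_eq_two_iff]
  refine ⟨g, fun b => ?_⟩
  rw [mH, mH, ofMul_mul, map_add, hf]
  generalize f (Additive.ofMul b) = β
  revert β
  decide

/-- all subgroups are linked if there are at most two quaternions -/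
theorem lk_of_two (S : QStruct) (h : ∀ β γ : S.Q, β ≠ S.zero → γ ≠ S.zero → β = γ)
    (H : Subgroup S.G) : LkH S H := by
  intro a b c d ha hb hc hd hq
  by_cases h0 : S.q a b = S.zero
  · exact ⟨1, H.one_mem, by rw [S.q_one, h0], by rw [S.q_one, ← hq, h0]⟩
  · have h0' : S.q c d ≠ S.zero := by rwa [← hq]
    by_cases h1 : S.q a d = S.zero
    · by_cases h2 : S.q c b = S.zero
      · refine ⟨b * d, H.mul_mem hb hd, ?_, ?_⟩
        · rw [mul_comm b d, S.q_zero_mul h1]
        · rw [S.q_zero_mul h2]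
      · exact ⟨b, hb, rfl, h _ _ h0' h2⟩
    · exact ⟨d, hd, h _ _ h0 h1, rfl⟩

theorem elem_linked {S : QStruct} (h : ElemType S) : S.neg = 1 → (∃ g : S.G, g ≠ 1) →
    ∃ H, LinkedHyp S H := by
  induction h with
  | L0 S h =>
    rintro - ⟨g, hg⟩
    exfalso
    have := (Nat.card_eq_one_iff_unique.1 h).1
    exact hg (Subsingleton.elim _ _)
  | L10 S h h1 h2 =>
    rintro - hg
    obtain ⟨H, hH⟩ := exists_index_two S hg
    refine ⟨H, hH, lk_of_two S (fun β γ hβ _ => ?_) H⟩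
    obtain ⟨a, b, rfl⟩ := S.surj β
    exact absurd (h2 a b) hβ
  | L11 S h h1 h2 => exact fun h => absurd h h1
  | L1 S h h1 h2 => exact fun h => absurd h h1
  | loc S hf h h1 h2 =>
    rintro - hg
    obtain ⟨H, hH⟩ := exists_index_two S hg
    refine ⟨H, hH, lk_of_two S (fun β γ hβ hγ => ?_) H⟩
    have hf : Finite S.Q := Nat.finite_of_card_ne_zero (by rw [h2]; norm_num)
    by_contra hne
    have h3 : 3 ≤ Nat.card S.Q := by
      classical
      have := Fintype.ofFinite S.Q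
      rw [Nat.card_eq_fintype_card]
      have h4 : ({S.zero, β, γ} : Finset S.Q).card = 3 := by
        rw [Finset.card_insert_of_notMem, Finset.card_insert_of_notMem,
          Finset.card_singleton]
        · simpa using hne
        · simp only [Finset.mem_insert, Finset.mem_singleton, not_or]
          exact ⟨fun h => hβ h.symm, fun h => hγ h.symm⟩
      rw [← h4]
      exact Finset.card_le_univ _
    omega
  | prod S T _ _ ihS ihT =>
    rintro hneg ⟨g, hg⟩
    have h1 : S.neg = 1 := congrArg Prod.fst hneg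
    have h2 : T.neg = 1 := congrArg Prod.snd hneg
    by_cases h3 : g.1 = 1
    · exact hyp_prod_right (ihT h2 ⟨g.2, fun h => hg (Prod.ext h3 h)⟩)
    · exact hyp_prod_left (ihS h1 ⟨g.1, h3⟩)
  | ext S _ ih => exact fun _ _ => hyp_ext S
  | iso S T h1 _ ih =>
    rintro hneg ⟨g, hg⟩
    obtain ⟨e, he, he'⟩ := h1
    refine hyp_iso ⟨e, he, he'⟩ (ih ?_ ⟨e.symm g, fun h => hg ?_⟩)
    · exact e.injective (by rw [he, hneg, map_one])
    · rw [← e.apply_symm_apply g, h, map_one]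

/-- **The elementary type conjecture for `-1 = 1` is equivalent to the existence of linked
hyperplanes.** -/
theorem etc_iff_linked : (∀ S : QStruct, Finite S.G → S.neg = 1 → ElemType S) ↔
    ∀ S : QStruct, Finite S.G → S.neg = 1 → (∃ g : S.G, g ≠ 1) → ∃ H, LinkedHyp S H :=
  ⟨fun h S hf hneg hg => elem_linked (h S hf hneg) hneg hg, all_of_linked⟩

end Pool.Agent.ETCLH
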