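import Pool.Agent.PPD.Shift

/-!
THEOREM LH (note 2403, helper56): a minimal finite linked structure with `-1 = 1` which is not of
elementary type has no linked hyperplane.  Definitions.

`D : QData V Q` with `e = 0` is a linked structure (set valued), `φ` a nonzero functional whose
kernel `H` is linked.
-/

set_option autoImplicit false

namespace Pool.Agent.ETCLH

open Pool.Agent.Helper58.PLine (QData)
open Pool.Agent.ETCP Pool.Agent.LSS

variable {V Q : Type} [AddCommGroup V] [Module (ZMod 2) V]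

/-- facts on a minimal structure which is not of elementary type -/
structure Mn (D : QData V Q) : Prop where
  he : D.e = 0
  /-- no element of rank at most one except `0` -/
  r1 : ∀ x, (∀ v w, C D x v ∨ C D x w ∨ C D x (v + w)) → x = 0
  /-- no prime functional -/
  np : ∀ φ : V →ₗ[ZMod 2] ZMod 2, φ ≠ 0 →
    ¬ ∀ p p', (∃ v, C D p v ∧ φ v = 1) → (∃ v, C D p' v ∧ φ v = 1) →
      (∃ v, C D (p + p') v ∧ φ v = 1) → ∃ v, C D p v ∧ C D p' v ∧ φ v = 1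
  /-- at least five elements commute with `t ≠ 0` -/
  c5 : ∀ t, t ≠ 0 → ∀ a, ∃ v, C D t v ∧ v ≠ 0 ∧ v ≠ t ∧ v ≠ a ∧ v ≠ t + a
  /-- no decomposition -/
  nd : ∀ A A' : Submodule (ZMod 2) V, (∀ v ∈ A, v ∈ A' → v = 0) →
    (∀ v, ∃ a ∈ A, ∃ a' ∈ A', v = a + a') → (∃ a ∈ A, a ≠ 0) → (∃ a ∈ A', a ≠ 0) →
    (∀ a ∈ A, ∀ a' ∈ A', C D a a') →
    ¬ ∀ a ∈ A, ∀ b ∈ A, ∀ a' ∈ A', ∀ b' ∈ A', D.q a b = D.q a' b' → C D a b

/-- the kernel of `φ` is a linked hyperplane of a minimal structure -/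
structure LHs (D : QData V Q) (φ : V →ₗ[ZMod 2] ZMod 2) : Prop extends Mn D where
  out : ∃ v, φ v = 1
  lk : ∀ a b c d, φ a = 0 → φ b = 0 → φ c = 0 → φ d = 0 → D.q a b = D.q c d →
    ∃ x, φ x = 0 ∧ D.q a x = D.q a b ∧ D.q c x = D.q a b

/-- everything commuting with `h` is in the hyperplane (`[h] = 1`) -/
def Yy (D : QData V Q) (φ : V →ₗ[ZMod 2] ZMod 2) (h : V) : Prop := ∀ v, C D h v → φ v = 0

/-- a factor `E` of the hyperplane, `E'` is the product of the other factors -/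
structure Fct (D : QData V Q) (φ : V →ₗ[ZMod 2] ZMod 2) (E E' : Submodule (ZMod 2) V) :
    Prop where
  le : ∀ e ∈ E, φ e = 0
  le' : ∀ h ∈ E', φ h = 0
  dis : ∀ v, v ∈ E → v ∈ E' → v = 0
  sum : ∀ v, φ v = 0 → ∃ e ∈ E, ∃ h ∈ E', v = e + h
  orth : ∀ e ∈ E, ∀ h ∈ E', C D e h
  ind : ∀ e ∈ E, ∀ e1 ∈ E, ∀ h ∈ E', ∀ h1 ∈ E', D.q e e1 = D.q h h1 → C D e e1

/-- all elements of `E` outside `ker τ` are rigid in `E` -/
structure Ext (D : QData V Q) (E : Submodule (ZMod 2) V) (τ : V →ₗ[ZMod 2] ZMod 2) (t : V) :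
    Prop where
  mem : t ∈ E
  one : τ t = 1
  rig : ∀ x ∈ E, τ x = 1 → ∀ v ∈ E, C D x v → v = 0 ∨ v = x

/-- a local factor: one value `c` -/
structure LocF (D : QData V Q) (E : Submodule (ZMod 2) V) (c : Q) : Prop where
  ne : c ≠ D.z
  val : ∀ e ∈ E, ∀ e1 ∈ E, C D e e1 ∨ D.q e e1 = c
  nd : ∀ e ∈ E, e ≠ 0 → ∃ e1 ∈ E, D.q e e1 = c

/-- type (I): no nonzero element of `E` commutes with an element outside the hyperplane -/
def TyI (D : QData V Q) (φ : V →ₗ[ZMod 2] ZMod 2) (E : Submodule (ZMod 2) V) : Prop :=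
  ∀ e ∈ E, e ≠ 0 → Yy D φ e

end Pool.Agent.ETCLH
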