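import Pool.Agent.AST.EXTH
import Pool.Agent.AST.LOC
import Pool.Agent.ETCLH.CORE

/-!
THEOREM LH (note 2403): from group valued components to the core.
-/

set_option autoImplicit false
set_option linter.unusedSectionVars false

namespace Pool.Agent.AST

open scoped BigOperators
open Pool.Agent.RFT Pool.Agent.ETG Pool.Agent.EWG

/-- every rigid element of a component has a functional -/
theorem EXTR {V B : Type} [AddCommGroup V] [Module (ZMod 2) V] [AddCommGroup B]
    [Module (ZMod 2) B] [Finite V] {q : V →ₗ[ZMod 2] V →ₗ[ZMod 2] B} {φ : V →ₗ[ZMod 2] ZMod 2}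
    (hS : SitH q φ) {k : ℕ} (C : HC q φ k) (j : Fin k) {t : V} (hE : C.Rg j t) :
    ∃ τ : V →ₗ[ZMod 2] ZMod 2, τ t = 1 ∧ ∀ v, C.p j v = v → τ v = 1 → C.Rg j v := by
  classical
  have hfix : ∀ x : LinearMap.range (C.p j), C.p j x = x := by
    rintro ⟨x, y, rfl⟩
    exact C.idem j y
  obtain ⟨htj, ht0, ht⟩ := hE
  have hlk := C.lkH hS j
  obtain ⟨hLZ, hEq⟩ := LZQ _ _ _ hlk
  have hND : ND (Zq (q.domRestrict₁₂ (LinearMap.range (C.p j)) (LinearMap.range (C.p j)))) := by
    intro a ha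
    have : (a : V) = 0 := by
      apply C.ndH hS j (hfix a)
      intro y hy
      exact ha ⟨y, y, hy⟩
    exact Subtype.ext this
  obtain ⟨τ, hτ, hτ'⟩ := rig_proof _ _ hLZ hND ⟨t, t, htj⟩ (by
    refine ⟨fun h => ht0 (congrArg Subtype.val h), ?_⟩
    intro v hv
    rcases ht v (hfix v) hv with h | h
    · exact Or.inl (Subtype.ext h)
    · exact Or.inr (Subtype.ext h))
  have hT : ∀ v (hv : C.p j v = v), (τ ∘ₗ (C.p j).rangeRestrict) v = τ ⟨v, v, hv⟩ := by
    intro v hv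
    change τ ((C.p j).rangeRestrict v) = _
    congr 1
    exact Subtype.ext hv
  refine ⟨τ ∘ₗ (C.p j).rangeRestrict, by rw [hT t htj, hτ], ?_⟩
  generalize hσ : τ ∘ₗ (C.p j).rangeRestrict = σ at hT
  have hσt : σ t = 1 := by rw [hT t htj, hτ]
  -- the property of `σ`
  have key : ∀ v w a, C.p j v = v → C.p j w = w → C.p j a = a → σ v = 0 → σ w = 0 →
      q v w = q t a → q v w = 0 := by
    intro v w a hv hw ha h1 h2 h3
    have h4 := hτ' ⟨v, v, hv⟩ ⟨w, w, hw⟩ (by rw [← hT v hv, h1]) (by rw [← hT w hw, h2])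
      ⟨⟨a, a, ha⟩, (hEq _ _ _ _).2 h3⟩
    exact h4
  intro v hv h1
  have hv0 : v ≠ 0 := by
    intro h
    rw [h, map_zero] at h1
    exact zero_ne_one h1
  refine ⟨hv, hv0, ?_⟩
  intro y hy h2
  have hvt : C.p j (v + t) = v + t := by rw [map_add, hv, htj]
  have hσv : σ (v + t) = 0 := by rw [map_add, h1, hσt, one_add_one2]
  rcases z2 (σ y) with h3 | h3
  · have h4 : q (v + t) y = q t y := by
      rw [map_add, LinearMap.add_apply, h2, zero_add]
    have h5 := key (v + t) y y hvt hy hy hσv h3 h4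
    rw [h4] at h5
    rcases ht y hy h5 with h6 | h6
    · exact Or.inl h6
    · rw [h6, hσt] at h3
      exact absurd h3 one_ne_zero
  · have hyt : C.p j (y + t) = y + t := by rw [map_add, hy, htj]
    have hσy : σ (y + t) = 0 := by rw [map_add, h3, hσt, one_add_one2]
    have h4 : q (v + t) (y + t) = q t (y + v) := by
      rw [map_add, map_add, map_add, LinearMap.add_apply, LinearMap.add_apply, h2, zero_add,
        hS.alt t, add_zero, hS.symm v t]
    have h5 := key (v + t) (y + t) (y + v) hvt hyt (by rw [map_add, hy, hv]) hσv hσy h4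
    rw [h4] at h5
    rcases ht (y + v) (by rw [map_add, hy, hv]) h5 with h6 | h6
    · exact Or.inr (eq_iff_add.2 h6)
    · have h7 := congrArg σ h6
      rw [map_add, h3, h1, hσt, one_add_one2] at h7
      exact absurd h7 zero_ne_one

end Pool.Agent.AST

namespace Pool.Agent.ETCLH

open Pool.Agent.Helper58.PLine (QData)
open Pool.Agent.ETCP Pool.Agent.LSS Pool.Agent.AST

variable {V B Q : Type} [AddCommGroup V] [Module (ZMod 2) V] [AddCommGroup B] [Module (ZMod 2) B]
variable {D : QData V Q} {φ : V →ₗ[ZMod 2] ZMod 2} {q : V →ₗ[ZMod 2] V →ₗ[ZMod 2] B}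

/-- at least eight elements -/
theorem dim_of {E : Submodule (ZMod 2) V} {x y y' : V} (hx : x ∈ E) (hy : y ∈ E) (hy' : y' ∈ E)
    (hx0 : x ≠ 0) (hy0 : y ≠ 0) (hy'0 : y' ≠ 0) (h1 : x ≠ y) (h2 : x ≠ y') (h3 : y ≠ y')
    (h4 : x ≠ y + y') (x' a : V) : ∃ b ∈ E, b ≠ 0 ∧ b ≠ x' ∧ b ≠ a ∧ b ≠ x' + a := by
  by_contra hcon
  push Not at hcon
  have key : ∀ b ∈ E, b ≠ 0 → b = x' ∨ b = a ∨ b = x' + a := by
    intro b hb hb0
    by_cases e1 : b = x'
    · exact Or.inl e1
    · by_cases e2 : b = a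
      · exact Or.inr (Or.inl e2)
      · exact Or.inr (Or.inr (hcon b hb hb0 e1 e2))
  rcases key x hx hx0 with e1 | e1 | e1 <;> rcases key y hy hy0 with e2 | e2 | e2 <;>
    rcases key y' hy' hy'0 with e3 | e3 | e3 <;>
    first
      | exact h1 (e1.trans e2.symm)
      | exact h2 (e1.trans e3.symm)
      | exact h3 (e2.trans e3.symm)
      | (apply h4; rw [e1, e2, e3]; first | done | (first | rfl | exact eo (by abel_nf <;> simp only [ch2, ch3, ch4, ch5, ch6, add_zero, zero_add])))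

/-- the components, set valued -/
def toCm {k : ℕ} (C : HC q φ k) (hc : ∀ a b, φ a = 0 → φ b = 0 → (q a b = 0 ↔ ETCP.C D a b)) :
    Cm D φ k where
  p := C.p
  mem := C.mem
  idem := C.idem
  orth := C.orth
  sum := C.sum
  perp := fun i j hij v w => (hc _ _ (C.mem i v) (C.mem j w)).1 (C.perp i j hij v w)
  ind := fun v w hv hw h j => (hc _ _ (C.mem j v) (C.mem j w)).1
    (C.ind v w hv hw ((hc v w hv hw).2 h) j)

theorem core2 [Finite V] (S : LHs D φ) (hq : SitH q φ)
    (cmp : ∀ a b c d, φ a = 0 → φ b = 0 → φ c = 0 → φ d = 0 → (q a b = q c d ↔ D.q a b = D.q c d))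
    {k : ℕ} (C : HC q φ k) (hC : ∀ j, C.Loc j ∨ C.Ext j) : False := by
  have hc : ∀ a b, φ a = 0 → φ b = 0 → (q a b = 0 ↔ ETCP.C D a b) := by
    intro a b ha hb
    have h := cmp a b 0 0 ha hb (map_zero φ) (map_zero φ)
    rw [map_zero, D.q_zero] at h
    exact h
  apply core S (toCm C hc)
  intro j
  have hE : ∀ v, v ∈ (toCm C hc).E j ↔ C.p j v = v := fun v => Iff.rfl
  have h0 : ∀ v, C.p j v = v → φ v = 0 := by
    intro v hv
    rw [← hv]
    exact C.mem j v
  by_cases hL : C.Loc j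
  · left
    obtain ⟨e, he0, h1, h2⟩ := LOCH V B q φ hq k C j hL
    obtain ⟨v0, hv0⟩ := C.ne j
    obtain ⟨w0, hw0, hvw⟩ := h2 v0 hv0
    refine ⟨⟨D.q (C.p j v0) w0, ?_, ?_, ?_⟩, C.p j v0, C.idem j v0, hv0⟩
    · intro h
      apply he0
      rw [← hvw]
      exact (hc _ _ (C.mem j v0) (h0 w0 hw0)).2 h
    · intro a ha b hb
      rw [hE] at ha hb
      rcases h1 a b (h0 b hb) with h | h
      · left
        rw [ha] at h
        exact (hc a b (h0 a ha) (h0 b hb)).1 h
      · right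
        rw [ha, ← hvw] at h
        exact (cmp _ _ _ _ (h0 a ha) (h0 b hb) (C.mem j v0) (h0 w0 hw0)).1 h
    · intro a ha ha0
      rw [hE] at ha
      obtain ⟨w, hw, h⟩ := h2 a (by rw [ha]; exact ha0)
      rw [ha, ← hvw] at h
      exact ⟨w, hw, (cmp _ _ _ _ (h0 a ha) (h0 w hw) (C.mem j v0) (h0 w0 hw0)).1 h⟩
  · right
    have hX := (hC j).resolve_left hL
    have hRg : ∀ x, C.Rg j x → Rgd D ((toCm C hc).E j) x := by
      rintro x ⟨h1, h2, h3⟩
      exact ⟨h1, h2, fun v hv h => h3 v hv ((hc x v (h0 x h1) (h0 v hv)).2 h)⟩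
    have hRg' : ∀ x, Rgd D ((toCm C hc).E j) x → C.Rg j x := by
      rintro x ⟨h1, h2, h3⟩
      exact ⟨h1, h2, fun v hv h => h3 v hv ((hc x v (h0 x h1) (h0 v hv)).1 h)⟩
    obtain ⟨t, ht⟩ := hX
    refine ⟨⟨t, hRg t ht⟩, ?_, ?_⟩
    · intro x hx
      obtain ⟨τ, h1, h2⟩ := EXTR hq C j (hRg' x hx)
      exact ⟨τ, hx.1, h1, fun v hv hv1 => (hRg v (h2 v hv hv1)).2.2⟩
    · obtain ⟨y, y', hy, hy', h1, h2, h3⟩ := (EXTH V B q φ hq k C j ⟨t, ht⟩).2 hL t ht
      apply dim_of (x := t) (y := y) (y' := y') ht.1 hy hy' ht.2.1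
      · rintro rfl
        exact h1 (map_zero _)
      · rintro rfl
        exact h2 (map_zero _)
      · rintro rfl
        exact h1 (hq.alt _)
      · rintro rfl
        exact h2 (hq.alt _)
      · rintro rfl
        exact h3 rfl
      · intro h
        apply h3
        have h4 := hq.alt t
        nth_rewrite 2 [h] at h4
        rw [map_add] at h4
        exact eq_iff_add.2 h4

end Pool.Agent.ETCLH
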