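import Pool.Agent.ETCLH.BAS

/-!
THEOREM LH (note 2403), factors of the hyperplane.
-/

set_option autoImplicit false
set_option linter.unusedSectionVars false

namespace Pool.Agent.ETCLH

open Module
open Pool.Agent.Helper58.PLine (QData)
open Pool.Agent.ETCP Pool.Agent.LSS

variable {V Q : Type} [AddCommGroup V] [Module (ZMod 2) V]
variable {D : QData V Q} {φ : V →ₗ[ZMod 2] ZMod 2}

/-! ### Slots -/

/-- (P) -/
theorem slotH {h k s y : V} {c : Q} (hY : Yy D φ h) (hk : φ k = 0) (h1 : D.q h k = c)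
    (h2 : D.q s y = c) : ∃ k', φ k' = 0 ∧ D.q h k' = c ∧ D.q s k' = c := by
  obtain ⟨x, e1, e2⟩ := D.link h k s y (h1.trans h2.symm)
  refine ⟨x, ?_, by rw [← e1, h1], by rw [← e2, h2]⟩
  have h3 := hY _ (q_eq_iff.1 e1)
  rw [map_add, hk, zero_add] at h3
  exact h3

namespace Fct

variable {E E' : Submodule (ZMod 2) V} (F : Fct D φ E E')
include F

theorem qE {e e1 h1 : V} (he : e ∈ E) (hh : h1 ∈ E') : D.q e (e1 + h1) = D.q e e1 :=
  qadd (F.orth e he h1 hh)

theorem qE' {h e1 h1 : V} (hh : h ∈ E') (he : e1 ∈ E) : D.q h (e1 + h1) = D.q h h1 :=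
  qaddl (F.orth e1 he h hh).symm

/-- commuting in `H` is componentwise -/
theorem cc {e e1 h h1 : V} (he : e ∈ E) (he1 : e1 ∈ E) (hh : h ∈ E') (hh1 : h1 ∈ E')
    (hc : C D (e + h) (e1 + h1)) : C D e e1 ∧ C D h h1 := by
  have e1' : D.q (e + h) e1 = D.q (e + h) h1 := q_eq hc
  have e2 : D.q (e + h) e1 = D.q e e1 := qadd' (F.orth e1 he1 h hh).symm
  have e3 : D.q (e + h) h1 = D.q h h1 := qaddl' (F.orth e he h1 hh1)
  have e4 : D.q e e1 = D.q h h1 := by rw [← e2, e1', e3]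
  have h2 := F.ind e he e1 he1 h hh h1 hh1 e4
  exact ⟨h2, e4.symm.trans h2⟩

theorem cc' {e e1 h h1 : V} (he : e ∈ E) (he1 : e1 ∈ E) (hh : h ∈ E') (hh1 : h1 ∈ E')
    (h2 : C D e e1) (h3 : C D h h1) : C D (e + h) (e1 + h1) :=
  (h2.add (F.orth e he h1 hh1)).add' ((F.orth e1 he1 h hh).symm.add h3)

/-- no element of `E'` is a slot of a symbol of an element of `E` of type `Y` -/
theorem nslot {e e1 h : V} (hY : Yy D φ e) (he : e ∈ E) (he1 : e1 ∈ E) (hn : ¬ C D e e1)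
    (hh : h ∈ E') (y : V) : D.q h y ≠ D.q e e1 := by
  intro hy
  obtain ⟨k, h1, h2, h3⟩ := slotH hY (F.le e1 he1) rfl hy
  obtain ⟨e2, he2, h2', hh2, rfl⟩ := F.sum k h1
  rw [F.qE he hh2] at h2
  rw [F.qE' hh he2] at h3
  apply hn
  have := F.ind e he e2 he2 h hh h2' hh2 (h2.trans h3.symm)
  exact h2.symm.trans this

/-- the sets `ann (e + g) ∩ H` -/
theorem ann_inf {e g : V} (he : e ∈ E) (hg : g ∈ E') :
    D.ann (e + g) ⊓ LinearMap.ker φ = (D.ann e ⊓ E) ⊔ (D.ann g ⊓ E') := by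
  apply le_antisymm
  · rintro v ⟨h1, h2⟩
    obtain ⟨e1, he1, h1', hh1, rfl⟩ := F.sum v h2
    obtain ⟨h3, h4⟩ := F.cc he he1 hg hh1 h1
    exact Submodule.add_mem_sup ⟨h3, he1⟩ ⟨h4, hh1⟩
  · rw [sup_le_iff]
    constructor
    · rintro v ⟨h1, h2⟩
      exact ⟨C.add' h1 (F.orth v h2 g hg).symm, F.le v h2⟩
    · rintro v ⟨h1, h2⟩
      exact ⟨C.add' (F.orth e he v h2) h1, F.le' v h2⟩

theorem disj {U U' : Submodule (ZMod 2) V} (hU : U ≤ E) (hU' : U' ≤ E') : U ⊓ U' = ⊥ := by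
  rw [Submodule.eq_bot_iff]
  rintro v ⟨h1, h2⟩
  exact F.dis v (hU h1) (hU' h2)

theorem finrank_sup [Finite V] {U U' : Submodule (ZMod 2) V} (hU : U ≤ E) (hU' : U' ≤ E') :
    finrank (ZMod 2) (U ⊔ U' : Submodule (ZMod 2) V) =
      finrank (ZMod 2) U + finrank (ZMod 2) U' := by
  have h1 := Submodule.finrank_sup_add_finrank_inf_eq U U'
  rw [F.disj hU hU', finrank_bot] at h1
  omega

theorem ker_eq : LinearMap.ker φ = E ⊔ E' := by
  apply le_antisymm
  · intro v hv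
    obtain ⟨e, he, h, hh, rfl⟩ := F.sum v hv
    exact Submodule.add_mem_sup he hh
  · rw [sup_le_iff]
    exact ⟨fun v hv => F.le v hv, fun v hv => F.le' v hv⟩

theorem finrank_V [Finite V] (ho : ∃ v, φ v = 1) :
    finrank (ZMod 2) V = finrank (ZMod 2) E + finrank (ZMod 2) E' + 1 := by
  obtain ⟨v, hv⟩ := ho
  have h1 := finrank_ker (φ := φ) (U := ⊤) ⟨v, trivial, hv⟩
  rw [top_inf_eq, finrank_top, F.ker_eq, F.finrank_sup le_rfl le_rfl] at h1
  exact h1

/-- elements of `E'` and `E` exchange their roles -/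
theorem swap : Fct D φ E' E where
  le := F.le'
  le' := F.le
  dis := fun v h1 h2 => F.dis v h2 h1
  sum := by
    intro v hv
    obtain ⟨e, he, h, hh, rfl⟩ := F.sum v hv
    exact ⟨h, hh, e, he, add_comm _ _⟩
  orth := fun e he h hh => (F.orth h hh e he).symm
  ind := by
    intro e he e1 he1 h hh h1 hh1 hq
    have := F.ind h hh h1 hh1 e he e1 he1 hq.symm
    exact hq.trans this

end Fct

open Classical in
/-- `1 - [h]` -/
noncomputable def ub (D : QData V Q) (φ : V →ₗ[ZMod 2] ZMod 2) (h : V) : ℕ :=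
  if Yy D φ h then 0 else 1

theorem ub_pos {h : V} (h1 : Yy D φ h) : ub D φ h = 0 := by
  classical
  unfold ub
  exact if_pos h1

theorem ub_neg {h : V} (h1 : ¬ Yy D φ h) : ub D φ h = 1 := by
  classical
  unfold ub
  exact if_neg h1

theorem ub_zero {h : V} : ub D φ h = 0 ↔ Yy D φ h := by
  by_cases h1 : Yy D φ h
  · exact iff_of_true (ub_pos h1) h1
  · exact iff_of_false (by rw [ub_neg h1]; exact one_ne_zero) h1

theorem ub_one {h : V} : ub D φ h = 1 ↔ ¬ Yy D φ h := by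
  by_cases h1 : Yy D φ h
  · exact iff_of_false (by rw [ub_pos h1]; exact zero_ne_one) (not_not.2 h1)
  · exact iff_of_true (ub_neg h1) h1

theorem ub_le (h : V) : ub D φ h ≤ 1 := by
  by_cases h1 : Yy D φ h
  · rw [ub_pos h1]; omega
  · rw [ub_neg h1]

theorem notY {h : V} (hh : ¬ Yy D φ h) : ∃ v, C D h v ∧ φ v = 1 := by
  by_contra hcon
  push Not at hcon
  apply hh
  intro v hv
  rcases zz (φ v) with h1 | h1
  · exact h1
  · exact absurd h1 (hcon v hv)

theorem finrank_ann [Finite V] (h : V) : finrank (ZMod 2) (D.ann h) =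
    finrank (ZMod 2) (D.ann h ⊓ LinearMap.ker φ : Submodule (ZMod 2) V) + ub D φ h := by
  by_cases hY : Yy D φ h
  · rw [ub_zero.2 hY, add_zero, inf_eq_left.2 fun v hv => hY v hv]
  · rw [ub_one.2 hY]
    obtain ⟨v, h1, h2⟩ := notY hY
    exact finrank_ker ⟨v, h1, h2⟩

/-- dimension of `ann (e + g)` -/
theorem Fct.finrank [Finite V] {E E' : Submodule (ZMod 2) V} (F : Fct D φ E E') {e g : V}
    (he : e ∈ E) (hg : g ∈ E') : Module.finrank (ZMod 2) (D.ann (e + g)) =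
      Module.finrank (ZMod 2) (D.ann e ⊓ E : Submodule (ZMod 2) V) +
      Module.finrank (ZMod 2) (D.ann g ⊓ E' : Submodule (ZMod 2) V) + ub D φ (e + g) := by
  rw [finrank_ann (φ := φ) (e + g), F.ann_inf he hg, F.finrank_sup inf_le_right inf_le_right]

/-! ### Factors with a rigid element -/

namespace Ext

variable {E : Submodule (ZMod 2) V} {τ : V →ₗ[ZMod 2] ZMod 2} {t : V} (X : Ext D E τ t)
include X

theorem ne : t ≠ 0 := by
  rintro rfl
  have := X.one
  rw [map_zero] at this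
  exact n01 this

/-- elements of `A` commute in `E` only with elements of `A` -/
theorem ann {a v : V} (ha0 : a ≠ 0) (hE : a ∈ E) (ha : τ a = 0) (hv : v ∈ E) (h : C D a v) :
    τ v = 0 := by
  rcases zz (τ v) with h1 | h1
  · exact h1
  · exfalso
    rcases X.rig v hv h1 a hE h.symm with h2 | h2
    · exact ha0 h2
    · rw [h2, h1] at ha
      exact n01 ha.symm

/-- another rigid element -/
theorem move {x : V} (hx : x ∈ E) (h : τ x = 1) : Ext D E τ x := ⟨hx, h, X.rig⟩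

theorem ann_eq (he : D.e = 0) {x : V} (hx : x ∈ E) (h : τ x = 1) :
    D.ann x ⊓ E = Submodule.span (ZMod 2) {x} := by
  apply le_antisymm
  · rintro v ⟨h1, h2⟩
    rcases X.rig x hx h v h2 h1 with rfl | rfl
    · exact Submodule.zero_mem _
    · exact Submodule.mem_span_singleton_self _
  · rw [Submodule.span_singleton_le_iff_mem]
    exact ⟨C.self he x, hx⟩

theorem fin_one (he : D.e = 0) {x : V} (hx : x ∈ E) (h : τ x = 1) :
    Module.finrank (ZMod 2) (D.ann x ⊓ E : Submodule (ZMod 2) V) = 1 := by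
  rw [X.ann_eq he hx h, finrank_span_singleton]
  rintro rfl
  rw [map_zero] at h
  exact n01 h

/-- a common symbol of `x` and `x + m` -/
theorem common {a m θ θ' : V} {E' : Submodule (ZMod 2) V} (S : LHs D φ) (F : Fct D φ E E')
    (ha : a ∈ E) (hm : m ∈ E) (hma : τ (m + a) = 1) (hθ : φ θ = 0) (hθ' : φ θ' = 0)
    (h : D.q a θ = D.q m θ') : C D a θ ∨ D.q a θ = D.q a m := by
  obtain ⟨y, h0, h1, h2⟩ := S.lk a θ m θ' (F.le a ha) hθ (F.le m hm) hθ' h
  obtain ⟨e, he, g, hg, rfl⟩ := F.sum y h0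
  rw [F.qE ha hg] at h1
  rw [F.qE hm hg] at h2
  have h3 : C D (m + a) e := q_eq'_iff.1 (h2.trans h1.symm)
  rcases X.rig (m + a) (E.add_mem hm ha) hma e he h3 with h4 | h4
  · left
    rw [h4] at h1
    exact h1.symm.trans (C.zero a)
  · right
    rw [← h1, h4, qadd (C.self S.he a)]

end Ext

end Pool.Agent.ETCLH
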