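import Pool.Agent.AST.Main
import Pool.Agent.ETCLH.EXTR

/-!
THEOREM LH (note 2403), complete: a minimal finite linked structure with `-1 = 1` which is not of
elementary type has no linked hyperplane.
-/

set_option autoImplicit false
set_option linter.unusedSectionVars false

namespace Pool.Agent.ETCLH

open QS Pool.Agent.RFT Pool.Agent.ETG Pool.Agent.RFN Pool.Agent.REG10 Pool.Agent.AST
open Pool.Agent.Helper58.PLine (QData)

/-- the kernel of `φ` is a linked hyperplane -/
def LinkedZ {V : Type} [AddCommGroup V] [Module (ZMod 2) V] (Z : V → V → Prop)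
    (φ : V →ₗ[ZMod 2] ZMod 2) : Prop :=
  φ ≠ 0 ∧ ∀ a b c d, φ a = 0 → φ b = 0 → φ c = 0 → φ d = 0 → EqQ Z a b c d →
    ∃ x, φ x = 0 ∧ Z a (b + x) ∧ Z c (d + x) ∧ Z (a + c) x

/-- a linked subspace -/
theorem LZ_sub {V : Type} [AddCommGroup V] [Module (ZMod 2) V] {Z : V → V → Prop} (hZ : LZ Z)
    (A : Submodule (ZMod 2) V) (h : ∀ a b c d : A, EqQ Z (a : V) b c d →
      ∃ x : A, Z (a : V) (b + x) ∧ Z (c : V) (d + x) ∧ Z (a + c : V) x) :
    LZ (fun a b : A => Z (a : V) (b : V)) := by
  have heq : ∀ a b c d : A, EqQ (fun a b : A => Z (a : V) (b : V)) a b c d ↔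
      EqQ Z (a : V) (b : V) (c : V) (d : V) := by
    intro a b c d
    constructor
    · rintro ⟨x, e1, e2, e3⟩
      exact ⟨x, e1, e2, e3⟩
    · intro h'
      obtain ⟨x, e1, e2, e3⟩ := h a b c d h'
      exact ⟨x, e1, e2, e3⟩
  refine ⟨fun a b => hZ.symm _ _, fun a => hZ.zero _, fun a b c => hZ.add _ _ _,
    fun a => hZ.alt _, ?_⟩
  intro a b c d a' b' e1 e2
  rw [heq] at e1 e2 ⊢
  exact hZ.trans _ _ _ _ _ _ e1 e2

theorem card_lt_of {V : Type} [AddCommGroup V] [Module (ZMod 2) V] [Finite V]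
    (A : Submodule (ZMod 2) V) {w : V} (hw : w ∉ A) : Nat.card A < Nat.card V := by
  classical
  have := Fintype.ofFinite V
  rw [Nat.card_eq_fintype_card, Nat.card_eq_fintype_card]
  refine Fintype.card_lt_of_injective_of_notMem (Subtype.val : A → V)
    Subtype.val_injective (b := w) ?_
  rintro ⟨v, rfl⟩
  exact hw v.2

/-- the standing facts -/
theorem mn_of {V : Type} [AddCommGroup V] [Module (ZMod 2) V] [Finite V] {Z : V → V → Prop}
    (hZ : LZ Z) (hsm : Smaller V) (hET : ¬ ETZ Z) : Mn (dat hZ) := by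
  obtain ⟨hr1, hrg⟩ := RED V Z hZ hsm hET
  have hz : ∀ a b, ETCP.C (dat hZ) a b ↔ Z a b := dat_zero hZ
  refine ⟨rfl, ?_, ?_, ?_, ?_⟩
  · intro x hx
    apply hr1 x
    intro v w
    rw [← hz, ← hz, ← hz]
    exact hx v w
  · intro ψ h0 hp
    apply hET
    apply ASZ V Z hZ hsm
    refine ⟨ψ, h0, fun x y => ?_⟩
    simp only [← hz]
    exact hp x y
  · -- small value groups
    intro t ht a
    by_contra hcon
    push Not at hcon
    apply hET
    intro S hS
    obtain ⟨hneg, e, he⟩ := hS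
    have hfin : Finite S.G := Finite.of_equiv _ e.toEquiv
    have hU := red_sub hsm S hneg e
    have hs1 : e (Multiplicative.ofAdd t) ≠ 1 := by
      intro h
      have h1 : Multiplicative.ofAdd t = 1 := e.injective (by rw [h, map_one])
      exact ht h1
    refine elem_of_ed S hneg hU (ETCP.small S hneg hs1 ?_)
    let f : Bool × Bool → S.G := fun b =>
      e (Multiplicative.ofAdd ((if b.1 then t else 0) + (if b.2 then a else 0)))
    have h2 : ({x | S.q (e (Multiplicative.ofAdd t)) x = S.zero} : Set S.G) ⊆ Set.range f := by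
      intro g hg
      obtain ⟨m, rfl⟩ := e.surjective g
      have h3 : Z t (Multiplicative.toAdd m) := (he t (Multiplicative.toAdd m)).1 hg
      by_cases c1 : Multiplicative.toAdd m = 0
      · refine ⟨(false, false), ?_⟩
        show e (Multiplicative.ofAdd ((0 : V) + 0)) = e m
        rw [add_zero, ← c1]
        rfl
      · by_cases c2 : Multiplicative.toAdd m = t
        · refine ⟨(true, false), ?_⟩
          show e (Multiplicative.ofAdd (t + 0)) = e m
          rw [add_zero, ← c2]
          rfl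
        · by_cases c3 : Multiplicative.toAdd m = a
          · refine ⟨(false, true), ?_⟩
            show e (Multiplicative.ofAdd (0 + a)) = e m
            rw [zero_add, ← c3]
            rfl
          · refine ⟨(true, true), ?_⟩
            show e (Multiplicative.ofAdd (t + a)) = e m
            rw [← hcon _ ((hz _ _).2 h3) c1 c2 c3]
            rfl
    have h4 : Nat.card {x // S.q (e (Multiplicative.ofAdd t)) x = S.zero} ≤
        Nat.card (Set.range f) :=
      Nat.card_mono (Set.toFinite _) h2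
    have h5 : Nat.card (Set.range f) ≤ Nat.card (Bool × Bool) :=
      Nat.card_le_card_of_surjective _ Set.rangeFactorization_surjective
    have h6 : Nat.card (Bool × Bool) = 4 := by simp
    omega
  · -- decompositions
    rintro A A' hdis hsum ⟨a0, ha0, ha00⟩ ⟨b0, hb0, hb00⟩ horth hind
    apply hET
    have hcompl : IsCompl A A' := by
      constructor
      · rw [Submodule.disjoint_def]
        exact hdis
      · rw [codisjoint_iff, eq_top_iff]
        intro v _
        obtain ⟨a, ha, a', ha', rfl⟩ := hsum v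
        exact Submodule.add_mem_sup ha ha'
    have lkA : ∀ (A A' : Submodule (ZMod 2) V), (∀ v, ∃ a ∈ A, ∃ a' ∈ A', v = a + a') →
        (∀ a ∈ A, ∀ a' ∈ A', ETCP.C (dat hZ) a a') → LZ (fun a b : A => Z (a : V) (b : V)) := by
      intro A A' hsum horth
      apply LZ_sub hZ
      rintro a b c d ⟨x, e1, e2, e3⟩
      obtain ⟨y, hy, y', hy', rfl⟩ := hsum x
      have key : ∀ (u : V), u ∈ A → ∀ w, Z u (w + (y + y')) → Z u (w + y) := by
        intro u hu w h1
        have h2 := hZ.add _ _ _ h1 ((hz _ _).1 (horth u hu y' hy'))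
        rwa [show w + (y + y') + y' = w + y by
          rw [← add_assoc, add_assoc, ZModModule.add_self, add_zero]] at h2
      refine ⟨⟨y, hy⟩, key a a.2 b e1, key c c.2 d e2, ?_⟩
      have h1 := key _ (A.add_mem a.2 c.2) 0 (by rw [zero_add]; exact e3)
      rwa [zero_add] at h1
    have z1 := lkA A A' hsum horth
    have z2 := lkA A' A (fun v => by
      obtain ⟨a, ha, a', ha', h⟩ := hsum v
      exact ⟨a', ha', a, ha, h.trans (add_comm _ _)⟩) (fun a ha a' ha' => (horth a' ha' a ha).symm)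
    have c1 : Nat.card A < Nat.card V := card_lt_of A (w := b0) (fun h => hb00 (hdis b0 h hb0))
    have c2 : Nat.card A' < Nat.card V := card_lt_of A' (w := a0) (fun h => ha00 (hdis a0 ha0 h))
    have e1 := hsm A _ z1 c1
    have e2 := hsm A' _ z2 c2
    refine qpr_proof qex_proof qis_proof V A A' Z _ _
      (Submodule.prodEquivOfIsCompl A A' hcompl).symm.toAddEquiv z1 z2 ?_ e1 e2
    intro a b
    obtain ⟨⟨a1, a2⟩, rfl⟩ := (Submodule.prodEquivOfIsCompl A A' hcompl).surjective a
    obtain ⟨⟨b1, b2⟩, rfl⟩ := (Submodule.prodEquivOfIsCompl A A' hcompl).surjective b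
    have hs : ∀ p : A × A', (Submodule.prodEquivOfIsCompl A A' hcompl).symm.toAddEquiv
        ((Submodule.prodEquivOfIsCompl A A' hcompl) p) = p := fun p =>
      (Submodule.prodEquivOfIsCompl A A' hcompl).symm_apply_apply p
    rw [hs, hs]
    have hv : ∀ p : A × A', (Submodule.prodEquivOfIsCompl A A' hcompl) p = (p.1 : V) + (p.2 : V) :=
      fun p => by simp
    rw [hv, hv]
    show Z ((a1 : V) + a2) ((b1 : V) + b2) ↔ Z (a1 : V) b1 ∧ Z (a2 : V) b2
    rw [← hz, ← hz, ← hz]
    constructor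
    · intro h
      have k1 := ETCP.q_eq h
      rw [qadd' (horth _ b1.2 _ a2.2).symm, qaddl' (horth _ a1.2 _ b2.2)] at k1
      have k2 := hind _ a1.2 _ b1.2 _ a2.2 _ b2.2 k1
      exact ⟨k2, k1.symm.trans k2⟩
    · rintro ⟨h1, h2⟩
      exact (h1.add (horth _ a1.2 _ b2.2)).add' ((horth _ b1.2 _ a2.2).symm.add h2)

/-- **THEOREM LH** for relations. -/
theorem LHZ {V : Type} [AddCommGroup V] [Module (ZMod 2) V] [Finite V] {Z : V → V → Prop}
    (hZ : LZ Z) (hsm : Smaller V) (h : ∃ φ, LinkedZ Z φ) : ETZ Z := by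
  by_contra hET
  obtain ⟨φ, hφ0, hlk⟩ := h
  have hM := mn_of hZ hsm hET
  obtain ⟨hr1, -⟩ := RED V Z hZ hsm hET
  set D := dat hZ with hD
  have hz : ∀ a b, D.q a b = D.z ↔ Z a b := dat_zero hZ
  have heq : ∀ a b c d, D.q a b = D.q c d ↔ EqQ Z a b c d := dat_eq hZ
  obtain ⟨w, hw⟩ : ∃ w, φ w = 1 := by
    by_contra hcon
    apply hφ0
    ext v
    rcases zz (φ v) with h1 | h1
    · exact h1
    · exact absurd ⟨v, h1⟩ hcon
  have hS : LHs D φ := by
    refine ⟨hM, ⟨w, hw⟩, ?_⟩
    intro a b c d ha hb hc hd h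
    obtain ⟨x, hx0, h1, h2, h3⟩ := hlk a b c d ha hb hc hd ((heq _ _ _ _).1 h)
    refine ⟨x, hx0, ?_, ?_⟩
    · exact Eq.symm ((D.add a b x).2 ((hz _ _).2 h1))
    · rw [h]
      exact Eq.symm ((D.add c d x).2 ((hz _ _).2 h2))
  let ZH : LinearMap.ker φ → LinearMap.ker φ → Prop := fun a b => Z a b
  have mH : ∀ a : LinearMap.ker φ, φ (a : V) = 0 := fun a => LinearMap.mem_ker.1 a.2
  have heqH : ∀ a b c d : LinearMap.ker φ, EqQ ZH a b c d ↔
      EqQ Z (a : V) (b : V) (c : V) (d : V) := by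
    intro a b c d
    constructor
    · rintro ⟨x, e1, e2, e3⟩
      exact ⟨x, e1, e2, e3⟩
    · intro h
      obtain ⟨x, hx0, h1, h2, h3⟩ := hlk _ _ _ _ (mH a) (mH b) (mH c) (mH d) h
      exact ⟨⟨x, hx0⟩, h1, h2, h3⟩
  have hZH : LZ ZH := by
    apply LZ_sub hZ
    intro a b c d h
    obtain ⟨x, hx0, h1, h2, h3⟩ := hlk _ _ _ _ (mH a) (mH b) (mH c) (mH d) h
    exact ⟨⟨x, hx0⟩, h1, h2, h3⟩
  have hcard : Nat.card (LinearMap.ker φ) < Nat.card V := card_lt_of _ (w := w) (by
    rw [LinearMap.mem_ker, hw]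
    exact n01.symm)
  have hHET := hsm _ _ hZH hcard
  have hsep := (slz_proof qlz_proof _ _ hZH hHET).1
  obtain ⟨B, _, _, _, qH, hqH, hqZ, -⟩ := lzq_proof _ _ hZH hsep
  have hqeq : ∀ a b c d, qH a b = qH c d ↔ EqQ ZH a b c d := by
    intro a b c d
    rw [← LKZ_.eqQ_iff hqH]
    have : (fun v w => qH v w = 0) = ZH := by
      funext v w
      exact propext (hqZ v w).symm
    rw [this]
  let q : V →ₗ[ZMod 2] V →ₗ[ZMod 2] B := qH.compl₁₂ (prK φ hw) (prK φ hw)
  have hqa : ∀ (a b : V) (ha : φ a = 0) (hb : φ b = 0), q a b = qH ⟨a, ha⟩ ⟨b, hb⟩ := by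
    intro a b ha hb
    show qH (prK φ hw a) (prK φ hw b) = _
    rw [prK_H hw ha, prK_H hw hb]
  have cmp : ∀ a b c d, φ a = 0 → φ b = 0 → φ c = 0 → φ d = 0 →
      (q a b = q c d ↔ D.q a b = D.q c d) := by
    intro a b c d ha hb hc hd
    rw [hqa a b ha hb, hqa c d hc hd, hqeq, heqH, heq]
  have cmp0 : ∀ a b, φ a = 0 → φ b = 0 → (q a b = 0 ↔ Z a b) := by
    intro a b ha hb
    have h := cmp a b 0 0 ha hb (map_zero φ) (map_zero φ)
    rw [map_zero, D.q_zero, hz] at h
    exact h
  have hSH : SitH q φ := by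
    refine ⟨?_, ?_, ?_⟩
    · intro x
      show qH (prK φ hw x) (prK φ hw x) = 0
      rw [hqH.diag, map_zero]
    · intro a b c d ha hb hc hd h
      obtain ⟨x, h0, h1, h2⟩ := hS.lk a b c d ha hb hc hd ((cmp a b c d ha hb hc hd).1 h)
      exact ⟨x, h0, (cmp _ _ _ _ ha h0 ha hb).2 h1, (cmp _ _ _ _ hc h0 ha hb).2 h2⟩
    · intro x hx hx'
      have h1 : ∀ y, φ y = 0 → Z x y := fun y hy => (cmp0 x y hx hy).1 (hx' y hy)
      apply hr1
      intro v w'
      rcases zz (φ v) with h2 | h2
      · exact Or.inl (h1 v h2)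
      · rcases zz (φ w') with h3 | h3
        · exact Or.inr (Or.inl (h1 w' h3))
        · exact Or.inr (Or.inr (h1 _ (ph11 h2 h3)))
  have hOS : OSZ (Zq (q.domRestrict₁₂ (LinearMap.ker φ) (LinearMap.ker φ))) := by
    have h3 : Zq (q.domRestrict₁₂ (LinearMap.ker φ) (LinearMap.ker φ)) = ZH := by
      funext a b
      refine propext ?_
      show q (a : V) (b : V) = 0 ↔ Z a b
      exact cmp0 _ _ (mH a) (mH b)
    rw [h3]
    exact OSS _ _ hZH hHET
  obtain ⟨k, C, hC⟩ := CMPH V B q φ hφ0 hSH hOS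
  exact core2 hS hSH cmp C hC

/-! ### Quaternionic structures -/

/-- A linked hyperplane: a subgroup of index two which is itself linked. -/
def LinkedHyp (S : QStruct) (H : Subgroup S.G) : Prop :=
  H.index = 2 ∧ ∀ a b c d, a ∈ H → b ∈ H → c ∈ H → d ∈ H → S.q a b = S.q c d →
    ∃ x ∈ H, S.q a b = S.q a x ∧ S.q c d = S.q c x

theorem linked_fun (S : QStruct) (hneg : S.neg = 1) (H : Subgroup S.G) (h : LinkedHyp S H) :
    ∃ φ, LinkedZ (ZS S) φ := by
  obtain ⟨h2, h3⟩ := h
  have hmul : ∀ a b : S.G, a ∉ H → b ∉ H → a * b ∈ H := fun a b ha hb =>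
    (Subgroup.mul_mem_iff_of_index_two h2).2 (iff_of_false ha hb)
  classical
  let f : Additive S.G →+ ZMod 2 :=
    { toFun := fun a => if Additive.toMul a ∈ H then 0 else 1
      map_zero' := by
        show (if (1 : S.G) ∈ H then (0 : ZMod 2) else 1) = 0
        rw [if_pos H.one_mem]
      map_add' := by
        intro a b
        show (if Additive.toMul a * Additive.toMul b ∈ H then (0 : ZMod 2) else 1) = _
        by_cases ha : Additive.toMul a ∈ H <;> by_cases hb : Additive.toMul b ∈ H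
        · rw [if_pos ha, if_pos hb, if_pos (H.mul_mem ha hb), add_zero]
        · rw [if_pos ha, if_neg hb, if_neg, zero_add]
          intro h
          exact hb ((Subgroup.mul_mem_iff_of_index_two h2).1 h |>.1 ha)
        · rw [if_neg ha, if_pos hb, if_neg, add_zero]
          intro h
          exact ha ((Subgroup.mul_mem_iff_of_index_two h2).1 h |>.2 hb)
        · rw [if_neg ha, if_neg hb, if_pos (hmul _ _ ha hb)]
          decide }
  let φ : Additive S.G →ₗ[ZMod 2] ZMod 2 := f.toZModLinearMap 2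
  have hφ : ∀ a, φ a = 0 ↔ Additive.toMul a ∈ H := by
    intro a
    show (if Additive.toMul a ∈ H then (0 : ZMod 2) else 1) = 0 ↔ _
    split_ifs with h
    · exact iff_of_true rfl h
    · exact iff_of_false one_ne_zero h
  refine ⟨φ, ?_, ?_⟩
  · intro h0
    have hH : H ≠ ⊤ := by
      rintro rfl
      rw [Subgroup.index_top] at h2
      exact absurd h2 (by norm_num)
    apply hH
    rw [Subgroup.eq_top_iff']
    intro a
    apply (hφ (Additive.ofMul a)).1
    rw [h0, LinearMap.zero_apply]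
  · intro a b c d ha hb hc hd h
    have hz : ∀ a b, (toD S hneg).q a b = (toD S hneg).z ↔ ZS S a b := fun a b => Iff.rfl
    have h' : S.q (Additive.toMul a) (Additive.toMul b) =
        S.q (Additive.toMul c) (Additive.toMul d) := by
      obtain ⟨x, e1, e2, e3⟩ := h
      have k1 : (toD S hneg).q a b = (toD S hneg).q a x := ((toD S hneg).add a b x).2 e1
      have k2 : (toD S hneg).q c d = (toD S hneg).q c x := ((toD S hneg).add c d x).2 e2
      have k3 : (toD S hneg).q a x = (toD S hneg).q c x := ETCP.q_eq'_iff.2 e3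
      exact (k1.trans k3).trans k2.symm
    obtain ⟨x, hx, h4, h5⟩ := h3 _ _ _ _ ((hφ a).1 ha) ((hφ b).1 hb) ((hφ c).1 hc)
      ((hφ d).1 hd) h'
    refine ⟨Additive.ofMul x, (hφ _).2 hx, ?_, ?_, ?_⟩
    · exact ((toD S hneg).add a b (Additive.ofMul x)).1 h4
    · exact ((toD S hneg).add c d (Additive.ofMul x)).1 h5
    · have k3 : (toD S hneg).q a (Additive.ofMul x) = (toD S hneg).q c (Additive.ofMul x) :=
        h4.symm.trans (h'.trans h5)
      exact ETCP.q_eq'_iff.1 k3

/-- **THEOREM LH.** A structure with `-1 = 1` all of whose smaller structures are of elementary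
type and which has a linked hyperplane is of elementary type. -/
theorem top_linked (S : QStruct) [Finite S.G] (hneg : S.neg = 1)
    (hT : ∀ T : QStruct, Finite T.G → T.neg = 1 → Nat.card T.G < Nat.card S.G → ElemType T)
    (h : ∃ H, LinkedHyp S H) : ElemType S := by
  obtain ⟨H, hH⟩ := h
  have hf : Finite (Additive S.G) := (inferInstance : Finite S.G)
  exact LHZ (lzs S hneg) (smaller S hT) (linked_fun S hneg H hH) S (qof S hneg)

/-- **The elementary type conjecture for `-1 = 1` from linked hyperplanes.** -/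
theorem all_of_linked
    (h : ∀ S : QStruct, Finite S.G → S.neg = 1 → (∃ g : S.G, g ≠ 1) → ∃ H, LinkedHyp S H) :
    ∀ S : QStruct, Finite S.G → S.neg = 1 → ElemType S :=
  all_of (fun S _ h2 h3 h4 => top_linked S h2 h3 h4) h

/-- the same, only for minimal counterexamples -/
theorem all_of_linked_min
    (h : ∀ S : QStruct, Finite S.G → S.neg = 1 →
      (∀ T : QStruct, Finite T.G → T.neg = 1 → Nat.card T.G < Nat.card S.G → ElemType T) →
      ¬ ElemType S → ∃ H, LinkedHyp S H) :
    ∀ S : QStruct, Finite S.G → S.neg = 1 → ElemType S := by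
  intro S hf hneg
  induction hn : Nat.card S.G using Nat.strong_induction_on generalizing S with
  | _ n ih =>
    subst hn
    have hT : ∀ T : QStruct, Finite T.G → T.neg = 1 → Nat.card T.G < Nat.card S.G →
        ElemType T := fun T hf' hn' hc => ih (Nat.card T.G) hc T hf' hn' rfl
    by_contra hS
    exact hS (top_linked S hneg hT (h S hf hneg hT hS))

end Pool.Agent.ETCLH
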