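import Pool.Agent.ETCLH.FAC

/-!
THEOREM LH (note 2403), section 1: no factor is local.
-/

set_option autoImplicit false
set_option linter.unusedSectionVars false

namespace Pool.Agent.ETCLH

open Module
open Pool.Agent.Helper58.PLine (QData)
open Pool.Agent.ETCP Pool.Agent.LSS Pool.Agent.RDC

section pred
variable {M : Type} [AddCommGroup M] [Module (ZMod 2) M]

/-- functionals from predicates -/
theorem exists_fun (P : M → Prop) (h0 : P 0) (h : ∀ a b, P (a + b) ↔ (P a ↔ P b)) :
    ∃ γ : M →ₗ[ZMod 2] ZMod 2, ∀ a, γ a = 0 ↔ P a := by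
  classical
  let f : M →+ ZMod 2 :=
    { toFun := fun a => if P a then 0 else 1
      map_zero' := by rw [if_pos h0]
      map_add' := by
        intro a b
        by_cases ha : P a <;> by_cases hb : P b
        · rw [if_pos ha, if_pos hb, if_pos ((h a b).2 ⟨fun _ => hb, fun _ => ha⟩), add_zero]
        · rw [if_pos ha, if_neg hb, if_neg (fun h' => hb (((h a b).1 h').1 ha)), zero_add]
        · rw [if_neg ha, if_pos hb, if_neg (fun h' => ha (((h a b).1 h').2 hb)), add_zero]
        · rw [if_neg ha, if_neg hb, if_pos ((h a b).2 ⟨fun h' => absurd h' ha,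
            fun h' => absurd h' hb⟩)]
          decide }
  refine ⟨f.toZModLinearMap 2, fun a => ?_⟩
  show (if P a then (0 : ZMod 2) else 1) = 0 ↔ _
  split_ifs with h1
  · exact iff_of_true rfl h1
  · exact iff_of_false one_ne_zero h1

end pred

variable {V Q : Type} [AddCommGroup V] [Module (ZMod 2) V]
variable {D : QData V Q} {φ : V →ₗ[ZMod 2] ZMod 2}

/-- `C` for sums on the left, when the values are `0` or `c` -/
theorem C_add_iff {c : Q} (hc : c ≠ D.z) {x y k : V} (hx : C D x k ∨ D.q x k = c)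
    (hy : C D y k ∨ D.q y k = c) : C D (x + y) k ↔ (C D x k ↔ C D y k) := by
  rcases hx with hx | hx <;> rcases hy with hy | hy
  · exact iff_of_true (hx.add' hy) (iff_of_true hx hy)
  · have h1 : ¬ C D y k := fun h => hc (hy.symm.trans h)
    refine iff_of_false (fun h => h1 ?_) (fun h => h1 (h.1 hx))
    exact (h.add' hx).of_eq (by (first | rfl | exact eo (by abel_nf <;> simp only [ch2, ch3, ch4, ch5, ch6, add_zero, zero_add]))) rfl
  · have h1 : ¬ C D x k := fun h => hc (hx.symm.trans h)
    refine iff_of_false (fun h => h1 ?_) (fun h => h1 (h.2 hy))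
    exact (h.add' hy).of_eq (by (first | rfl | exact eo (by abel_nf <;> simp only [ch2, ch3, ch4, ch5, ch6, add_zero, zero_add]))) rfl
  · have h1 : ¬ C D x k := fun h => hc (hx.symm.trans h)
    have h2 : ¬ C D y k := fun h => hc (hy.symm.trans h)
    exact iff_of_true (q_eq'_iff.1 (hx.trans hy.symm)) (iff_of_false h1 h2)

theorem C_add_iff' {c : Q} (hc : c ≠ D.z) {x k k' : V} (hx : C D x k ∨ D.q x k = c)
    (hy : C D x k' ∨ D.q x k' = c) : C D x (k + k') ↔ (C D x k ↔ C D x k') := by
  have e : ∀ a b : V, C D a b ↔ C D b a := fun a b => ⟨C.symm, C.symm⟩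
  rw [e x (k + k'), e x k, e x k']
  apply C_add_iff hc
  · exact hx.imp C.symm (fun h => by rw [D.symm, h])
  · exact hy.imp C.symm (fun h => by rw [D.symm, h])

/-- a functional given by `u` is given by an element of `E` -/
theorem exists_rep [Finite V] {c : Q} (hc : c ≠ D.z) {E G : Submodule (ZMod 2) V} {u : V}
    (hG : ∀ k ∈ G, C D u k ∨ D.q u k = c) (hE : ∀ x ∈ E, ∀ k ∈ G, C D x k ∨ D.q x k = c)
    (h0 : ∀ k ∈ G, (∀ x ∈ E, C D x k) → C D u k) : ∃ x ∈ E, ∀ k ∈ G, C D (u + x) k := by
  obtain ⟨γ, hγ⟩ := exists_fun (M := G) (fun k => C D u (k : V)) (C.zero u)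
    (fun a b => C_add_iff' hc (hG a a.2) (hG b b.2))
  let W : Submodule (ZMod 2) (G →ₗ[ZMod 2] ZMod 2) :=
    { carrier := {f | ∃ x ∈ E, ∀ k : G, f k = 0 ↔ C D x (k : V)}
      add_mem' := by
        rintro f f' ⟨x, hx, h1⟩ ⟨x', hx', h1'⟩
        refine ⟨x + x', E.add_mem hx hx', fun k => ?_⟩
        rw [C_add_iff hc (hE x hx k k.2) (hE x' hx' k k.2), ← h1, ← h1', LinearMap.add_apply]
        generalize f k = a
        generalize f' k = b
        revert a b
        decide
      zero_mem' := ⟨0, E.zero_mem, fun k => iff_of_true rfl (C.zero' _)⟩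
      smul_mem' := by
        rintro a f ⟨x, hx, h1⟩
        rcases zz a with rfl | rfl
        · rw [zero_smul]
          exact ⟨0, E.zero_mem, fun k => iff_of_true rfl (C.zero' _)⟩
        · rw [one_smul]
          exact ⟨x, hx, h1⟩ }
  have hW : γ ∈ W := by
    have e1 := Subspace.dualCoannihilator_dualAnnihilator_eq (W := W)
    rw [← e1, Submodule.mem_dualAnnihilator]
    intro k hk
    rw [hγ]
    apply h0 k k.2
    intro x hx
    obtain ⟨f, hf⟩ := exists_fun (M := G) (fun k => C D x (k : V)) (C.zero x)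
      (fun a b => C_add_iff' hc (hE x hx a a.2) (hE x hx b b.2))
    have h1 : f k = 0 := (Submodule.mem_dualCoannihilator _).1 hk f ⟨x, hx, hf⟩
    exact (hf k).1 h1
  obtain ⟨x, hx, h1⟩ := hW
  refine ⟨x, hx, fun k hk => ?_⟩
  rw [C_add_iff hc (hG k hk) (hE x hx k hk)]
  have h2 := h1 ⟨k, hk⟩
  rw [hγ] at h2
  exact h2

/-- Section 1 -/
theorem S1 [Finite V] (S : LHs D φ) {E E' : Submodule (ZMod 2) V} (F : Fct D φ E E') {c : Q}
    (L : LocF D E c) (hE : ∃ e ∈ E, e ≠ 0) : False := by
  obtain ⟨x, hx, hx0⟩ := hE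
  obtain ⟨x1, hx1, hxx1⟩ := L.nd x hx hx0
  have he := S.he
  have hc := L.ne
  have hx00 := F.le x hx
  -- values in `H`
  have val : ∀ e ∈ E, ∀ w, φ w = 0 → C D e w ∨ D.q e w = c := by
    intro e hee w hw
    obtain ⟨e1, he1, h1, hh1, rfl⟩ := F.sum w hw
    have e2 := F.qE (e1 := e1) hee hh1
    rcases L.val e hee e1 he1 with h | h
    · exact Or.inl (e2.trans h)
    · exact Or.inr (e2.trans h)
  have YE : ∀ e ∈ E, e ≠ 0 → Yy D φ e := by
    intro e hee he0
    by_contra hn
    obtain ⟨v, hv1, hv2⟩ := notY hn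
    apply he0
    apply S.r1
    have key : ∀ u, C D e u ∨ D.q e u = c := by
      intro u
      rcases zz (φ u) with h | h
      · exact val e hee u h
      · have := val e hee (u + v) (ph11 h hv2)
        unfold C at this
        rwa [qadd hv1] at this
    intro v' w'
    rcases key v' with h | h
    · exact Or.inl h
    · rcases key w' with h' | h'
      · exact Or.inr (Or.inl h')
      · exact Or.inr (Or.inr (q_eq_iff.1 (h.trans h'.symm)))
  have hxY := YE x hx hx0
  have hnx : ¬ C D x x1 := fun h => hc (hxx1.symm.trans h)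
  -- a slot of `c` outside `H`
  obtain ⟨a, b, ha0, hb1, hab, hxa⟩ : ∃ a b, φ a = 0 ∧ φ b = 1 ∧ C D a b ∧ ¬ C D x a := by
    have hr : ∃ a b, ¬ C D x a ∧ ¬ C D x b ∧ ¬ C D x (a + b) := by
      by_contra hcon
      push Not at hcon
      apply hx0
      apply S.r1
      intro v w
      by_cases h1 : C D x v
      · exact Or.inl h1
      · by_cases h2 : C D x w
        · exact Or.inr (Or.inl h2)
        · exact Or.inr (Or.inr (hcon v w h1 h2))
    by_cases hiso : ETCISO.Iso D x
    · exfalso
      obtain ⟨ψ, h1, -, h3⟩ := ETCISO.prime_of_isolated he hiso hr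
      exact S.np ψ h1 h3
    · unfold ETCISO.Iso at hiso
      push Not at hiso
      obtain ⟨v, hv, y, hvy, hxy, hxyv⟩ := hiso
      rcases zz (φ v) with h1 | h1
      · rcases zz (φ y) with h2 | h2
        · exfalso
          apply hxyv
          have e1 := (val x hx v h1).resolve_left hv
          have e2 := (val x hx y h2).resolve_left hxy
          exact q_eq_iff.1 (e2.trans e1.symm)
        · exact ⟨v, y, h1, h2, hvy, hv⟩
      · rcases zz (φ y) with h2 | h2
        · exact ⟨y, v, h2, h1, hvy.symm, hxy⟩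
        · exact ⟨y + v, y, ph11 h2 h1, h2, (C.self he y).add' hvy, hxyv⟩
  have hxa' : D.q x a = c := (val x hx a ha0).resolve_left hxa
  set u1 := x + b with hu1
  have hu1o : φ u1 = 1 := ph01 hx00 hb1
  have hu1a : D.q u1 a = c := by
    rw [hu1, qadd' hab.symm, hxa']
  -- the subgroup `G`
  let G := Dx D c u1 ⊓ LinearMap.ker φ
  have hG : ∀ k, k ∈ G ↔ (C D u1 k ∨ D.q u1 k = c) ∧ φ k = 0 := fun k => Iff.rfl
  obtain ⟨x0, hx0E, hu0⟩ := exists_rep hc (E := E) (G := G) (u := u1)
    (fun k hk => ((hG k).1 hk).1) (fun y hy k hk => val y hy k ((hG k).1 hk).2) (by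
      intro k hk h1
      obtain ⟨h2, h3⟩ := (hG k).1 hk
      obtain ⟨e, hee, h, hh, rfl⟩ := F.sum k h3
      have he0 : e = 0 := by
        by_contra he0
        obtain ⟨e1, he1, h4⟩ := L.nd e hee he0
        have h5 := h1 e1 he1
        rw [C, F.qE he1 hh, D.symm, h4] at h5
        exact hc h5
      subst he0
      rw [zero_add] at h2 ⊢
      rcases h2 with h2 | h2
      · exact h2
      · exfalso
        apply F.nslot hxY hx hx1 hnx hh u1
        rw [D.symm, h2, hxx1])
  set u0 := u1 + x0 with hu0d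
  have hu0o : φ u0 = 1 := ph10 hu1o (F.le x0 hx0E)
  -- `c` is not a value of `u0`
  have hcu0 : ∀ y, D.q u0 y ≠ c := by
    intro y hy
    obtain ⟨t, ht0, ht1, ht2⟩ := slotH hxY (F.le x1 hx1) hxx1 hy
    have htG : t ∈ G := by
      rw [hG]
      refine ⟨?_, ht0⟩
      have e1 : u1 = u0 + x0 := by rw [hu0d]; (first | rfl | exact eo (by abel_nf <;> simp only [ch2, ch3, ch4, ch5, ch6, add_zero, zero_add]))
      have h1 := C_add_iff hc (x := u0) (y := x0) (k := t) (Or.inr ht2) (val x0 hx0E t ht0)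
      rw [← e1] at h1
      rcases val x0 hx0E t ht0 with h2 | h2
      · right
        rw [e1, qadd' h2, ht2]
      · left
        rw [h1]
        exact iff_of_false (fun h => hc (ht2.symm.trans h)) (fun h => hc (h2.symm.trans h))
    have := hu0 t htG
    exact hc (ht2.symm.trans this)
  have hxu0 : ¬ C D x u0 := by
    intro h
    have := hxY _ h
    rw [hu0o] at this
    exact n01 this.symm
  -- a common neighbour of `x` and `u1`
  obtain ⟨t, ht0, ht1, ht2⟩ := slotH hxY (F.le x1 hx1) hxx1 hu1a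
  have htG : t ∈ G := (hG t).2 ⟨Or.inr ht2, ht0⟩
  have hH : ∀ w, φ w = 0 → ∃ a b, C D x a ∧ C D u0 b ∧ w = a + b := by
    intro w hw
    rcases val x hx w hw with h1 | h1
    · exact ⟨w, 0, h1, C.zero _, (add_zero w).symm⟩
    · exact ⟨w + t, t, q_eq_iff.1 (h1.trans ht1.symm), hu0 t htG, by (first | rfl | exact eo (by abel_nf <;> simp only [ch2, ch3, ch4, ch5, ch6, add_zero, zero_add]))⟩
  apply S.noPerf hxu0
  · intro _ w _ _
    rcases zz (φ w) with h1 | h1
    · exact hH w h1
    · obtain ⟨a, b, h2, h3, h4⟩ := hH (w + u0) (ph11 h1 hu0o)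
      refine ⟨a, b + u0, h2, h3.add (C.self he u0), ?_⟩
      have : w = (w + u0) + u0 := by (first | rfl | exact eo (by abel_nf <;> simp only [ch2, ch3, ch4, ch5, ch6, add_zero, zero_add]))
      rw [this, h4]; (first | rfl | exact eo (by abel_nf <;> simp only [ch2, ch3, ch4, ch5, ch6, add_zero, zero_add]))
  · -- first for elements of `H`
    have hH2 : ∀ v, φ v = 0 → C D (x + u0) v → C D u0 v := by
      intro v hv h1
      have e1 : D.q x v = D.q u0 v := q_eq'_iff.2 h1
      rcases val x hx v hv with h2 | h2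
      · exact e1.symm.trans h2
      · exact absurd (e1.symm.trans h2) (hcu0 v)
    intro v hv
    rcases zz (φ v) with h1 | h1
    · exact Or.inl (hH2 v h1 hv)
    · right
      have h2 := hH2 (v + (x + u0)) (ph11 h1 (ph01 hx00 hu0o)) (hv.add (C.self he _))
      have h3 : C D u0 (v + x) := (h2.add (C.self he u0)).of_eq rfl (by (first | rfl | exact eo (by abel_nf <;> simp only [ch2, ch3, ch4, ch5, ch6, add_zero, zero_add])))
      rw [D.symm x u0]
      exact q_eq h3

end Pool.Agent.ETCLH
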