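import Pool.Agent.ETCLH.FAC

/-!
THEOREM LH (note 2403), sections 3 and 4: dimension counts.
-/

set_option autoImplicit false
set_option linter.unusedSectionVars false

namespace Pool.Agent.ETCLH

open Module
open Pool.Agent.Helper58.PLine (QData)
open Pool.Agent.ETCP Pool.Agent.LSS Pool.Agent.RDC

variable {V Q : Type} [AddCommGroup V] [Module (ZMod 2) V]
variable {D : QData V Q} {φ : V →ₗ[ZMod 2] ZMod 2}
variable {E E' : Submodule (ZMod 2) V} {τ : V →ₗ[ZMod 2] ZMod 2} {t : V}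

theorem finrank_sup_span_le [Finite V] (I : Submodule (ZMod 2) V) (w : V) :
    Module.finrank (ZMod 2) (I ⊔ Submodule.span (ZMod 2) {w} : Submodule (ZMod 2) V) ≤
      Module.finrank (ZMod 2) I + 1 := by
  by_cases h : w ∈ I
  · have : I ⊔ Submodule.span (ZMod 2) {w} = I := by
      apply sup_eq_left.2
      rw [Submodule.span_singleton_le_iff_mem]
      exact h
    rw [this]
    omega
  · exact (finrank_add_one h).le

theorem Dc_congr {c c' : Q} (h : c = c') (hc : ∃ s, SlQ D c s) (hc' : ∃ s, SlQ D c' s) :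
    Module.finrank (ZMod 2) (DcQ D c hc) = Module.finrank (ZMod 2) (DcQ D c' hc') := by
  subst h
  rfl

theorem ann_zero : D.ann (0 : V) = ⊤ := by
  rw [eq_top_iff]
  intro v _
  exact C.zero' v

/-- dimension of `ann e` -/
theorem Fct.finE [Finite V] (F : Fct D φ E E') {e : V} (he : e ∈ E) :
    Module.finrank (ZMod 2) (D.ann e) =
      Module.finrank (ZMod 2) (D.ann e ⊓ E : Submodule (ZMod 2) V) +
      Module.finrank (ZMod 2) E' + ub D φ e := by
  have h := F.finrank he E'.zero_mem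
  rw [add_zero, ann_zero, top_inf_eq] at h
  exact h

theorem Ext.nC (X : Ext D E τ t) {x a : V} (hx : x ∈ E) (hx1 : τ x = 1) (ha : a ∈ E)
    (ha0 : a ≠ 0) (hta : τ a = 0) : ¬ C D x a := by
  intro h
  rcases X.rig x hx hx1 a ha h with h1 | h1
  · exact ha0 h1
  · rw [h1, hx1] at hta
    exact n01 hta.symm

theorem Ext.nC' (he : D.e = 0) (X : Ext D E τ t) {x a : V} (hx : x ∈ E) (hx1 : τ x = 1)
    (ha : a ∈ E) (ha0 : a ≠ 0) (hta : τ a = 0) : ¬ C D (x + a) a := by
  intro h
  apply X.nC hx hx1 ha ha0 hta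
  exact (h.add' (C.self he a)).of_eq (by (first | rfl | exact eo (by abel_nf <;> simp only [ch2, ch3, ch4, ch5, ch6, add_zero, zero_add]))) rfl

/-- Section 3 -/
theorem S3 [Finite V] (S : LHs D φ) (F : Fct D φ E E') (X : Ext D E τ t) {a : V} (ha : a ∈ E)
    (ha0 : a ≠ 0) (hta : τ a = 0) (hr : ∀ b ∈ E, τ b = 0 → C D a b) : Yy D φ a := by
  have he := S.he
  have h1 := X.nC X.mem X.one ha ha0 hta
  have h2 := X.nC' he X.mem X.one ha ha0 hta
  have k1 := S.K3 h1 ⟨t, a, rfl⟩
  have k2 := S.K3 h2 ⟨t + a, a, rfl⟩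
  rw [show t + a + a = t by (first | rfl | exact eo (by abel_nf <;> simp only [ch2, ch3, ch4, ch5, ch6, add_zero, zero_add]))] at k2
  have l1 := Submodule.finrank_le (DcQ D (D.q t a) ⟨t, a, rfl⟩)
  have l2 := Submodule.finrank_le (DcQ D (D.q (t + a) a) ⟨t + a, a, rfl⟩)
  have l3 := F.finrank_V S.out
  have m1 := F.finE X.mem
  have m2 := F.finE (E.add_mem X.mem ha)
  have m3 := F.finE ha
  rw [X.fin_one he X.mem X.one] at m1
  rw [X.fin_one he (E.add_mem X.mem ha) (ph10 X.one hta)] at m2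
  have m4 := finrank_le_ker τ E
  have m5 : Module.finrank (ZMod 2) (E ⊓ LinearMap.ker τ : Submodule (ZMod 2) V) ≤
      Module.finrank (ZMod 2) (D.ann a ⊓ E : Submodule (ZMod 2) V) := by
    apply Submodule.finrank_mono
    rintro b ⟨hb, hb'⟩
    exact ⟨hr b hb hb', hb⟩
  apply ub_zero.1
  omega

/-- an upper bound for `D(c) ∩ H` -/
theorem Dc_inf_le [Finite V] (S : LHs D φ) (F : Fct D φ E E') (X : Ext D E τ t) {x : V}
    (hx : x ∈ E) (hx1 : τ x = 1) (hY : Yy D φ x) {a : V} (ha : a ∈ E)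
    (hta : τ a = 0) (hc : ∃ s, SlQ D (D.q x a) s) :
    Module.finrank (ZMod 2) (DcQ D (D.q x a) hc ⊓ LinearMap.ker φ : Submodule (ZMod 2) V) ≤
      Module.finrank (ZMod 2) (D.ann a ⊓ E : Submodule (ZMod 2) V) +
      Module.finrank (ZMod 2) E' + 1 := by
  have he := S.he
  have h1 : DcQ D (D.q x a) hc ⊓ LinearMap.ker φ ≤
      ((D.ann a ⊓ E) ⊔ E') ⊔ Submodule.span (ZMod 2) {x} := by
    rintro v ⟨hv, hv0⟩
    obtain ⟨w, w', h1, h2, h3⟩ := (mem_Dc he).1 hv
    obtain ⟨ew, hew, hw, hhw, rfl⟩ := F.sum w (hY w h1)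
    obtain ⟨ew', hew', hw', hhw', rfl⟩ := F.sum w' (hY w' h2)
    obtain ⟨ev, hev, hv', hhv, rfl⟩ := F.sum v hv0
    have h1' : C D x ew := by rwa [C, F.qE hx hhw] at h1
    have h2' : C D x ew' := by rwa [C, F.qE hx hhw'] at h2
    have h4 : C D ((a + ew) + hw) ((ev + ew') + (hv' + hw')) := h3.of_eq (by (first | rfl | exact eo (by abel_nf <;> simp only [ch2, ch3, ch4, ch5, ch6, add_zero, zero_add]))) (by (first | rfl | exact eo (by abel_nf <;> simp only [ch2, ch3, ch4, ch5, ch6, add_zero, zero_add])))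
    have h5 := (F.cc (E.add_mem ha hew) (E.add_mem hev hew') hhw (E'.add_mem hhv hhw') h4).1
    have hxs : x ∈ Submodule.span (ZMod 2) {x} := Submodule.mem_span_singleton_self x
    have fin1 : ∀ u ∈ E, C D a u → u + hv' ∈
        ((D.ann a ⊓ E) ⊔ E') ⊔ Submodule.span (ZMod 2) {x} := fun u hu hau =>
      Submodule.mem_sup_left (Submodule.add_mem_sup ⟨hau, hu⟩ hhv)
    have fin2 : ∀ u ∈ E, C D a u → u + x + hv' ∈
        ((D.ann a ⊓ E) ⊔ E') ⊔ Submodule.span (ZMod 2) {x} := by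
      intro u hu hau
      have := Submodule.add_mem_sup (S := (D.ann a ⊓ E) ⊔ E')
        (Submodule.add_mem_sup (S := D.ann a ⊓ E) (T := E') ⟨hau, hu⟩ hhv) hxs
      rwa [show u + hv' + x = u + x + hv' by (first | rfl | exact eo (by abel_nf <;> simp only [ch2, ch3, ch4, ch5, ch6, add_zero, zero_add]))] at this
    rcases X.rig x hx hx1 ew hew h1' with rfl | rfl
    · rw [add_zero] at h5
      rcases X.rig x hx hx1 ew' hew' h2' with rfl | rfl
      · rw [add_zero] at h5
        exact fin1 ev hev h5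
      · have := fin2 (ev + ew') (E.add_mem hev hew') h5
        rwa [show ev + ew' + ew' = ev by (first | rfl | exact eo (by abel_nf <;> simp only [ch2, ch3, ch4, ch5, ch6, add_zero, zero_add]))] at this
    · have hax : τ (a + ew) = 1 := ph01 hta hx1
      rcases X.rig _ (E.add_mem ha hew) hax _ (E.add_mem hev hew') h5 with h6 | h6
      · have h7 : ev = ew' := by
          have : ev = (ev + ew') + ew' := by (first | rfl | exact eo (by abel_nf <;> simp only [ch2, ch3, ch4, ch5, ch6, add_zero, zero_add]))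
          rw [this, h6, zero_add]
        rw [h7]
        rcases X.rig ew hx hx1 ew' hew' h2' with h8 | h8
        · rw [h8]
          exact fin1 0 E.zero_mem (C.zero a)
        · rw [h8]
          have := fin2 0 E.zero_mem (C.zero a)
          rwa [zero_add] at this
      · rcases X.rig ew hx hx1 ew' hew' h2' with h8 | h8
        · rw [h8, add_zero] at h6
          rw [h6]
          exact fin2 a ha (C.self he a)
        · have h7 : ev = a := by
            have : ev = (ev + ew') + ew' := by (first | rfl | exact eo (by abel_nf <;> simp only [ch2, ch3, ch4, ch5, ch6, add_zero, zero_add]))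
            rw [this, h6, h8]; (first | rfl | exact eo (by abel_nf <;> simp only [ch2, ch3, ch4, ch5, ch6, add_zero, zero_add]))
          rw [h7]
          exact fin1 a ha (C.self he a)
  have h2 := Submodule.finrank_mono h1
  have h3 := finrank_sup_span_le ((D.ann a ⊓ E) ⊔ E') x
  rw [F.finrank_sup inf_le_right le_rfl] at h3
  omega

/-- Section 4 -/
theorem S4 [Finite V] (S : LHs D φ) (F : Fct D φ E E') (X : Ext D E τ t) {x : V}
    (hx : x ∈ E) (hx1 : τ x = 1) (hY : Yy D φ x) {a : V} (ha : a ∈ E) (ha0 : a ≠ 0)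
    (hta : τ a = 0) (hc : ∃ s, SlQ D (D.q x a) s) : Yy D φ a ∧ Yy D φ (x + a) ∧
    Module.finrank (ZMod 2) (DcQ D (D.q x a) hc) =
      Module.finrank (ZMod 2) (D.ann a ⊓ E : Submodule (ZMod 2) V) +
      Module.finrank (ZMod 2) E' + 2 := by
  have he := S.he
  have h1 := X.nC hx hx1 ha ha0 hta
  have h2 := X.nC' he hx hx1 ha ha0 hta
  have k1 := S.K3 h1 hc
  have k2 := S.K3 h2 ⟨x + a, a, rfl⟩
  rw [show x + a + a = x by (first | rfl | exact eo (by abel_nf <;> simp only [ch2, ch3, ch4, ch5, ch6, add_zero, zero_add]))] at k2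
  have e1 : D.q (x + a) a = D.q x a := qadd' (C.self he a)
  have e2 : Module.finrank (ZMod 2) (DcQ D (D.q (x + a) a) ⟨x + a, a, rfl⟩) =
      Module.finrank (ZMod 2) (DcQ D (D.q x a) hc) := Dc_congr e1 _ _
  rw [e2] at k2
  have l1 := Dc_inf_le S F X hx hx1 hY ha hta hc
  have l2 := finrank_le_ker φ (DcQ D (D.q x a) hc)
  have m1 := F.finE hx
  have m2 := F.finE (E.add_mem hx ha)
  have m3 := F.finE ha
  rw [X.fin_one he hx hx1, ub_pos hY] at m1
  rw [X.fin_one he (E.add_mem hx ha) (ph10 hx1 hta)] at m2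
  have b1 := ub_le (D := D) (φ := φ) a
  have b2 := ub_le (D := D) (φ := φ) (x + a)
  refine ⟨ub_zero.1 (by omega), ub_zero.1 (by omega), by omega⟩

/-- all of `E` is of type (I) -/
theorem S4I [Finite V] (S : LHs D φ) (F : Fct D φ E E') (X : Ext D E τ t) {x : V}
    (hx : x ∈ E) (hx1 : τ x = 1) (hY : Yy D φ x) : TyI D φ E := by
  intro e hee he0
  rcases zz (τ e) with h1 | h1
  · exact (S4 S F X hx hx1 hY hee he0 h1 ⟨x, e, rfl⟩).1
  · by_cases h2 : e + x = 0
    · rw [eo h2]
      exact hY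
    · have := (S4 S F X hx hx1 hY (E.add_mem hee hx) h2 (ph11 h1 hx1) ⟨x, e + x, rfl⟩).2.1
      rwa [show x + (e + x) = e by (first | rfl | exact eo (by abel_nf <;> simp only [ch2, ch3, ch4, ch5, ch6, add_zero, zero_add]))] at this

/-- a slot outside the hyperplane -/
theorem S4out [Finite V] (S : LHs D φ) (F : Fct D φ E E') (X : Ext D E τ t)
    (hI : TyI D φ E) {x : V} (hx : x ∈ E) (hx1 : τ x = 1) {a : V} (ha : a ∈ E) (ha0 : a ≠ 0)
    (hta : τ a = 0) : ∃ u y, φ u = 1 ∧ D.q u y = D.q x a := by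
  have hx0 : x ≠ 0 := by
    rintro rfl
    rw [map_zero] at hx1
    exact n01 hx1
  have hc : ∃ s, SlQ D (D.q x a) s := ⟨x, a, rfl⟩
  have h1 := (S4 S F X hx hx1 (hI x hx hx0) ha ha0 hta hc).2.2
  have h2 := Dc_inf_le S F X hx hx1 (hI x hx hx0) ha hta hc
  by_contra hcon
  push Not at hcon
  have h3 : DcQ D (D.q x a) hc ⊓ LinearMap.ker φ = DcQ D (D.q x a) hc := by
    apply inf_eq_left.2
    rw [DcQ_eq_span S.he, Submodule.span_le]
    rintro u ⟨y, hy⟩
    rcases zz (φ u) with h | h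
    · exact h
    · exact absurd hy (hcon u y h)
  rw [h3] at h2
  omega

end Pool.Agent.ETCLH
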