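import Pool.Agent.ETCLH.S4

/-!
THEOREM LH (note 2403), section 7: case (I) for all factors is impossible if every factor contains
two commuting classes of rigid elements (`A = A'[s]`).
-/

set_option autoImplicit false
set_option linter.unusedSectionVars false
set_option linter.unusedVariables false

namespace Pool.Agent.ETCLH

open Module
open Pool.Agent.Helper58.PLine (QData)
open Pool.Agent.ETCP Pool.Agent.LSS Pool.Agent.RDC

variable {V Q : Type} [AddCommGroup V] [Module (ZMod 2) V]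
variable {D : QData V Q} {φ : V →ₗ[ZMod 2] ZMod 2}

section fac

variable {E E' : Submodule (ZMod 2) V} {τ : V →ₗ[ZMod 2] ZMod 2} {t : V}

/-- `x` is rigid in `E` -/
def Rgd (D : QData V Q) (E : Submodule (ZMod 2) V) (x : V) : Prop :=
  x ∈ E ∧ x ≠ 0 ∧ ∀ v ∈ E, C D x v → v = 0 ∨ v = x

theorem Ext.rgd (X : Ext D E τ t) {x : V} (hx : x ∈ E) (hx1 : τ x = 1) : Rgd D E x := by
  refine ⟨hx, ?_, X.rig x hx hx1⟩
  rintro rfl
  rw [map_zero] at hx1
  exact n01 hx1

theorem S7a [Finite V] (S : LHs D φ) (F : Fct D φ E E') (X : Ext D E τ t) (hI : TyI D φ E)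
    {x g a : V} (hx : x ∈ E) (hx1 : τ x = 1) (hg : g ∈ E') (ha : a ∈ E) (ha0 : a ≠ 0)
    (hta : τ a = 0) :
    (Yy D φ (x + a + g) → Yy D φ (x + g)) ∧ (Yy D φ (x + a + g) → Yy D φ (a + g)) := by
  have he := S.he
  have hx0 := (X.rgd hx hx1).2.1
  have hxa := X.nC hx hx1 ha ha0 hta
  have hc : ∃ s, SlQ D (D.q x a) s := ⟨x, a, rfl⟩
  have d := (S4 S F X hx hx1 (hI x hx hx0) ha ha0 hta hc).2.2
  have e1 : D.q (x + g) a = D.q x a := qadd' (F.orth a ha g hg).symm
  have e2 : D.q x (a + g) = D.q x a := F.qE hx hg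
  have k1 := S.K3 (y := x + g) (z := a) (fun h => hxa (e1.symm.trans h)) ⟨x + g, a, rfl⟩
  have k2 := S.K3 (y := x) (z := a + g) (fun h => hxa (e2.symm.trans h)) ⟨x, a + g, rfl⟩
  rw [Dc_congr e1 _ hc, show x + g + a = x + a + g by (first | rfl | exact eo (by abel_nf <;> simp only [ch2, ch3, ch4, ch5, ch6, add_zero, zero_add]))] at k1
  rw [Dc_congr e2 _ hc, show x + (a + g) = x + a + g by (first | rfl | exact eo (by abel_nf <;> simp only [ch2, ch3, ch4, ch5, ch6, add_zero, zero_add]))] at k2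
  have m1 := F.finrank hx hg
  have m2 := F.finE ha
  have m3 := F.finrank (E.add_mem hx ha) hg
  have m4 := F.finE hx
  have m5 := F.finrank ha hg
  rw [X.fin_one he hx hx1] at m1
  rw [ub_pos (hI a ha ha0)] at m2
  rw [X.fin_one he (E.add_mem hx ha) (ph10 hx1 hta)] at m3
  rw [X.fin_one he hx hx1, ub_pos (hI x hx hx0)] at m4
  constructor
  · intro h
    rw [ub_pos h] at m3
    apply ub_zero.1
    omega
  · intro h
    rw [ub_pos h] at m3
    apply ub_zero.1
    omega

theorem S7a' [Finite V] (S : LHs D φ) (F : Fct D φ E E') (X : Ext D E τ t) (hI : TyI D φ E)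
    {x g a : V} (hx : x ∈ E) (hx1 : τ x = 1) (hg : g ∈ E') (ha : a ∈ E) (ha0 : a ≠ 0)
    (hta : τ a = 0) : Yy D φ (x + g) → Yy D φ (x + a + g) := by
  intro h
  have h1 := (S7a S F X hI (E.add_mem hx ha) (ph10 hx1 hta) hg ha ha0 hta).1
  rw [show x + a + a = x by (first | rfl | exact eo (by abel_nf <;> simp only [ch2, ch3, ch4, ch5, ch6, add_zero, zero_add]))] at h1
  exact h1 h

theorem S7b [Finite V] (S : LHs D φ) (F : Fct D φ E E') (hI : TyI D φ E)
    (hR : ∀ x, Rgd D E x → ∃ τ, Ext D E τ x) {x y g : V} (hx : Rgd D E x) (hy : Rgd D E y)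
    (hg : g ∈ E') (h : Yy D φ (x + g)) : Yy D φ (y + g) := by
  by_cases hxy : x = y
  · rwa [← hxy]
  obtain ⟨τ, X⟩ := hR x hx
  obtain ⟨σ, Y⟩ := hR y hy
  have hxy0 : x + y ≠ 0 := fun h => hxy (eo h)
  have hxyE := E.add_mem hx.1 hy.1
  rcases zz (τ y) with h1 | h1
  · have h2 := S7a' S F X hI hx.1 X.one hg hy.1 hy.2.1 h1 h
    rcases zz (σ x) with h3 | h3
    · have h4 := (S7a S F Y hI hy.1 Y.one hg hx.1 hx.2.1 h3).1
      rw [show y + x = x + y by (first | rfl | exact eo (by abel_nf <;> simp only [ch2, ch3, ch4, ch5, ch6, add_zero, zero_add]))] at h4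
      exact h4 h2
    · have h4 := S7a' S F Y hI hx.1 h3 hg hxyE hxy0 (ph11 h3 Y.one) h
      rwa [show x + (x + y) = y by (first | rfl | exact eo (by abel_nf <;> simp only [ch2, ch3, ch4, ch5, ch6, add_zero, zero_add]))] at h4
  · have h4 := S7a' S F X hI hx.1 X.one hg hxyE hxy0 (ph11 X.one h1) h
    rwa [show x + (x + y) = y by (first | rfl | exact eo (by abel_nf <;> simp only [ch2, ch3, ch4, ch5, ch6, add_zero, zero_add]))] at h4

theorem S7c [Finite V] (S : LHs D φ) (F : Fct D φ E E') (hI : TyI D φ E)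
    (hR : ∀ x, Rgd D E x → ∃ τ, Ext D E τ x) {x e g : V} (hx : Rgd D E x) (hee : e ∈ E)
    (he0 : e ≠ 0) (hg : g ∈ E') (h : Yy D φ (x + g)) : Yy D φ (e + g) := by
  obtain ⟨τ, X⟩ := hR x hx
  rcases zz (τ e) with h1 | h1
  · have h2 := S7a' S F X hI hx.1 X.one hg hee he0 h1 h
    exact (S7a S F X hI hx.1 X.one hg hee he0 h1).2 h2
  · exact S7b S F hI hR hx (X.rgd hee h1) hg h

/-- the radical of `E / <x>` is zero -/
theorem S7z (he : D.e = 0) (X : Ext D E τ t) {s w : V} (hs : Rgd D E s) (hs0 : τ s = 0)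
    (hd : ∀ a, ∃ b ∈ E, b ≠ 0 ∧ b ≠ t ∧ b ≠ a ∧ b ≠ t + a) (hw : w ∈ E)
    (hc : ∀ k ∈ E, ∃ t1 t2, (t1 = 0 ∨ t1 = t) ∧ (t2 = 0 ∨ t2 = t) ∧ C D (w + t1) (k + t2)) :
    w = 0 ∨ w = t := by
  by_contra hcon
  push Not at hcon
  obtain ⟨hw0, hwt⟩ := hcon
  -- `a`
  obtain ⟨a, ha, hta, ha0, hca⟩ : ∃ a ∈ E, τ a = 0 ∧ a ≠ 0 ∧
      ∀ k ∈ E, ∃ t1 t2, (t1 = 0 ∨ t1 = t) ∧ (t2 = 0 ∨ t2 = t) ∧ C D (a + t1) (k + t2) := by
    rcases zz (τ w) with h | h
    · exact ⟨w, hw, h, hw0, hc⟩
    · refine ⟨w + t, E.add_mem hw X.mem, ph11 h X.one, fun h1 => hwt (eo h1), fun k hk => ?_⟩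
      obtain ⟨t1, t2, h1, h2, h3⟩ := hc k hk
      refine ⟨t1 + t, t2, ?_, h2, h3.of_eq (by (first | rfl | exact eo (by abel_nf <;> simp only [ch2, ch3, ch4, ch5, ch6, add_zero, zero_add]))) rfl⟩
      rcases h1 with rfl | rfl
      · exact Or.inr (zero_add t)
      · exact Or.inl (ZModModule.add_self t1)
  have key : ∀ k ∈ E, τ k = 0 → C D a k := by
    intro k hk htk
    obtain ⟨t1, t2, h1, h2, h3⟩ := hca k hk
    rcases h1 with rfl | rfl
    · rw [add_zero] at h3
      rcases h2 with rfl | rfl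
      · rw [add_zero] at h3
        exact h3
      · exfalso
        have h4 := X.ann ha0 ha hta (E.add_mem hk X.mem) h3
        rw [ph01 htk X.one] at h4
        exact n01 h4.symm
    · have hat := E.add_mem ha X.mem
      have hat1 : τ (a + t1) = 1 := ph01 hta X.one
      rcases h2 with rfl | rfl
      · rw [add_zero] at h3
        rcases X.rig _ hat hat1 k hk h3 with h4 | h4
        · rw [h4]
          exact C.zero a
        · rw [h4, hat1] at htk
          exact absurd htk.symm n01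
      · rcases X.rig _ hat hat1 _ (E.add_mem hk X.mem) h3 with h4 | h4
        · have h5 : τ (k + t2) = 1 := ph01 htk X.one
          rw [h4, map_zero] at h5
          exact absurd h5 n01
        · have h5 : k = a := add_right_cancel h4
          rw [h5]
          exact C.self he a
  have has : a = s := by
    rcases hs.2.2 a ha (key s hs.1 hs0).symm with h | h
    · exact absurd h ha0
    · exact h
  subst has
  obtain ⟨b, hb, hb0, hbt, hba, hbta⟩ := hd a
  rcases zz (τ b) with h | h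
  · rcases hs.2.2 b hb (key b hb h) with h1 | h1
    · exact hb0 h1
    · exact hba h1
  · rcases hs.2.2 _ (E.add_mem hb X.mem) (key _ (E.add_mem hb X.mem) (ph11 h X.one)) with h1 | h1
    · exact hbt (eo h1)
    · apply hbta
      rw [← h1]; (first | rfl | exact eo (by abel_nf <;> simp only [ch2, ch3, ch4, ch5, ch6, add_zero, zero_add]))

end fac

/-- a decomposition of the hyperplane -/
structure Cm (D : QData V Q) (φ : V →ₗ[ZMod 2] ZMod 2) (k : ℕ) where
  p : Fin k → (V →ₗ[ZMod 2] V)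
  mem : ∀ j v, φ (p j v) = 0
  idem : ∀ j v, p j (p j v) = p j v
  orth : ∀ i j, i ≠ j → ∀ v, p i (p j v) = 0
  sum : ∀ v, φ v = 0 → ∑ j, p j v = v
  perp : ∀ i j, i ≠ j → ∀ v w, C D (p i v) (p j w)
  ind : ∀ v w, φ v = 0 → φ w = 0 → C D v w → ∀ j, C D (p j v) (p j w)

namespace Cm

variable {k : ℕ} (M : Cm D φ k)

/-- the component `j` -/
def E (j : Fin k) : Submodule (ZMod 2) V where
  carrier := {v | M.p j v = v}
  add_mem' := by
    intro a b ha hb
    show M.p j (a + b) = a + b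
    rw [map_add, show M.p j a = a from ha, show M.p j b = b from hb]
  zero_mem' := map_zero _
  smul_mem' := by
    intro r a ha
    show M.p j (r • a) = r • a
    rw [map_smul, show M.p j a = a from ha]

/-- the other components -/
def E' (j : Fin k) : Submodule (ZMod 2) V where
  carrier := {v | φ v = 0 ∧ M.p j v = 0}
  add_mem' := by
    rintro a b ⟨h1, h2⟩ ⟨h3, h4⟩
    exact ⟨ph00 h1 h3, by rw [map_add, h2, h4, add_zero]⟩
  zero_mem' := ⟨map_zero φ, map_zero _⟩
  smul_mem' := by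
    rintro r a ⟨h1, h2⟩
    exact ⟨by rw [map_smul, h1, smul_zero], by rw [map_smul, h2, smul_zero]⟩

variable {M}

theorem mem_E {j : Fin k} {v : V} : v ∈ M.E j ↔ M.p j v = v := Iff.rfl

theorem mem_E' {j : Fin k} {v : V} : v ∈ M.E' j ↔ φ v = 0 ∧ M.p j v = 0 := Iff.rfl

variable (M)

theorem pE (j : Fin k) (v : V) : M.p j v ∈ M.E j := M.idem j v

theorem pE' (j : Fin k) {v : V} (hv : φ v = 0) : v + M.p j v ∈ M.E' j := by
  rw [mem_E']
  refine ⟨ph00 hv (M.mem j v), ?_⟩
  rw [map_add, M.idem, ZModModule.add_self]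

theorem commute {v w : V} (hv : φ v = 0) (hw : φ w = 0)
    (h : ∀ i, C D (M.p i v) (M.p i w)) : C D v w := by
  have h1 : ∀ i, C D (M.p i v) w := by
    intro i
    have h2 : w ∈ D.ann (M.p i v) := by
      rw [← M.sum w hw]
      apply sum_mem
      intro j _
      by_cases hij : i = j
      · subst hij
        exact h i
      · exact M.perp i j hij v w
    exact h2
  have h3 : v ∈ D.ann w := by
    rw [← M.sum v hv]
    apply sum_mem
    intro j _
    exact (h1 j).symm
  exact C.symm h3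

theorem fct (j : Fin k) : Fct D φ (M.E j) (M.E' j) where
  le := by
    intro e he
    rw [← mem_E.1 he]
    exact M.mem j e
  le' := fun h hh => (mem_E'.1 hh).1
  dis := by
    intro v h1 h2
    rw [← mem_E.1 h1, (mem_E'.1 h2).2]
  sum := by
    intro v hv
    exact ⟨M.p j v, M.pE j v, v + M.p j v, M.pE' j hv, by (first | rfl | exact eo (by abel_nf <;> simp only [ch2, ch3, ch4, ch5, ch6, add_zero, zero_add]))⟩
  orth := by
    intro e he h hh
    obtain ⟨h1, h2⟩ := mem_E'.1 hh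
    have h3 : φ e = 0 := by
      rw [← mem_E.1 he]
      exact M.mem j e
    apply M.commute h3 h1
    intro i
    by_cases hij : i = j
    · subst hij
      rw [h2]
      exact C.zero _
    · rw [← mem_E.1 he, M.orth i j hij]
      exact C.zero' _
  ind := by
    intro e he e1 he1 h hh h1 hh1 hq
    have a1 : ∀ e ∈ M.E j, φ e = 0 := by
      intro e he
      rw [← mem_E.1 he]
      exact M.mem j e
    have orth : ∀ e ∈ M.E j, ∀ h ∈ M.E' j, C D e h := by
      intro e he h hh
      obtain ⟨h1, h2⟩ := mem_E'.1 hh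
      apply M.commute (a1 e he) h1
      intro i
      by_cases hij : i = j
      · subst hij
        rw [h2]
        exact C.zero _
      · rw [← mem_E.1 he, M.orth i j hij]
        exact C.zero' _
    have h2 : C D (e + h) (e1 + h1) := by
      rw [← q_eq_iff, qadd' (orth e1 he1 h hh).symm, qaddl' (orth e he h1 hh1)]
      exact hq
    have h3 := M.ind _ _ (ph00 (a1 e he) (mem_E'.1 hh).1) (ph00 (a1 e1 he1) (mem_E'.1 hh1).1) h2 j
    rw [map_add, map_add, mem_E.1 he, mem_E.1 he1, (mem_E'.1 hh).2, (mem_E'.1 hh1).2, add_zero,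
      add_zero] at h3
    exact h3

end Cm

open Classical in
/-- Section 7 -/
theorem S7 [Finite V] (S : LHs D φ) {k : ℕ} (M : Cm D φ k) (hI : ∀ j, TyI D φ (M.E j))
    (hR : ∀ j x, Rgd D (M.E j) x → ∃ τ, Ext D (M.E j) τ x) (hex : ∀ j, ∃ x, Rgd D (M.E j) x)
    (hs : ∀ j x τ, Ext D (M.E j) τ x → ∃ s, Rgd D (M.E j) s ∧ τ s = 0)
    (hd : ∀ j x a, ∃ b ∈ M.E j, b ≠ 0 ∧ b ≠ x ∧ b ≠ a ∧ b ≠ x + a) : False := by
  have he := S.he
  let N : V → ℕ := fun z => (Finset.univ.filter fun j => M.p j z ≠ 0).card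
  let Bd : V → ℕ := fun z =>
    (Finset.univ.filter fun j => M.p j z ≠ 0 ∧ ¬ Rgd D (M.E j) (M.p j z)).card
  let P : V → Prop := fun z => φ z = 0 ∧ z ≠ 0 ∧ ¬ Yy D φ z
  have hBd : ∀ z, Bd z ≤ k := fun z => (Finset.card_le_univ _).trans (by simp)
  -- existence
  obtain ⟨z0, hz0⟩ : ∃ z, P z := by
    obtain ⟨v, hv⟩ := S.out
    have hv0 : v ≠ 0 := by
      rintro rfl
      rw [map_zero] at hv
      exact n01 hv
    obtain ⟨v', h1, h2, h3, -, -⟩ := S.c5 v hv0 0
    have hno : ∀ z, C D v z → ¬ Yy D φ z := by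
      intro z hz hY
      have := hY v hz.symm
      rw [hv] at this
      exact n01 this.symm
    rcases zz (φ v') with h | h
    · exact ⟨v', h, h2, hno v' h1⟩
    · exact ⟨v + v', ph11 hv h, fun h4 => h3 (eo h4).symm, hno _ ((C.self he v).add h1)⟩
  obtain ⟨z, hz, hmin⟩ : ∃ z, P z ∧ ∀ z', P z' → (k + 1) * N z + Bd z ≤ (k + 1) * N z' + Bd z' := by
    have hex : ∃ n, ∃ z, P z ∧ (k + 1) * N z + Bd z = n := ⟨_, z0, hz0, rfl⟩
    obtain ⟨z, h1, h2⟩ := Nat.find_spec hex
    refine ⟨z, h1, fun z' h3 => ?_⟩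
    rw [h2]
    exact Nat.find_min' hex ⟨z', h3, rfl⟩
  obtain ⟨hz0, hzn, hzY⟩ := hz
  -- no bad component
  have hgood : ∀ j, M.p j z ≠ 0 → Rgd D (M.E j) (M.p j z) := by
    intro j hj
    by_contra hbad
    obtain ⟨r, hr⟩ := hex j
    have hg := M.pE' j hz0
    set g := z + M.p j z with hgd
    have hzg : M.p j z + g = z := by rw [hgd]; (first | rfl | exact eo (by abel_nf <;> simp only [ch2, ch3, ch4, ch5, ch6, add_zero, zero_add]))
    have h1 : ¬ Yy D φ (r + g) := by
      intro h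
      have := S7c S (M.fct j) (hI j) (hR j) hr (M.pE j z) hj hg h
      rw [hzg] at this
      exact hzY this
    have hpj : M.p j (r + g) = r := by
      rw [map_add, Cm.mem_E.1 hr.1, (Cm.mem_E'.1 hg).2, add_zero]
    have hpi : ∀ i, i ≠ j → M.p i (r + g) = M.p i z := by
      intro i hi
      rw [map_add, hgd, map_add, M.orth i j hi, add_zero, ← Cm.mem_E.1 hr.1, M.orth i j hi,
        zero_add]
    have hP : P (r + g) := by
      refine ⟨ph00 ((M.fct j).le r hr.1) (Cm.mem_E'.1 hg).1, ?_, h1⟩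
      intro h
      rw [h, map_zero] at hpj
      exact hr.2.1 hpj.symm
    have hN : N (r + g) = N z := by
      show (Finset.univ.filter fun i => M.p i (r + g) ≠ 0).card =
        (Finset.univ.filter fun i => M.p i z ≠ 0).card
      congr 1
      apply Finset.filter_congr
      intro i _
      by_cases hi : i = j
      · subst hi
        rw [hpj]
        exact iff_of_true hr.2.1 hj
      · rw [hpi i hi]
    have hB : Bd (r + g) < Bd z := by
      apply Finset.card_lt_card
      rw [Finset.ssubset_iff_of_subset]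
      · refine ⟨j, ?_, ?_⟩
        · rw [Finset.mem_filter]
          exact ⟨Finset.mem_univ _, hj, hbad⟩
        · rw [Finset.mem_filter]
          rintro ⟨-, -, h⟩
          rw [hpj] at h
          exact h hr
      · intro i hi
        rw [Finset.mem_filter] at hi ⊢
        by_cases hij : i = j
        · subst hij
          exact ⟨Finset.mem_univ _, hj, hbad⟩
        · rw [hpi i hij] at hi
          exact hi
    have := hmin _ hP
    rw [hN] at this
    omega
  have hless : ∀ z', φ z' = 0 → z' ≠ 0 → N z' < N z → Yy D φ z' := by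
    intro z' h1 h2 h3
    by_contra h4
    have h5 := hmin z' ⟨h1, h2, h4⟩
    have h6 := hBd z'
    have h7 : (k + 1) * (N z' + 1) ≤ (k + 1) * N z := Nat.mul_le_mul_left _ h3
    rw [Nat.mul_add] at h7
    omega
  -- the component `j`
  obtain ⟨j, hj⟩ : ∃ j, M.p j z ≠ 0 := by
    by_contra h
    push Not at h
    apply hzn
    rw [← M.sum z hz0]
    exact Finset.sum_eq_zero fun j _ => h j
  have F := M.fct j
  have hg := M.pE' j hz0
  set g := z + M.p j z with hgd
  set x := M.p j z with hxd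
  have hzg : x + g = z := by rw [hgd]; (first | rfl | exact eo (by abel_nf <;> simp only [ch2, ch3, ch4, ch5, ch6, add_zero, zero_add]))
  have hx := hgood j hj
  have hg0 : g ≠ 0 := by
    intro h
    rw [h, add_zero] at hzg
    apply hzY
    rw [← hzg]
    exact hI j x hx.1 hx.2.1
  have hgφ : φ g = 0 := (Cm.mem_E'.1 hg).1
  have hgi : ∀ i, i ≠ j → M.p i g = M.p i z := by
    intro i hi
    rw [hgd, map_add, hxd, M.orth i j hi, add_zero]
  have hgj : M.p j g = 0 := (Cm.mem_E'.1 hg).2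
  have hgY : Yy D φ g := by
    apply hless g hgφ hg0
    apply Finset.card_lt_card
    rw [Finset.ssubset_iff_of_subset]
    · refine ⟨j, ?_, ?_⟩
      · rw [Finset.mem_filter]
        exact ⟨Finset.mem_univ _, hj⟩
      · rw [Finset.mem_filter]
        rintro ⟨-, h⟩
        exact h hgj
    · intro i hi
      rw [Finset.mem_filter] at hi ⊢
      by_cases hij : i = j
      · subst hij
        exact ⟨Finset.mem_univ _, hj⟩
      · rw [hgi i hij] at hi
        exact hi
  have hgR : ∀ i, M.p i g ≠ 0 → Rgd D (M.E i) (M.p i g) := by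
    intro i hi
    have hij : i ≠ j := by
      rintro rfl
      exact hi hgj
    rw [hgi i hij] at hi ⊢
    exact hgood i hi
  -- the elements `u`
  have hu : ∀ y, Rgd D (M.E j) y → ∃ u, φ u = 1 ∧ D.q y u = D.q g u := by
    intro y hy
    have h1 : ¬ Yy D φ (y + g) := by
      intro h
      have := S7b S F (hI j) (hR j) hy hx hg h
      rw [hzg] at this
      exact hzY this
    obtain ⟨u, h2, h3⟩ := notY h1
    exact ⟨u, h3, q_eq'_iff.2 h2⟩
  have hcen : ∀ y, Rgd D (M.E j) y → ∀ u, φ u = 1 → D.q y u = D.q g u → ∀ v, Nb D g u v := by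
    intro y hy u hu1 hq v
    have hc : ∃ s, SlQ D (D.q g u) s := ⟨g, u, rfl⟩
    have h1 : ∀ v, φ v = 0 → v ∈ DcQ D (D.q g u) hc := by
      intro v hv
      obtain ⟨e, hee, h, hh, rfl⟩ := F.sum v hv
      exact add_mem (DcQ_ann ⟨u, rfl⟩ (F.orth e hee g hg).symm)
        (DcQ_ann ⟨u, hq⟩ (F.orth y hy.1 h hh))
    have h2 : v ∈ DcQ D (D.q g u) hc := by
      rcases zz (φ v) with h | h
      · exact h1 v h
      · have h3 := add_mem (h1 (v + u) (ph11 h hu1)) (DcQ_sl he (hc := hc) ⟨g, D.symm u g⟩)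
        rwa [show v + u + u = v by (first | rfl | exact eo (by abel_nf <;> simp only [ch2, ch3, ch4, ch5, ch6, add_zero, zero_add]))] at h3
    exact (mem_Dc he).1 h2
  obtain ⟨τ, X⟩ := hR j x hx
  obtain ⟨s, hsR, hs0⟩ := hs j x τ X
  obtain ⟨u, hu1, hu2⟩ := hu x hx
  obtain ⟨u', hu1', hu2'⟩ := hu s hsR
  have hw0 : φ (u + u') = 0 := ph11 hu1 hu1'
  have hNw : ∀ v, Nb D g (u + u') v := fun v =>
    ((hcen x hx u hu1 hu2 v).symm.add he (hcen s hsR u' hu1' hu2' v).symm).symm
  have hgw : C D g (u + u') := by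
    apply M.commute hgφ hw0
    intro i
    by_cases hi : M.p i g = 0
    · rw [hi]
      exact C.zero' _
    have hri := hgR i hi
    obtain ⟨σ, Y⟩ := hR i _ hri
    obtain ⟨s', hs', hs0'⟩ := hs i _ σ Y
    have hwi := S7z he Y hs' hs0' (fun a => hd i _ a) (M.pE i (u + u')) (by
      intro v hv
      obtain ⟨w1, w2, h1, h2, h3⟩ := hNw v
      have hw1 := hgY w1 h1
      have hw2 := hgY w2 h2
      have c1 := M.ind g w1 hgφ hw1 h1 i
      have c2 := M.ind g w2 hgφ hw2 h2 i
      have c3 := M.ind _ _ (ph00 hw0 hw1) (ph00 ((M.fct i).le v hv) hw2) h3 i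
      rw [map_add (M.p i) (u + u') w1, map_add (M.p i) v w2, Cm.mem_E.1 hv] at c3
      exact ⟨M.p i w1, M.p i w2, hri.2.2 _ (M.pE i w1) c1, hri.2.2 _ (M.pE i w2) c2, c3⟩)
    rcases hwi with h1 | h1
    · rw [h1]
      exact C.zero _
    · rw [h1]
      exact C.self he _
  have hq : D.q x u = D.q s u' := by
    rw [hu2, hu2']
    exact q_eq hgw
  obtain ⟨y, h1, h2⟩ := D.link _ _ _ _ hq
  have hxY := hI j x hx.1 hx.2.1
  have hy1 : φ y = 1 := by
    have := hxY _ (q_eq_iff.1 h1)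
    rcases zz (φ y) with h | h
    · rw [map_add, hu1, h, add_zero] at this
      exact absurd this.symm n01
    · exact h
  have hxs : C D (x + s) y := q_eq'_iff.1 (by rw [← h1, ← h2, hq])
  have hxs0 : x + s ≠ 0 := by
    intro h
    have h3 : τ (x + s) = 1 := ph10 X.one hs0
    rw [h, map_zero] at h3
    exact n01 h3
  have := hI j (x + s) ((M.E j).add_mem hx.1 hsR.1) hxs0 y hxs
  rw [hy1] at this
  exact n01 this.symm

end Pool.Agent.ETCLH
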